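import Mathlib

/-!
Stepanov's method in Bombieri's form: an upper bound for the number of points of the affine line
that split completely in a finite cover, and the resulting bound for character sums over large
extension fields.
-/

set_option autoImplicit false

namespace Pool.Agent.MP_1609a8_nt.H76

open Polynomial Finset

theorem pigeon {G R : Type*} [AddCommGroup G] [AddCommGroup R] (f : G →+ R) (S : AddSubgroup R)
    [Finite S] (h : ∀ g, f g ∈ S) (hc : Nat.card S < Nat.card G) : ∃ g, g ≠ 0 ∧ f g = 0 := by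
  by_contra hn
  push Not at hn
  have hi : Function.Injective (f.codRestrict S h) := by
    rw [injective_iff_map_eq_zero]
    intro a ha
    by_contra h0
    exact hn a h0 (by simpa [Subtype.ext_iff] using ha)
  exact absurd (Nat.card_le_card_of_injective _ hi) (not_le.2 hc)

/-- The order of a power series as a natural number. -/
noncomputable def od {E : Type} [Field E] (g : PowerSeries E) : ℕ := g.order.toNat

theorem od_mul {E : Type} [Field E] {g h : PowerSeries E} (hg : g ≠ 0) (hh : h ≠ 0) :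
    od (g * h) = od g + od h := by
  unfold od
  rw [PowerSeries.order_mul, ENat.toNat_add (by simpa using hg) (by simpa using hh)]

theorem od_pow {E : Type} [Field E] {g : PowerSeries E} (hg : g ≠ 0) (n : ℕ) :
    od (g ^ n) = n * od g := by
  induction n with
  | zero => simp [od]
  | succ k ih => rw [pow_succ, od_mul (pow_ne_zero _ hg) hg, ih]; ring

theorem sum_ne_zero_of_od {E ι : Type} [Field E] (s : Finset ι) (g : ι → PowerSeries E)
    (h1 : ∃ i ∈ s, g i ≠ 0)
    (h2 : ∀ i ∈ s, ∀ j ∈ s, g i ≠ 0 → g j ≠ 0 → od (g i) = od (g j) → i = j) :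
    ∑ i ∈ s, g i ≠ 0 := by
  classical
  obtain ⟨i0, h0, hm⟩ := exists_min_image (s.filter fun i => g i ≠ 0) (fun i => od (g i))
    (by obtain ⟨i, hi, h⟩ := h1; exact ⟨i, mem_filter.2 ⟨hi, h⟩⟩)
  rw [mem_filter] at h0
  intro h
  have h3 := congrArg (PowerSeries.coeff (od (g i0))) h
  rw [map_sum, sum_eq_single i0, map_zero] at h3
  · exact PowerSeries.coeff_order h0.2 h3
  · intro j hj hji
    by_cases c : g j = 0
    · simp [c]
    · refine PowerSeries.coeff_of_lt_order_toNat _ (lt_of_le_of_ne (hm j (mem_filter.2 ⟨hj, c⟩)) ?_)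
      exact fun e => hji (h2 i0 h0.1 j hj h0.2 c e).symm
  · exact fun c => absurd h0.1 c

/-- A degree filtration on a ring `R` of rank `D` over `E[X]`, and points of `R` over `T`. -/
structure Fil (E R : Type) [Field E] [Fintype E] [CommRing R] (ι : E[X] →+* R) (D c : ℕ)
    (T : Finset E) where
  V : ℕ → AddSubgroup R
  Pt : E → (R →+* E) → Prop
  card : ∀ k, Nat.card (V k) = Fintype.card E ^ (D * (k + 1))
  mono : ∀ {k l a}, k ≤ l → a ∈ V k → a ∈ V l
  mul : ∀ {k l a b}, a ∈ V k → b ∈ V l → a * b ∈ V (k + l + c)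
  poly : ∀ u : E[X], ι u ∈ V u.natDegree
  ovr : ∀ x P, Pt x P → ∀ u, P (ι u) = u.eval x
  zeros : ∀ k a (S : Finset E), a ∈ V k → a ≠ 0 → S ⊆ T → (∀ x ∈ S, ∀ P, Pt x P → P a = 0) →
    #S ≤ k

theorem card_degreeLT (E : Type) [Field E] [Fintype E] (k : ℕ) :
    Nat.card (degreeLT E k) = Fintype.card E ^ k := by
  rw [Nat.card_congr (degreeLTEquiv E k).toEquiv]
  simp

namespace Fil

variable {E R : Type} [Field E] [Fintype E] [CommRing R] {ι : E[X] →+* R} {D c : ℕ}
  {T : Finset E} (F : Fil E R ι D c T)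

instance fin (k : ℕ) : Finite (F.V k) :=
  Nat.finite_of_card_ne_zero (by rw [F.card]; positivity)

theorem pow {k : ℕ} {a : R} (h : a ∈ F.V k) (n : ℕ) : a ^ (n + 1) ∈ F.V ((n + 1) * (k + c)) := by
  have : a ^ (n + 1) ∈ F.V ((n + 1) * k + n * c) := by
    induction n with
    | zero => simpa using h
    | succ j ih =>
      rw [pow_succ]
      exact F.mono (by ring_nf; omega) (F.mul ih h)
  exact F.mono (by ring_nf; omega) this

variable {φ : R →+* PowerSeries E} (hφ : Function.Injective φ)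
  (hu : ∀ u : E[X], u ≠ 0 → φ (ι u) ≠ 0 ∧ od (φ (ι u)) ≤ u.natDegree)
include F hφ hu

theorem od_le (hD : 0 < D) {k : ℕ} {a : R} (h : a ∈ F.V k) (h0 : a ≠ 0) :
    od (φ a) ≤ D * (k + c) := by
  obtain ⟨D, rfl⟩ : ∃ D', D = D' + 1 := ⟨D - 1, by omega⟩
  set j := D * (k + c) with hj
  have hq : 1 < Fintype.card E := Fintype.one_lt_card
  let f : F.V j × degreeLT E (j + k + c + 1) →+ R :=
    { toFun := fun z => z.1 * a - ι z.2
      map_zero' := by simp
      map_add' := fun x y => by simp; ring }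
  obtain ⟨⟨b, u⟩, hz, hf⟩ := pigeon f (F.V (j + k + c)) (fun z => by
    refine sub_mem (F.mul z.1.2 h) (F.mono ?_ (F.poly _))
    have := mem_degreeLT.1 z.2.2
    by_cases c : (z.2 : E[X]) = 0
    · simp [c]
    · rw [degree_eq_natDegree c] at this
      exact Nat.lt_succ_iff.1 (by exact_mod_cast this)) (by
    rw [Nat.card_prod, F.card, F.card, card_degreeLT, ← pow_add]
    exact Nat.pow_lt_pow_right hq (by rw [hj]; ring_nf; omega))
  have e : (b : R) * a = ι u := sub_eq_zero.1 hf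
  have ha : φ a ≠ 0 := fun c => h0 (hφ (by simpa using c))
  have hb : φ b ≠ 0 := by
    intro c
    have b0 : (b : R) = 0 := hφ (by simpa using c)
    by_cases u0 : (u : E[X]) = 0
    · exact hz (Prod.ext (Subtype.ext b0) (Subtype.ext u0))
    · exact (hu u u0).1 (by rw [← e, b0]; simp)
  have u0 : (u : E[X]) ≠ 0 := by
    intro c
    rw [c, map_zero] at e
    have := congrArg φ e
    rw [map_mul, map_zero] at this
    exact mul_ne_zero hb ha this
  have h1 := (hu u u0).2
  rw [← e, map_mul, od_mul hb ha] at h1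
  have h2 := mem_degreeLT.1 u.2
  rw [degree_eq_natDegree u0] at h2
  have h3 : (u : E[X]).natDegree < j + k + c + 1 := by exact_mod_cast h2
  have : (D + 1) * (k + c) = j + k + c := by rw [hj]; ring
  omega

theorem exists_fam (hD : 0 < D) (m : ℕ) : ∃ (O : Finset ℕ) (b : ℕ → R), D * (m + 1) ≤ #O ∧
    ∀ o ∈ O, b o ∈ F.V m ∧ φ (b o) ≠ 0 ∧ od (φ (b o)) = o := by
  classical
  have hq : 1 < Fintype.card E := Fintype.one_lt_card
  set O := (range (D * (m + c) + 1)).filter fun o => ∃ b ∈ F.V m, φ b ≠ 0 ∧ od (φ b) = o with hO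
  have h1 : ∀ o, ∃ b : R, o ∈ O → b ∈ F.V m ∧ φ b ≠ 0 ∧ od (φ b) = o := by
    intro o
    by_cases c : o ∈ O
    · obtain ⟨b, hb⟩ := (mem_filter.1 c).2
      exact ⟨b, fun _ => hb⟩
    · exact ⟨0, fun h => absurd h c⟩
  choose b hb using h1
  refine ⟨O, b, ?_, hb⟩
  let f : F.V m →+ (O → E) :=
    { toFun := fun z o => PowerSeries.coeff o (φ z)
      map_zero' := by ext; simp
      map_add' := fun x y => by ext; simp }
  have hi : Function.Injective f := by
    rw [injective_iff_map_eq_zero]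
    intro a ha
    by_contra h0
    have a0 : (a : R) ≠ 0 := fun c => h0 (Subtype.ext c)
    have a1 : φ a ≠ 0 := fun c => a0 (hφ (by simpa using c))
    have : od (φ a) ∈ O := mem_filter.2 ⟨mem_range.2 (Nat.lt_succ_of_le
      (F.od_le hφ hu hD a.2 a0)), a, a.2, a1, rfl⟩
    exact PowerSeries.coeff_order a1 (congrFun ha ⟨_, this⟩)
  have h2 := Nat.card_le_card_of_injective _ hi
  rw [F.card, Nat.card_fun, Nat.card_eq_fintype_card, Nat.card_eq_fintype_card,
    Fintype.card_coe] at h2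
  exact (Nat.pow_le_pow_iff_right hq).1 h2

theorem core (hD : 0 < D) {p μ n : ℕ} [Fact p.Prime] [CharP E p] (hn : n = p ^ μ)
    (hQ : Fintype.card E = n * n) {l m : ℕ} (h1 : D * (l + c) < n)
    (h2 : n * (l + c) + m + c + 1 < (l + 1) * (D * (m + 1))) : #T ≤ l + n * (m + c) + c := by
  classical
  have hq : 1 < Fintype.card E := Fintype.one_lt_card
  haveI : CharP (PowerSeries E) p := charP_of_injective_algebraMap (algebraMap E _).injective p
  haveI : CharP R p := RingHom.charP φ hφ p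
  obtain ⟨O, b, hO, hb⟩ := F.exists_fam hφ hu hD m
  obtain ⟨n', hn'⟩ : ∃ n', n = n' + 1 := ⟨n - 1, by omega⟩
  let f : (O → F.V l) →+ R :=
    { toFun := fun a => ∑ o : O, (a o : R) ^ n * b o
      map_zero' := by simp [hn']
      map_add' := fun x y => by simp [hn, add_pow_char_pow, add_mul, sum_add_distrib] }
  obtain ⟨a, a0, ha⟩ := pigeon f (F.V (n * (l + c) + m + c)) (fun a => sum_mem fun o _ =>
    F.mul (by rw [hn']; exact F.pow (a o).2 n') (hb o o.2).1) (by
    rw [Nat.card_fun, F.card, F.card, Nat.card_eq_fintype_card, Fintype.card_coe, ← pow_mul]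
    refine Nat.pow_lt_pow_right hq ?_
    rw [mul_assoc]
    exact Nat.mul_lt_mul_of_pos_left (h2.trans_le (Nat.mul_le_mul_left _ hO)) hD)
  have hod : ∀ o : O, φ (a o * b o ^ n) ≠ 0 →
      od (φ (a o * b o ^ n)) = od (φ (a o)) + n * o ∧ od (φ (a o)) < n := by
    intro o h
    have e : φ (a o) ≠ 0 := fun c => h (by rw [map_mul, c, zero_mul])
    rw [map_mul, map_pow, od_mul e (pow_ne_zero _ (hb o o.2).2.1), od_pow (hb o o.2).2.1,
      (hb o o.2).2.2]
    exact ⟨rfl, (F.od_le hφ hu hD (a o).2 fun c => e (by rw [c, map_zero])).trans_lt h1⟩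
  refine F.zeros _ (∑ o : O, (a o : R) * b o ^ n) T (sum_mem fun o _ =>
    F.mul (a o).2 (by rw [hn']; exact F.pow (hb o o.2).1 n')) ?_ Subset.rfl ?_
  · intro h
    have h3 := congrArg φ h
    rw [map_sum, map_zero] at h3
    refine sum_ne_zero_of_od _ _ ?_ ?_ h3
    · obtain ⟨o, ho⟩ := Function.ne_iff.1 a0
      refine ⟨o, mem_univ _, ?_⟩
      rw [map_mul, map_pow]
      exact mul_ne_zero (fun c => ho (Subtype.ext (hφ (by simpa using c))))
        (pow_ne_zero _ (hb o o.2).2.1)
    · intro i _ j _ hi hj e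
      obtain ⟨e1, e2⟩ := hod i hi
      obtain ⟨e3, e4⟩ := hod j hj
      rw [e1, e3] at e
      have e5 := congrArg (· / n) e
      have n0 : 0 < n := by omega
      simp only [Nat.add_mul_div_left _ _ n0, Nat.div_eq_of_lt e2, Nat.div_eq_of_lt e4,
        zero_add] at e5
      exact Subtype.ext e5
  · intro x _ P _
    have h3 := congrArg P ha
    simp only [f, AddMonoidHom.coe_mk, ZeroHom.coe_mk, map_sum, map_mul, map_pow, map_zero] at h3
    refine pow_eq_zero_iff (n := n) (by omega) |>.1 ?_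
    rw [map_sum, hn, sum_pow_char_pow, ← hn, ← h3]
    refine sum_congr rfl fun o _ => ?_
    rw [map_mul, map_pow, mul_pow, ← pow_mul, ← hQ, FiniteField.pow_card]

theorem bound (hD : 0 < D) {p μ n : ℕ} [Fact p.Prime] [CharP E p] (hn : n = p ^ μ)
    (hQ : Fintype.card E = n * n) :
    D * #T ≤ n * n + (D * (D * c * (c + 3) + 2 * c + 3) + 1) * n := by
  by_cases c0 : n ≤ D * c * (c + 3) + 2 * c + 2
  · have h1 : #T ≤ n * n := hQ ▸ card_le_univ T
    have h2 : n * n ≤ (D * c * (c + 3) + 2 * c + 3) * n := Nat.mul_le_mul_right _ (by omega)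
    nlinarith [Nat.mul_le_mul_left D (h1.trans h2)]
  obtain ⟨n', rfl⟩ : ∃ n', n = n' + 1 := ⟨n - 1, by omega⟩
  set L := n' / D with hL
  have e1 : D * L ≤ n' := Nat.mul_div_le _ _
  have e2 : n' < D * (L + 1) := Nat.lt_mul_div_succ _ hD
  have e3 : c ≤ L := by
    by_contra h
    have := Nat.mul_le_mul_left D (show L + 1 ≤ c by omega)
    nlinarith
  obtain ⟨l, hl⟩ := Nat.exists_eq_add_of_le' e3
  have e4 : L ≤ n' := by nlinarith
  have h := F.core hφ hu hD hn hQ (l := l) (m := L + c + 1) (by rw [← hl]; omega) (by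
    rw [← hl]
    have e5 : (l + 1) * (D * (L + c + 1 + 1)) + D * c * (L + c + 2) = D * (L + 1) * (L + c + 2) := by
      rw [hl]; ring
    have e6 : (n' + 1) * (L + c + 2) ≤ D * (L + 1) * (L + c + 2) := Nat.mul_le_mul_right _ e2
    have e7 : c * (D * L) ≤ c * n' := Nat.mul_le_mul_left _ e1
    nlinarith)
  have e8 := Nat.mul_le_mul_left D h
  have e9 : (n' + 1) * (D * L) ≤ (n' + 1) * n' := Nat.mul_le_mul_left _ e1
  have e10 : D * (l + (n' + 1) * (L + c + 1 + c) + c)
      = D * L + (n' + 1) * (D * L) + D * (2 * c + 1) * (n' + 1) := by rw [hl]; ring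
  have e11 : D * (2 * c + 1) * (n' + 1) ≤ D * (D * c * (c + 3) + 2 * c + 3) * (n' + 1) :=
    Nat.mul_le_mul_right _ (Nat.mul_le_mul_left _ (by omega))
  nlinarith

end Fil
/-- The polynomial ring itself. -/
noncomputable def base (E : Type) [Field E] [Fintype E] (T : Finset E) :
    Fil E E[X] (RingHom.id _) 1 0 T where
  V k := (degreeLT E (k + 1)).toAddSubgroup
  Pt x P := P = evalRingHom x
  card k := by rw [one_mul]; exact card_degreeLT E _
  mono {k l a} h ha := degreeLT_mono (Nat.succ_le_succ h) ha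
  mul {k l a b} ha hb := by
    simp only [Submodule.mem_toAddSubgroup, mem_degreeLT] at *
    have h1 := natDegree_le_of_degree_le (n := k) (Order.le_of_lt_succ (by exact_mod_cast ha))
    have h2 := natDegree_le_of_degree_le (n := l) (Order.le_of_lt_succ (by exact_mod_cast hb))
    refine degree_le_natDegree.trans_lt ?_
    exact_mod_cast Nat.lt_succ_of_le (natDegree_mul_le.trans (by omega))
  poly u := by
    simp only [Submodule.mem_toAddSubgroup, mem_degreeLT]
    refine degree_le_natDegree.trans_lt ?_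
    exact_mod_cast Nat.lt_succ_self _
  ovr x P h u := by simp [h]
  zeros k a S ha a0 _ h := by
    classical
    simp only [Submodule.mem_toAddSubgroup, mem_degreeLT] at ha
    have h1 := natDegree_le_of_degree_le (n := k) (Order.le_of_lt_succ (by exact_mod_cast ha))
    refine le_trans (card_le_card (t := a.roots.toFinset) fun x hx => ?_)
      ((Multiset.toFinset_card_le _).trans ((card_roots' a).trans h1))
    simpa [a0] using h x hx _ rfl

theorem coeff_fin {B : Type} [CommRing B] {e : ℕ} (v : Fin e → B) (m : ℕ) :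
    (∑ i : Fin e, monomial (i : ℕ) (v i)).coeff m = if h : m < e then v ⟨m, h⟩ else 0 := by
  simp only [finset_sum_coeff, coeff_monomial]
  split_ifs with h
  · rw [sum_eq_single ⟨m, h⟩] <;> simp [Fin.ext_iff] <;> tauto
  · exact sum_eq_zero fun i _ => if_neg fun c => h (by rw [← c]; exact i.2)

namespace Fil

variable {E B : Type} [Field E] [Fintype E] [CommRing B] {ι : E[X] →+* B} {D c : ℕ}
  {T : Finset E} (F : Fil E B ι D c T) (N : B[X])

/-- The filtration on a simple extension. -/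
def W (k : ℕ) : AddSubgroup (AdjoinRoot N) where
  carrier := {r | ∃ g : B[X], g.degree < N.natDegree ∧ (∀ i, g.coeff i ∈ F.V k) ∧
    AdjoinRoot.mk N g = r}
  zero_mem' := ⟨0, by simp, by simp, by simp⟩
  add_mem' := by
    rintro _ _ ⟨g, h1, h2, rfl⟩ ⟨g', h3, h4, rfl⟩
    exact ⟨g + g', (degree_add_le _ _).trans_lt (max_lt h1 h3),
      fun i => by rw [coeff_add]; exact add_mem (h2 i) (h4 i), map_add _ _ _⟩
  neg_mem' := by
    rintro _ ⟨g, h1, h2, rfl⟩
    exact ⟨-g, by simpa using h1, fun i => by rw [coeff_neg]; exact neg_mem (h2 i), map_neg _ _⟩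

variable {N} {δ : ℕ} (hN : N.Monic) (hδ : ∀ i, N.coeff i ∈ F.V δ)
include hN

include hδ in
theorem red (j : ℕ) : ∀ (k : ℕ) (g : B[X]), g.degree < (N.natDegree + j : ℕ) →
    (∀ i, g.coeff i ∈ F.V k) → AdjoinRoot.mk N g ∈ F.W N (k + j * (δ + c)) := by
  induction j with
  | zero => exact fun k g h1 h2 => ⟨g, by simpa using h1, by simpa using h2, rfl⟩
  | succ j ih =>
    intro k g h1 h2
    have h := ih (k + δ + c) (g - C (g.coeff (N.natDegree + j)) * (X ^ j * N)) ?_ ?_
    · rw [show k + (j + 1) * (δ + c) = k + δ + c + j * (δ + c) by ring]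
      simpa using h
    · rw [degree_lt_iff_coeff_zero] at *
      intro m hm
      rw [coeff_sub, coeff_C_mul, coeff_X_pow_mul', if_pos (by omega)]
      rcases hm.eq_or_lt with rfl | hm
      · simp [hN.coeff_natDegree]
      · rw [h1 m (by omega), coeff_eq_zero_of_natDegree_lt (p := N) (by omega)]
        simp
    · intro i
      rw [coeff_sub, coeff_C_mul, coeff_X_pow_mul']
      refine sub_mem (F.mono (by omega) (h2 i)) (F.mul (h2 _) ?_)
      split_ifs
      exacts [hδ _, zero_mem _]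

theorem cardW [Nontrivial B] (k : ℕ) : Nat.card (F.W N k) = Nat.card (F.V k) ^ N.natDegree := by
  have hd : ∀ v : Fin N.natDegree → B,
      (∑ i : Fin N.natDegree, monomial (i : ℕ) (v i)).degree < N.natDegree := fun v =>
    (degree_lt_iff_coeff_zero _ _).2 fun m hm => by rw [coeff_fin, dif_neg (by omega)]
  let f : (Fin N.natDegree → F.V k) → F.W N k := fun v =>
    ⟨AdjoinRoot.mk N (∑ i : Fin N.natDegree, monomial (i : ℕ) (v i : B)), _, hd _, fun i => by
      rw [coeff_fin]
      split_ifs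
      exacts [(v _).2, zero_mem _], rfl⟩
  rw [← Nat.card_congr (Equiv.ofBijective f ⟨?_, ?_⟩), Nat.card_fun, Nat.card_fin]
  · intro v w h
    have h1 := AdjoinRoot.mk_eq_mk.1 (Subtype.ext_iff.1 h)
    have h2 := sub_eq_zero.1 (by_contra fun c => hN.not_dvd_of_degree_lt c (by
      rw [degree_eq_natDegree hN.ne_zero]
      exact (degree_sub_le _ _).trans_lt (max_lt (hd _) (hd _))) h1)
    funext i
    have h3 := congrArg (coeff · i) h2
    simp only [coeff_fin, dif_pos i.2] at h3
    exact Subtype.ext h3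
  · rintro ⟨_, g, h1, h2, rfl⟩
    refine ⟨fun i => ⟨g.coeff i, h2 i⟩, Subtype.ext (congrArg (AdjoinRoot.mk N) ?_)⟩
    ext m
    rw [coeff_fin]
    split_ifs with h
    · rfl
    · exact ((degree_lt_iff_coeff_zero _ _).1 h1 m (by omega)).symm

end Fil

/-- Adjoining a root of a monic polynomial that splits with distinct roots over `T`. -/
noncomputable def Fil.ext {E B : Type} [Field E] [Fintype E] [CommRing B] [Nontrivial B]
    {ι : E[X] →+* B} {D c : ℕ} {T : Finset E} (F : Fil E B ι D c T) (M : E[X][X]) (e δ : ℕ)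
    (hM : M.Monic) (he : M.natDegree = e) (e0 : 0 < e) (hδ : ∀ i, (M.coeff i).natDegree ≤ δ)
    (hT : ∀ x ∈ T, ∃ S : Finset E, #S = e ∧ ∀ y ∈ S, M.eval₂ (evalRingHom x) y = 0) :
    Fil E (AdjoinRoot (M.map ι)) ((AdjoinRoot.of _).comp ι) (D * e) (c + e * (δ + c)) T where
  V := F.W (M.map ι)
  Pt x P := F.Pt x (P.comp (AdjoinRoot.of _))
  card k := by
    rw [F.cardW (hM.map ι), F.card, hM.natDegree_map, he, ← pow_mul]
    congr 1
    ring
  mono := by
    rintro k l _ h ⟨g, h1, h2, rfl⟩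
    exact ⟨g, h1, fun i => F.mono h (h2 i), rfl⟩
  mul := by
    rintro k l _ _ ⟨g, h1, h2, rfl⟩ ⟨g', h3, h4, rfl⟩
    rw [← map_mul, ← add_assoc]
    refine F.red (hM.map ι) (fun i => ?_) e _ _ ?_ fun i => ?_
    · rw [coeff_map]
      exact F.mono (hδ i) (F.poly _)
    · rw [hM.natDegree_map, he] at *
      refine (degree_mul_le _ _).trans_lt ?_
      push_cast
      exact (add_le_add_right h3.le _).trans_lt (WithBot.add_lt_add_right (by simp) h1)
    · rw [coeff_mul]
      exact sum_mem fun z _ => F.mul (h2 _) (h4 _)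
  poly u := ⟨C (ι u), degree_C_le.trans_lt (by rw [hM.natDegree_map, he]; exact_mod_cast e0),
    fun i => by
      rw [coeff_C]
      split_ifs
      exacts [F.poly u, zero_mem _], rfl⟩
  ovr x P h u := F.ovr x _ h u
  zeros := by
    rintro k _ S ⟨g, h1, h2, rfl⟩ h0 hS h
    have g0 : g ≠ 0 := fun c => h0 (by rw [c, map_zero])
    refine F.zeros k g.leadingCoeff S (h2 _) (leadingCoeff_ne_zero.2 g0) hS fun x hx P hP => ?_
    obtain ⟨U, hU, hr⟩ := hT x (hS hx)
    have e1 : P.comp ι = evalRingHom x := RingHom.ext (F.ovr x P hP)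
    have : g.map P = 0 := by
      refine eq_zero_of_degree_lt_of_eval_finset_eq_zero U (degree_map_le.trans_lt ?_)
        fun y hy => ?_
      · rwa [hM.natDegree_map, he, ← hU] at h1
      · have e2 : (M.map ι).eval₂ P y = 0 := by rw [eval₂_map, e1, hr y hy]
        have := h x hx (AdjoinRoot.lift P y e2) (by rwa [AdjoinRoot.lift_comp_of])
        rwa [AdjoinRoot.lift_mk, eval₂_eq_eval_map] at this
    have h3 := congrArg (coeff · g.natDegree) this
    simpa using h3

theorem inj_step {B K Ω : Type} [CommRing B] [Field K] [Field Ω] [Algebra K Ω] (j : B →+* K)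
    (hj : Function.Injective j) {N : B[X]} (hN : N.Monic) {ψ : B →+* Ω}
    (hψ : ψ = (algebraMap K Ω).comp j) {w : Ω} (hw : N.eval₂ ψ w = 0)
    (hd : N.natDegree ≤ (minpoly K w).natDegree) :
    Function.Injective (AdjoinRoot.lift ψ w hw) := by
  haveI : Nontrivial B := j.domain_nontrivial
  rw [injective_iff_map_eq_zero]
  intro r
  induction r using AdjoinRoot.induction_on with
  | ih g =>
    intro h
    rw [AdjoinRoot.lift_mk] at h
    rw [AdjoinRoot.mk_eq_zero, ← modByMonic_eq_zero_iff_dvd hN]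
    by_contra c
    have h1 : ((g %ₘ N).map j) ≠ 0 := by rwa [Ne, Polynomial.map_eq_zero_iff hj]
    have h2 := minpoly.degree_le_of_ne_zero K w h1 (by
      rw [aeval_def, eval₂_map, ← hψ, modByMonic_eq_sub_mul_div, eval₂_sub, eval₂_mul, hw, h]
      simp)
    have h3 := natDegree_le_natDegree (h2.trans degree_map_le)
    have h4 := natDegree_lt_natDegree c (degree_modByMonic_lt g hN)
    omega

theorem norm_pow_eq {K L : Type} [Field K] [Field L] [Algebra K L] {ν : L} {f : K} {d e : ℕ}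
    (h : ν ^ d = algebraMap K L f ^ e) :
    Algebra.norm K ν ^ d = f ^ (e * Module.finrank K L) := by
  rw [← map_pow, h, map_pow, Algebra.norm_algebraMap, ← pow_mul, mul_comm]

open IntermediateField in
theorem tower_inj {A K Ω : Type} [CommRing A] [IsDomain A] [IsIntegrallyClosed A] [Field K]
    [Algebra A K] [IsFractionRing A K] [Field Ω] [Algebra K Ω] {M : A[X]} (hM : M.Monic)
    (hirr : ∀ g : K[X], g.Monic → g ∣ M.map (algebraMap A K) → 0 < g.natDegree →
      M.natDegree ≤ g.natDegree) {f : A} {d : ℕ} (hd : 0 < d) (cop : d.Coprime M.natDegree)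
    (hf : ∀ (u : A) (k : ℕ), u ^ d = f ^ k → d ∣ k) {ψ : A →+* Ω}
    (hψ : ψ = (algebraMap K Ω).comp (algebraMap A K)) {w η : Ω} (hw : M.eval₂ ψ w = 0)
    {N : (AdjoinRoot M)[X]} (hN : N = X ^ d - C (AdjoinRoot.of M f))
    (hη : N.eval₂ (AdjoinRoot.lift ψ w hw) η = 0) :
    Function.Injective (AdjoinRoot.lift _ η hη) := by
  have a1 : aeval w (M.map (algebraMap A K)) = 0 := by rw [aeval_def, eval₂_map, ← hψ, hw]
  have i1 : IsIntegral K w := ⟨_, hM.map _, a1⟩
  have d1 := hirr _ (minpoly.monic i1) (minpoly.dvd K w a1) (minpoly.natDegree_pos i1)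
  have d2 := natDegree_le_of_dvd (minpoly.dvd K w a1) (hM.map _).ne_zero
  rw [hM.natDegree_map] at d2
  have inj1 := inj_step _ (IsFractionRing.injective A K) hM hψ hw d1
  have h1 : M.eval₂ ((algebraMap K K⟮w⟯).comp (algebraMap A K)) (AdjoinSimple.gen K w) = 0 := by
    apply (algebraMap K⟮w⟯ Ω).injective
    rw [hom_eval₂, map_zero, ← hw, hψ]
    rfl
  have h2 : AdjoinRoot.lift ψ w hw = (algebraMap K⟮w⟯ Ω).comp (AdjoinRoot.lift _ _ h1) := by
    refine AdjoinRoot.ringHom_ext ?_ (by simp)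
    rw [AdjoinRoot.lift_comp_of, RingHom.comp_assoc, AdjoinRoot.lift_comp_of, hψ]
    rfl
  haveI : Nontrivial (AdjoinRoot M) := (AdjoinRoot.lift _ _ h1).domain_nontrivial
  have h3 : η ^ d = algebraMap K⟮w⟯ Ω (algebraMap K K⟮w⟯ (algebraMap A K f)) := by
    rw [hN, eval₂_sub, eval₂_X_pow, eval₂_C, AdjoinRoot.lift_of, sub_eq_zero, hψ] at hη
    exact hη
  have i2 : IsIntegral K⟮w⟯ η := IsIntegral.of_pow hd (h3 ▸ isIntegral_algebraMap)
  refine inj_step (AdjoinRoot.lift _ _ h1) (fun a b h => inj1 (by rw [h2]; simp [h]))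
    (hN ▸ monic_X_pow_sub_C _ hd.ne') h2 hη ?_
  have h4 : AdjoinSimple.gen K⟮w⟯ η ^ d = algebraMap K⟮w⟯ _
      (algebraMap K K⟮w⟯ (algebraMap A K f)) ^ 1 := by
    apply Subtype.ext
    rw [pow_one]
    exact h3
  have h5 := norm_pow_eq (norm_pow_eq h4)
  rw [adjoin.finrank i2, adjoin.finrank i1, le_antisymm d2 d1, one_mul,
    ← map_pow (algebraMap A K)] at h5
  obtain ⟨u, hu⟩ := IsIntegrallyClosed.exists_algebraMap_eq_of_isIntegral_pow (R := A) hd
    (by rw [h5]; exact isIntegral_algebraMap)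
  rw [← hu, ← map_pow] at h5
  rw [hN, natDegree_X_pow_sub_C]
  exact Nat.le_of_dvd (minpoly.natDegree_pos i2)
    (cop.dvd_of_dvd_mul_right (hf u _ (IsFractionRing.injective A K h5)))

/-- Expansion of a polynomial at a point. -/
noncomputable def ps {E : Type} [Field E] (x : E) : E[X] →+* PowerSeries E :=
  coeToPowerSeries.ringHom.comp (taylorAlgHom x).toRingHom

theorem ps_coeff {E : Type} [Field E] (x : E) (u : E[X]) (k : ℕ) :
    PowerSeries.coeff k (ps x u) = (taylor x u).coeff k := by simp [ps]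

theorem ps_od {E : Type} [Field E] (x : E) (u : E[X]) (h : u ≠ 0) :
    ps x u ≠ 0 ∧ od (ps x u) ≤ u.natDegree := by
  have h1 : PowerSeries.coeff u.natDegree (ps x u) ≠ 0 := by simpa [ps_coeff] using h
  exact ⟨fun c => h1 (by simp [c]),
    ENat.toNat_le_of_le_coe (PowerSeries.order_le _ h1)⟩

theorem hensel {E : Type} [Field E] (x y : E) {M : E[X][X]} (hM : M.Monic)
    (h1 : M.eval₂ (evalRingHom x) y = 0) (h2 : M.derivative.eval₂ (evalRingHom x) y ≠ 0) :
    ∃ w, M.eval₂ (ps x) w = 0 := by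
  have e : (PowerSeries.constantCoeff (R := E)).comp (ps x) = evalRingHom x := by
    refine RingHom.ext fun u => ?_
    rw [RingHom.comp_apply, ← PowerSeries.coeff_zero_eq_constantCoeff_apply, ps_coeff]
    simp
  have e2 : ∀ N : E[X][X], PowerSeries.constantCoeff ((N.map (ps x)).eval (PowerSeries.C y))
      = N.eval₂ (evalRingHom x) y := fun N => by
    rw [eval_map, hom_eval₂, e, PowerSeries.constantCoeff_C]
  obtain ⟨w, hw, -⟩ := HenselianRing.is_henselian (I := Ideal.span {PowerSeries.X})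
    (M.map (ps x)) (hM.map _) (PowerSeries.C y)
    (by rw [Ideal.mem_span_singleton, PowerSeries.X_dvd_iff, e2, h1])
    (IsUnit.map _ (by
      rw [PowerSeries.isUnit_iff_constantCoeff, derivative_map, e2]
      exact h2.isUnit))
  exact ⟨w, by rwa [IsRoot, eval_map] at hw⟩

theorem dom_inj {A K S : Type} (Ω : Type) [CommRing A] [IsDomain A] [IsIntegrallyClosed A] [Field K]
    [Algebra A K] [IsFractionRing A K] [CommRing S] [Field Ω] [Algebra S Ω] [IsFractionRing S Ω]
    {φ : A →+* S} (hφ : Function.Injective φ) {M : A[X]} (hM : M.Monic)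
    (hirr : ∀ g : K[X], g.Monic → g ∣ M.map (algebraMap _ _) →
      0 < g.natDegree → M.natDegree ≤ g.natDegree) {f : A} {d : ℕ} (hd : 0 < d)
    (cop : d.Coprime M.natDegree) (hf : ∀ (u : A) (k : ℕ), u ^ d = f ^ k → d ∣ k)
    {w η : S} (hw1 : M.eval₂ φ w = 0)
    {N : (AdjoinRoot M)[X]} (hN : N = X ^ d - C (AdjoinRoot.of M f))
    (hη1 : N.eval₂ (AdjoinRoot.lift _ w hw1) η = 0) :
    Function.Injective (AdjoinRoot.lift _ η hη1) := by
  have hi : Function.Injective ((algebraMap S Ω).comp φ) := (IsFractionRing.injective _ _).comp hφ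
  letI : Algebra K Ω := (IsFractionRing.lift hi).toAlgebra
  set a := algebraMap S Ω with ha
  have hw2 : M.eval₂ (a.comp φ) (a w) = 0 := by
    rw [← hom_eval₂, hw1, map_zero]
  have e1 : AdjoinRoot.lift _ _ hw2 = a.comp (AdjoinRoot.lift _ _ hw1) := by
    refine AdjoinRoot.ringHom_ext ?_ (by simp)
    rw [RingHom.comp_assoc, AdjoinRoot.lift_comp_of, AdjoinRoot.lift_comp_of]
  have hη2 : N.eval₂ (AdjoinRoot.lift _ _ hw2) (a η) = 0 := by
    rw [e1, ← hom_eval₂, hη1, map_zero]
  have inj := tower_inj (K := K) hM hirr hd cop hf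
    (RingHom.ext fun u => (IsFractionRing.lift_algebraMap hi u).symm) hw2 hN hη2
  have e2 : AdjoinRoot.lift _ _ hη2 = a.comp (AdjoinRoot.lift _ _ hη1) := by
    refine AdjoinRoot.ringHom_ext ?_ (by simp)
    rw [RingHom.comp_assoc, AdjoinRoot.lift_comp_of, AdjoinRoot.lift_comp_of, e1]
  exact fun a b h => inj (by rw [e2, RingHom.comp_apply, RingHom.comp_apply, h])

/-- Points that split completely in a Kummer cover of a cover given by `M`. -/
theorem count (e d δ : ℕ) (e0 : 0 < e) (hd : 0 < d) (cop : d.Coprime e) : ∃ C : ℕ,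
    ∀ (E : Type) [Field E] [Fintype E] (p μ n : ℕ) [Fact p.Prime] [CharP E p] (M : E[X][X])
      (f : E[X]) (ζ : E) (T : Finset E), n = p ^ μ → Fintype.card E = n * n → M.Monic →
      M.natDegree = e → (∀ i, (M.coeff i).natDegree ≤ δ) → f.natDegree ≤ δ →
      (∀ g : (FractionRing E[X])[X], g.Monic → g ∣ M.map (algebraMap _ _) → 0 < g.natDegree →
        e ≤ g.natDegree) → (∀ (u : E[X]) (k : ℕ), u ^ d = f ^ k → d ∣ k) → IsPrimitiveRoot ζ d →
      (∀ x ∈ T, ∃ S : Finset E, #S = e ∧ ∀ y ∈ S, M.eval₂ (evalRingHom x) y = 0 ∧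
        M.derivative.eval₂ (evalRingHom x) y ≠ 0) →
      (∀ x ∈ T, ∃ y : E, y ≠ 0 ∧ y ^ d = f.eval x) → e * d * #T ≤ n * n + C * n := by
  refine ⟨1 * e * d * (1 * e * d * ((0 + e * (δ + 0)) + d * (δ + (0 + e * (δ + 0)))) *
    (((0 + e * (δ + 0)) + d * (δ + (0 + e * (δ + 0)))) + 3) +
    2 * ((0 + e * (δ + 0)) + d * (δ + (0 + e * (δ + 0)))) + 3) + 1, ?_⟩
  intro E _ _ p μ n _ _ M f ζ T hn hQ hM he hδ hf hirr hpow hζ hT hy
  classical
  rcases T.eq_empty_or_nonempty with rfl | ⟨x, hx⟩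
  · simp
  haveI : NeZero d := ⟨hd.ne'⟩
  have d0 : (d : E) ≠ 0 := hζ.neZero'.out
  obtain ⟨S, hS, hS'⟩ := hT x hx
  obtain ⟨y, hy1⟩ := card_pos.1 (hS ▸ e0)
  obtain ⟨w, hw⟩ := hensel x y hM (hS' y hy1).1 (hS' y hy1).2
  obtain ⟨z, z0, hz⟩ := hy x hx
  have hM2 : (X ^ d - C f).Monic := monic_X_pow_sub_C _ hd.ne'
  obtain ⟨η, hη⟩ := hensel x z hM2 (by simp [eval₂_sub, hz]) (by
    simp [derivative_X_pow, eval₂_mul, d0, z0])
  have hw1 : (M.map (RingHom.id _)).eval₂ (ps x) w = 0 := by rwa [Polynomial.map_id]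
  haveI : Nontrivial (AdjoinRoot (M.map (RingHom.id _))) :=
    (AdjoinRoot.lift _ _ hw1).domain_nontrivial
  have F1 := (base E T).ext M e δ hM he e0 hδ fun x hx => by
    obtain ⟨S, h1, h2⟩ := hT x hx
    exact ⟨S, h1, fun y hy => (h2 y hy).1⟩
  have F2 := F1.ext (X ^ d - C f) d δ hM2 natDegree_X_pow_sub_C hd (fun i => by
    rw [coeff_sub, coeff_X_pow, coeff_C]
    refine (natDegree_sub_le _ _).trans (max_le ?_ ?_) <;> split_ifs <;> simp [hf]) fun x hx => by
    obtain ⟨y, y0, h⟩ := hy x hx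
    refine ⟨(range d).image (ζ ^ · * y), ?_, fun t ht => ?_⟩
    · rw [card_image_of_injOn, card_range]
      exact fun i hi j hj h => hζ.pow_inj (by simpa using hi) (by simpa using hj)
        (mul_right_cancel₀ y0 h)
    · obtain ⟨i, -, rfl⟩ := mem_image.1 ht
      have : (ζ ^ i) ^ d = 1 := by rw [← pow_mul, mul_comm, pow_mul, hζ.pow_eq_one, one_pow]
      simp [eval₂_sub, mul_pow, this, h]
  have hη1 : ((X ^ d - C f).map ((AdjoinRoot.of (M.map (RingHom.id _))).comp
      (RingHom.id _))).eval₂ (AdjoinRoot.lift _ _ hw1) η = 0 := by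
    rw [eval₂_map, ← RingHom.comp_assoc, AdjoinRoot.lift_comp_of]
    exact hη
  have inj := dom_inj (K := FractionRing E[X]) (FractionRing (PowerSeries E))
    ((injective_iff_map_eq_zero _).2 fun u h => by_contra fun c => (ps_od x u c).1 h)
    (hM.map (RingHom.id _)) (by simpa [he] using hirr) hd
    (by simpa [he] using cop) hpow hw1 (by simp) hη1
  have := F2.bound inj (fun u hu => by
    rw [← RingHom.comp_apply, ← RingHom.comp_assoc, AdjoinRoot.lift_comp_of, ← RingHom.comp_assoc,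
      AdjoinRoot.lift_comp_of]
    exact ps_od x u hu) (by positivity) hn hQ
  exact le_trans (by rw [one_mul]) this

open Classical in
theorem grp {G ι : Type} [CommGroup G] [Fintype G] (H : Subgroup G) (r : G →* ℂ)
    (hr : ∀ h ∈ H, r h = 1) (h1 : r ≠ 1) (U : Finset ι) (v : ι → G) (T : ℝ)
    (hT : ∀ g, (H.index : ℝ) * #{x ∈ U | g / v x ∈ H} ≤ T) :
    ‖∑ x ∈ U, r (v x)‖ ≤ T - #U := by
  have hc : ∀ a : G, #{g | g / a ∈ H} = Nat.card H := fun a => by
    rw [Nat.card_eq_fintype_card, Fintype.card_subtype]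
    exact card_bij (fun g _ => g / a) (by simp) (by simp) fun b hb => ⟨b * a, by simpa using hb, by simp⟩
  have e1 : ∑ g, (#{x ∈ U | g / v x ∈ H} : ℂ) * r g = Nat.card H * ∑ x ∈ U, r (v x) := by
    simp only [card_filter, Nat.cast_sum, sum_mul, mul_sum]
    rw [sum_comm]
    refine sum_congr rfl fun x _ => ?_
    rw [← hc (v x), card_filter, Nat.cast_sum, sum_mul]
    refine sum_congr rfl fun g _ => ?_
    split_ifs with h
    · rw [← div_mul_cancel g (v x), map_mul, hr _ h, one_mul]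
    · simp
  have e2 : ∑ g, (#{x ∈ U | g / v x ∈ H} : ℝ) = Nat.card H * #U := by
    simp only [card_filter, Nat.cast_sum]
    rw [sum_comm, mul_comm, ← nsmul_eq_mul, ← sum_const]
    refine sum_congr rfl fun x _ => ?_
    rw [← hc (v x), card_filter, Nat.cast_sum]
  have e3 : (Nat.card H : ℝ) * H.index = Fintype.card G := by
    rw [← Nat.card_eq_fintype_card, ← H.card_mul_index, Nat.cast_mul]
  have p1 : (0 : ℝ) < Nat.card H := by exact_mod_cast Nat.card_pos
  have p2 : (0 : ℝ) < H.index := by exact_mod_cast Nat.pos_of_ne_zero H.index_ne_zero_of_finite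
  have e4 : (Nat.card H : ℂ) * ∑ x ∈ U, r (v x)
      = -∑ g, ((T / H.index - #{x ∈ U | g / v x ∈ H} : ℝ) : ℂ) * r g := by
    push_cast
    simp only [sub_mul, sum_sub_distrib, ← mul_sum, sum_hom_units_eq_zero r h1, e1]
    simp
  refine le_of_mul_le_mul_left ?_ p1
  have e5 := congrArg norm e4
  rw [norm_mul, Complex.norm_natCast, norm_neg] at e5
  rw [e5]
  refine (norm_sum_le _ _).trans ((sum_le_sum (g := fun g => T / H.index -
    #{x ∈ U | g / v x ∈ H}) fun g _ => ?_).trans (le_of_eq ?_))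
  · rw [norm_mul, Complex.norm_eq_one_of_pow_eq_one (ζ := r g) (n := Fintype.card G)
      (by rw [← map_pow, pow_card_eq_one, map_one]) Fintype.card_ne_zero, mul_one,
      Complex.norm_real, Real.norm_of_nonneg]
    rw [sub_nonneg, le_div_iff₀' p2]
    exact hT g
  · rw [sum_sub_distrib, e2, sum_const, card_univ, nsmul_eq_mul, ← e3]
    field_simp

theorem reduce {ι : Type} (d : ℕ) : ∀ m : ι → ℕ, 0 < d → ∃ (d' l : ℕ) (m' : ι → ℕ), 0 < d' ∧
    d = l * d' ∧ (∀ b, m b = l * m' b) ∧ ∀ k, (∀ b, d' ∣ k * m' b) → d' ∣ k := by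
  induction d using Nat.strong_induction_on with
  | _ d ih =>
    intro m hd
    by_cases c : ∀ k, (∀ b, d ∣ k * m b) → d ∣ k
    · exact ⟨d, 1, m, hd, by simp, by simp, c⟩
    push Not at c
    obtain ⟨k, h1, h2⟩ := c
    have g0 : 0 < k.gcd d := Nat.gcd_pos_of_pos_right _ hd
    obtain ⟨k', l, hc, e1, e2⟩ := Nat.exists_coprime k d
    have h3 : ∀ b, ∃ c, m b = l * c := fun b => by
      have : l * k.gcd d ∣ k' * m b * k.gcd d := by
        rw [← e2, mul_right_comm, ← e1]
        exact h1 b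
      exact hc.symm.dvd_of_dvd_mul_left (Nat.dvd_of_mul_dvd_mul_right g0 this)
    choose m1 hm1 using h3
    obtain ⟨d', l', m', a1, a2, a3, a4⟩ := ih (k.gcd d) (lt_of_le_of_ne (Nat.gcd_le_right _ hd)
      fun c => h2 (c ▸ Nat.gcd_dvd_left k d)) m1 g0
    exact ⟨d', l * l', m', a1, by rw [mul_assoc, ← a2, ← e2], fun b => by
      rw [hm1, a3, mul_assoc], a4⟩

theorem as_monic {R : Type} [CommRing R] [Nontrivial R] {p : ℕ} (hp : 2 ≤ p) (a b : R) :
    (X ^ p - C a * X - C b).Monic ∧ (X ^ p - C a * X - C b).natDegree = p := by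
  have h : (C a * X + C b).degree < (p : WithBot ℕ) :=
    degree_linear_le.trans_lt (by exact_mod_cast hp)
  rw [sub_sub]
  exact ⟨monic_X_pow_sub h, natDegree_eq_of_degree_eq_some (by
    rw [degree_sub_eq_left_of_degree_lt (by rwa [degree_X_pow]), degree_X_pow])⟩

theorem as_sum {K : Type} [Field K] (p : ℕ) [Fact p.Prime] [CharP K p] {a b : K} {g : K[X]}
    (hg : g.Monic) (h : g ∣ X ^ p - C a * X - C b) :
    ∃ t : K, t ^ p - a * t = g.natDegree * b := by
  refine ⟨-g.nextCoeff, ?_⟩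
  set i := algebraMap K (AlgebraicClosure K)
  haveI : CharP (AlgebraicClosure K) p := charP_of_injective_algebraMap i.injective p
  apply i.injective
  have hs := IsAlgClosed.splits (g.map i)
  have h1 := hs.nextCoeff_eq_neg_sum_roots_of_monic (hg.map i)
  rw [nextCoeff_map i.injective] at h1
  have h2 : ∀ y ∈ (g.map i).roots, y ^ p = i a * y + i b := fun y hy => by
    have := (isRoot_of_mem_roots hy).dvd (Polynomial.map_dvd i h)
    simp at this
    linear_combination this
  have h3 := map_multiset_sum (frobenius (AlgebraicClosure K) p) (g.map i).roots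
  rw [Multiset.map_congr rfl (fun y hy => (frobenius_def p y).trans (h2 y hy)), frobenius_def,
    Multiset.sum_map_add, Multiset.sum_map_mul_left] at h3
  have h4 := hs.natDegree_eq_card_roots
  rw [hg.natDegree_map] at h4
  simp only [map_sub, map_pow, map_mul, map_neg, h1, neg_neg, map_natCast, h3, h4]
  simp

theorem as_irr {E : Type} [Field E] (p : ℕ) [Fact p.Prime] [CharP E p] {h G : E[X]} {b : E}
    (h1 : h.eval b ≠ 0) (h2 : G.eval b ≠ 0) (g : (FractionRing E[X])[X]) (hg : g.Monic)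
    (hd : g ∣ (X ^ p - C (((X - C b) * h) ^ (p - 1)) * X - C (((X - C b) * h) ^ (p - 1) * G)).map
      (algebraMap E[X] _)) (h0 : 0 < g.natDegree) : p ≤ g.natDegree := by
  have hp := (Fact.out : p.Prime)
  obtain ⟨q, rfl⟩ : ∃ q, p = q + 2 := ⟨p - 2, by have := hp.two_le; omega⟩
  by_contra c
  set i := algebraMap E[X] (FractionRing E[X])
  have hi : Function.Injective i := IsFractionRing.injective _ _
  haveI : CharP (FractionRing E[X]) (q + 2) := charP_of_injective_algebraMap hi _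
  simp only [Polynomial.map_sub, Polynomial.map_mul, Polynomial.map_pow, map_X, map_C] at hd
  obtain ⟨t, ht⟩ := as_sum (q + 2) hg hd
  obtain ⟨u, rfl⟩ := (IsIntegrallyClosed.isIntegral_iff (R := E[X]) (x := t)).1
    ⟨X ^ (q + 2) - C (((X - C b) * h) ^ (q + 1)) * X -
      C ((g.natDegree : E[X]) * (((X - C b) * h) ^ (q + 1) * G)), (as_monic (by omega) _ _).1, by
      rw [eval₂_sub, eval₂_sub, eval₂_mul, eval₂_X_pow, eval₂_C, eval₂_C, eval₂_X,
        map_mul _ (g.natDegree : E[X]), map_natCast, sub_eq_zero]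
      exact ht⟩
  have e1 : u ^ (q + 2) - ((X - C b) * h) ^ (q + 1) * u
      = (g.natDegree : E[X]) * (((X - C b) * h) ^ (q + 1) * G) := hi (by simpa [i] using ht)
  have e2 := congrArg (eval b) e1
  simp at e2
  obtain ⟨v, rfl⟩ := dvd_iff_isRoot.2 e2
  have e3 : (X - C b) * (v ^ (q + 2) - h ^ (q + 1) * v) 
      = (g.natDegree : E[X]) * (h ^ (q + 1) * G) :=
    mul_left_cancel₀ (pow_ne_zero (q + 1) (X_sub_C_ne_zero b)) (by
      rw [mul_pow, mul_pow] at e1
      linear_combination e1)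
  have e4 := congrArg (eval b) e3
  simp [h1, h2] at e4
  exact c (Nat.le_of_dvd h0 ((CharP.cast_eq_zero_iff E _ _).1 e4))

theorem cover (e d δ : ℕ) (e0 : 0 < e) (hd : 0 < d) (cop : d.Coprime e) : ∃ B : ℕ,
    ∀ (E : Type) [Field E] [Fintype E] (p μ n : ℕ) [Fact p.Prime] [CharP E p] (U : Finset E)
      (f : E[X]) (a : E → E) (w : E →+ E) (r : E →* ℂ) (s : AddChar E ℂ) (ζ : E),
      n = p ^ μ → Fintype.card E = n * n → (∀ x ∈ U, f.eval x ≠ 0) → Nat.card w.ker ≤ e →
      ((∃ u ≠ 0, r u ≠ 1) ∨ s ≠ 1) → (∀ u ≠ 0, r (u ^ d) = 1) → (∀ t, s (w t) = 1) →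
      f.natDegree ≤ δ → (∀ c ≠ 0, ∀ (u : E[X]) (k : ℕ), u ^ d = (C c * f) ^ k → d ∣ k) →
      IsPrimitiveRoot ζ d → (∀ τ, ∃ M : E[X][X], M.Monic ∧ M.natDegree = e ∧
        (∀ i, (M.coeff i).natDegree ≤ δ) ∧ (∀ g : (FractionRing E[X])[X], g.Monic →
          g ∣ M.map (algebraMap _ _) → 0 < g.natDegree → e ≤ g.natDegree) ∧
        ∀ x ∈ U, ∀ t, w t = τ - a x → ∃ S : Finset E, #S = e ∧ ∀ y ∈ S,
          M.eval₂ (evalRingHom x) y = 0 ∧ M.derivative.eval₂ (evalRingHom x) y ≠ 0) →
      ‖∑ x ∈ U, r (f.eval x) * s (a x)‖ ≤ n * n + B * n - #U := by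
  obtain ⟨B, hB⟩ := count e d δ e0 hd cop
  refine ⟨B, ?_⟩
  intro E _ _ p μ n _ _ U f a w r s ζ hn hQ hU hw h1 hr hs hf hpow hζ hM
  classical
  set Φ : Eˣ × Multiplicative E →* Eˣ × Multiplicative E :=
    (powMonoidHom d).prodMap (AddMonoidHom.toMultiplicative w)
  set v : E → Eˣ × Multiplicative E := fun x =>
    (if h : f.eval x = 0 then 1 else Units.mk0 _ h, Multiplicative.ofAdd (a x))
  have hv : ∀ x ∈ U, ((v x).1 : E) = f.eval x := fun x hx => by simp [v, hU x hx]
  have hi : Φ.range.index ≤ e * d := by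
    rw [Subgroup.index_range, MonoidHom.ker_prodMap, Nat.card_congr (Subgroup.prodEquiv _ _).toEquiv,
      Nat.card_prod, mul_comm]
    refine Nat.mul_le_mul hw ?_
    rw [IsCyclic.card_powMonoidHom_ker]
    exact Nat.gcd_le_right _ hd
  have := grp Φ.range ((r.comp (Units.coeHom E)).coprod s.toMonoidHom) ?_ ?_ U v
    (n * n + B * n) fun g => ?_
  · convert this using 2
    exact sum_congr rfl fun x hx => by simp [v, hU x hx]
  · rintro _ ⟨⟨u, t⟩, rfl⟩
    simp [Φ, hr _ u.ne_zero, hs]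
  · intro c
    rcases h1 with ⟨u, h2, h3⟩ | h2
    · exact h3 (by simpa using DFunLike.congr_fun c (Units.mk0 u h2, 1))
    · exact h2 (DFunLike.ext _ _ fun t => by
        simpa using DFunLike.congr_fun c (1, Multiplicative.ofAdd t))
  obtain ⟨M, m1, m2, m3, m4, m5⟩ := hM g.2.toAdd
  norm_cast
  refine (Nat.mul_le_mul_right _ hi).trans (hB E p μ n M (C (g.1⁻¹ : Eˣ).1 * f) ζ _ hn hQ m1 m2 m3
    ((natDegree_C_mul_le _ _).trans hf) m4 (hpow _ (Units.ne_zero _)) hζ (fun x hx => ?_)
    fun x hx => ?_)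
  · obtain ⟨h2, ⟨u, t⟩, h3⟩ := (@mem_filter _ _ (_) _ _).1 hx
    exact m5 x h2 t.toAdd (congrArg (fun z => z.2.toAdd) h3)
  · obtain ⟨h2, ⟨u, t⟩, h3⟩ := (@mem_filter _ _ (_) _ _).1 hx
    have h4 : u ^ d = g.1 / (v x).1 := congrArg Prod.fst h3
    refine ⟨(u⁻¹ : Eˣ), Units.ne_zero _, ?_⟩
    rw [← Units.val_pow_eq_pow_val, inv_pow, h4, eval_mul, eval_C, ← hv x h2, inv_div,
      div_eq_inv_mul, Units.val_mul]

theorem ext_bound (F : Type) [Field F] [Fintype F] (p : ℕ) [Fact p.Prime] [CharP F p] (m : F → ℕ)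
    (ρ : F → F) (χ : F →* ℂ) (ψ : AddChar F ℂ) (hψ : ∀ y, ψ (y ^ p - y) = 1)
    (nd : (∃ b u, u ≠ 0 ∧ χ u ^ m b ≠ 1) ∨ ∃ b, ρ b ≠ 0 ∧ ψ ≠ 1) : ∃ B : ℝ,
    ∀ (E : Type) [Field E] [Fintype E] [Algebra F E], 2 ∣ Module.finrank F E →
      ∀ U : Finset E, (∀ x, x ∈ U ↔ ∀ b, algebraMap F E b ≠ x) →
      ‖∑ x ∈ U, χ (Algebra.norm F (∏ b, (algebraMap F E b - x) ^ m b)) *
        ψ (Algebra.trace F E (∑ b, algebraMap F E (ρ b) / (algebraMap F E b - x)))‖ ≤
        B * √(Fintype.card E) := by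
  classical
  have hp := (Fact.out : p.Prime)
  have q1 := Fintype.one_lt_card (α := F)
  obtain ⟨d, l, m', hd, e1, e2, e3⟩ := reduce (Fintype.card F - 1) m (by omega)
  obtain ⟨ν, -, hν⟩ := FiniteField.card F p
  have cop : d.Coprime p := Nat.Coprime.coprime_dvd_left (Dvd.intro_left _ e1.symm)
    (Nat.Coprime.coprime_dvd_right (hν ▸ dvd_pow_self p ν.ne_zero)
      ((Nat.coprime_self_sub_left q1.le).2 (Nat.coprime_one_left _)))
  obtain ⟨g, hg⟩ := IsCyclic.exists_ofOrder_eq_natCard (α := Fˣ)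
  have hζ : IsPrimitiveRoot ((g : F) ^ l) d := (IsPrimitiveRoot.coe_units_iff.2
    (IsPrimitiveRoot.orderOf g)).pow (orderOf_pos g) (by
      rw [hg, Nat.card_units, Nat.card_eq_fintype_card, e1])
  obtain ⟨B1, h1⟩ := cover 1 d (∑ b, m' b) one_pos hd (Nat.coprime_one_right _)
  obtain ⟨B2, h2⟩ := cover p d (∑ b, m' b + p * Fintype.card F) hp.pos hd cop
  refine ⟨B1 + B2 + Fintype.card F, ?_⟩
  rintro E _ _ _ ⟨k, hk⟩ U hU
  set i := algebraMap F E
  haveI : CharP E p := charP_of_injective_algebraMap i.injective p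
  have hQ : Fintype.card E = p ^ (ν * k) * p ^ (ν * k) := by
    rw [Module.card_eq_pow_finrank (K := F), hk, hν, ← pow_mul, ← pow_add]
    congr 1
    ring
  set n := p ^ (ν * k) with hn
  set f : E[X] := ∏ b, (C (i b) - X) ^ m' b with hf
  have f0 : ∀ b, C (i b) - X ≠ 0 := fun b => sub_ne_zero.2 (X_ne_C _).symm
  have f1 : ∀ x ∈ U, f.eval x ≠ 0 := fun x hx => by
    simpa [hf, eval_prod, prod_eq_zero_iff, sub_eq_zero] using fun b c => ((hU x).1 hx b c).elim
  have f2 : f.natDegree ≤ ∑ b, m' b := (natDegree_prod_le _ _).trans (sum_le_sum fun b _ =>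
    natDegree_pow_le.trans (by rw [← natDegree_neg, neg_sub, natDegree_X_sub_C, mul_one]))
  have f3 : ∀ c ≠ 0, ∀ (u : E[X]) (k : ℕ), u ^ d = (C c * f) ^ k → d ∣ k := fun c hc u k e =>
    e3 k fun b => ⟨u.roots.count (i b), by
      have := congrArg (fun g => g.roots.count (i b)) e
      simp only [roots_pow, roots_C_mul _ hc, Multiset.count_nsmul] at this
      rw [hf, roots_prod _ _ (prod_ne_zero_iff.2 fun b _ => pow_ne_zero _ (f0 b))] at this
      simp only [roots_pow, Multiset.count_nsmul, Multiset.count_bind, ← neg_sub X, roots_neg,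
        roots_X_sub_C, Multiset.count_singleton, i.injective.eq_iff] at this
      simpa using this.symm⟩
  set r : E →* ℂ := (powMonoidHom l).comp (χ.comp (Algebra.norm F))
  have r1 : ∀ u ≠ 0, r (u ^ d) = 1 := fun u hu => by
    simp only [r, MonoidHom.comp_apply, powMonoidHom_apply, map_pow]
    rw [← pow_mul, ← e1, ← map_pow, FiniteField.pow_card_sub_one_eq_one _
      (Algebra.norm_ne_zero_iff.2 hu), map_one]
  have r2 : ∀ x, χ (Algebra.norm F (∏ b, (i b - x) ^ m b)) = r (f.eval x) := fun x => by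
    simp [r, hf, eval_prod, e2, ← prod_pow, ← pow_mul, mul_comm]
  have u1 : (n * n : ℝ) - #U ≤ Fintype.card F := by
    have : univ ⊆ U ∪ univ.image i := fun x _ => by
      by_contra c
      simp [hU] at c
      exact c.1.elim fun b hb => c.2 b hb
    have := (card_le_card this).trans ((card_union_le _ _).trans
      (Nat.add_le_add_left card_image_le _))
    rw [card_univ, card_univ, hQ] at this
    rw [sub_le_iff_le_add']
    exact_mod_cast this
  have n1 : (1 : ℝ) ≤ n := by exact_mod_cast Nat.one_le_pow _ _ hp.pos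
  rw [hQ, Nat.cast_mul, Real.sqrt_mul_self (by positivity)]
  simp only [r2]
  have b1 : (0 : ℝ) ≤ B1 := by positivity
  have b2 : (0 : ℝ) ≤ B2 := by positivity
  have b3 : (0 : ℝ) ≤ Fintype.card F := by positivity
  by_cases c : ∃ b, ρ b ≠ 0 ∧ ψ ≠ 1
  · obtain ⟨b, c1, c2⟩ := c
    have := h2 E p (ν * k) n U f (fun x => ∑ b, i (ρ b) / (i b - x))
      ((frobenius E p).toAddMonoidHom - AddMonoidHom.id E) r
      (ψ.compAddMonoidHom (Algebra.trace F E).toAddMonoidHom) _ hn hQ f1 ?_ (Or.inr ?_) r1 ?_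
      (by omega) f3 (hζ.map_of_injective i.injective) fun τ => ?_
    · refine le_trans this ?_
      nlinarith
    · have h0 : (X ^ p - X : E[X]) ≠ 0 := FiniteField.X_pow_card_sub_X_ne_zero E hp.one_lt
      refine (Nat.card_le_card_of_injective (β := (X ^ p - X : E[X]).roots.toFinset)
        (fun y => ⟨y.1, by simpa [h0, frobenius_def] using AddMonoidHom.mem_ker.1 y.2⟩)
        fun _ _ e => Subtype.ext (congrArg (·.1) e)).trans ?_
      rw [Nat.card_eq_fintype_card, Fintype.card_coe]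
      exact (Multiset.toFinset_card_le _).trans ((card_roots' _).trans
        (FiniteField.X_pow_card_sub_X_natDegree_eq E hp.one_lt).le)
    · intro c
      obtain ⟨t, ht⟩ := DFunLike.ne_iff.1 c2
      obtain ⟨t, rfl⟩ := Algebra.trace_surjective F E t
      exact ht (DFunLike.congr_fun c t)
    · intro t
      have : Algebra.trace F E (t ^ p) = Algebra.trace F E t ^ p := i.injective (by
        rw [map_pow i, FiniteField.algebraMap_trace_eq_sum_pow,
          FiniteField.algebraMap_trace_eq_sum_pow, sum_pow_char]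
        simp [← pow_mul, mul_comm])
      simpa [frobenius_def, this] using hψ (Algebra.trace F E t)
    set h : E[X] := ∏ c ∈ univ.erase b, (X - C (i c)) with hh
    set G : E[X] := C τ * ∏ c, (X - C (i c)) + ∑ c, C (i (ρ c)) * ∏ a ∈ univ.erase c, (X - C (i a))
      with hG
    have g1 : (X - C (i b)) * h = ∏ c, (X - C (i c)) := mul_prod_erase _ _ (mem_univ b)
    have g2 : h.eval (i b) ≠ 0 := by
      simpa [hh, eval_prod, prod_eq_zero_iff, sub_eq_zero] using
        fun c hc e => hc (i.injective e).symm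
    have g3 : G.eval (i b) ≠ 0 := by
      rw [hG, ← g1, eval_add, eval_finset_sum, sum_eq_single b (fun c _ hc => ?_) (by simp)]
      · simpa [c1] using g2
      · rw [eval_mul, eval_prod, prod_eq_zero (mem_erase.2 ⟨hc.symm, mem_univ _⟩) (by simp),
          mul_zero]
    have g4 : ∀ s : Finset F, (∏ c ∈ s, (X - C (i c))).natDegree ≤ Fintype.card F := fun s => by
      simpa [natDegree_prod_of_monic _ _ fun c _ => monic_X_sub_C (i c)] using card_le_univ s
    have g5 : (((X - C (i b)) * h) ^ (p - 1)).natDegree ≤ (p - 1) * Fintype.card F :=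
      natDegree_pow_le.trans (Nat.mul_le_mul_left _ (g1 ▸ g4 _))
    have g6 : G.natDegree ≤ Fintype.card F := natDegree_add_le_of_degree_le
      ((natDegree_C_mul_le _ _).trans (g4 _))
      (natDegree_sum_le_of_forall_le _ _ fun c _ => (natDegree_C_mul_le _ _).trans (g4 _))
    have g7 : (p - 1) * Fintype.card F + Fintype.card F = p * Fintype.card F := by
      rw [← add_one_mul, Nat.sub_add_cancel hp.one_le]
    refine ⟨_, (as_monic hp.two_le _ _).1, (as_monic hp.two_le _ _).2, fun j => ?_,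
      as_irr p g2 g3, fun x hx t ht => ?_⟩
    · have := natDegree_mul_le (p := ((X - C (i b)) * h) ^ (p - 1)) (q := G)
      rw [coeff_sub, coeff_sub]
      refine (natDegree_sub_le _ _).trans (max_le ((natDegree_sub_le _ _).trans (max_le ?_ ?_)) ?_)
      · rw [coeff_X_pow]
        split_ifs <;> simp
      · rw [coeff_C_mul, coeff_X]
        split_ifs <;> simp only [mul_one, mul_zero, natDegree_zero] <;> omega
      · rw [coeff_C]
        split_ifs
        exacts [by omega, by simp]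
    have x0 : ∀ c, x - i c ≠ 0 := fun c => sub_ne_zero.2 ((hU x).1 hx c).symm
    set z := ∏ c, (x - i c) with hz
    have z0 : z ≠ 0 := prod_ne_zero_iff.2 fun c _ => x0 c
    have z1 : G.eval x = z * (t ^ p - t) := by
      have : t ^ p - t = τ - ∑ b, i (ρ b) / (i b - x) := ht
      simp only [this, hG, eval_add, eval_mul, eval_C, eval_prod, eval_sub, eval_X,
        eval_finset_sum, mul_sub, mul_sum, ← hz, sub_eq_add_neg (z * τ), ← sum_neg_distrib, mul_comm τ]
      congr 1
      refine sum_congr rfl fun c _ => ?_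
      rw [hz, ← mul_prod_erase _ _ (mem_univ c), ← neg_sub x]
      field_simp [x0 c]
    refine ⟨(range p).image fun j : ℕ => z * (t + j), ?_, fun y hy => ?_⟩
    · rw [card_image_of_injOn, card_range]
      intro j1 k1 j2 k2 e
      exact CharP.natCast_injOn_Iio E p (by simpa using k1) (by simpa using k2)
        (add_left_cancel (mul_left_cancel₀ z0 e))
    obtain ⟨j, -, rfl⟩ := mem_image.1 hy
    have z2 : z ^ p = z ^ (p - 1) * z := by rw [← pow_succ, Nat.sub_add_cancel hp.pos]
    have z3 : (j : E) ^ p = j := map_natCast (frobenius E p) j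
    constructor
    · simp only [eval₂_sub, eval₂_mul, eval₂_X_pow, eval₂_X, eval₂_C, coe_evalRingHom, eval_mul,
        eval_pow, g1, eval_prod, eval_sub, eval_X, eval_C, ← hz, z1, mul_pow, add_pow_char, z2, z3]
      ring
    · simp only [derivative_sub, derivative_X_pow, derivative_C_mul_X, derivative_C]
      simp [g1, eval_prod, ← hz, z0, -map_prod, -map_pow]
  · have := h1 E p (ν * k) n U f (fun _ => 0) (AddMonoidHom.id E) r 1 _ hn hQ f1 (by simp) (Or.inl ?_) r1
      (by simp) f2 f3 (hζ.map_of_injective i.injective) fun τ => ⟨X, monic_X, natDegree_X, fun j => ?_,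
        fun _ _ _ => id, fun _ _ _ _ => ⟨{0}, by simp⟩⟩
    · refine le_trans (le_of_eq ?_) (this.trans (by nlinarith))
      congr 1
      refine sum_congr rfl fun x _ => ?_
      by_cases c1 : ψ = 1
      · simp [c1]
      · have : ∀ b, ρ b = 0 := fun b => by_contra fun c2 => c ⟨b, c2, c1⟩
        simp [this]
    · obtain ⟨b, u, u0, u1⟩ := nd.resolve_right c
      obtain ⟨u, rfl⟩ := FiniteField.norm_surjective F E u
      refine ⟨u, Algebra.norm_ne_zero_iff.1 u0, fun c => u1 ?_⟩
      rw [e2, pow_mul]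
      exact (congrArg (· ^ m' b) c).trans (one_pow _)
    · rw [coeff_X]
      split_ifs <;> simp

end Pool.Agent.MP_1609a8_nt.H76
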