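import Pool.Agent.MP_1609a8_nt.H76.Step

/-!
L-functions of characters of a polynomial ring over a finite field, and Weil's bound.
-/

set_option autoImplicit false

namespace Pool.Agent.MP_1609a8_nt.H76

open Polynomial Finset

theorem powsum (z : ℂ) (T : Finset ℂ) : z ∉ T → ∀ (c : ℂ → ℂ) (a : ℂ) (B : ℝ), a ≠ 0 →
    (∀ s : ℕ, ‖a * z ^ s + ∑ w ∈ T, c w * w ^ s‖ ≤ B) → ‖z‖ ≤ 1 := by
  induction T using Finset.induction_on with
  | empty =>
    intro _ c a B ha h
    by_contra hz
    obtain ⟨s, hs⟩ := pow_unbounded_of_one_lt (B / ‖a‖) (not_le.1 hz)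
    have := h s
    rw [sum_empty, add_zero, norm_mul, norm_pow] at this
    rw [div_lt_iff₀' (norm_pos_iff.2 ha)] at hs
    linarith
  | insert u T hu ih =>
    intro hz c a B ha h
    rw [mem_insert, not_or] at hz
    refine ih hz.2 (fun w => c w * (w - u)) (a * (z - u)) (B + ‖u‖ * B)
      (mul_ne_zero ha (sub_ne_zero.2 hz.1)) fun s => ?_
    have e : a * (z - u) * z ^ s + ∑ w ∈ T, c w * (w - u) * w ^ s =
        (a * z ^ (s + 1) + ∑ w ∈ insert u T, c w * w ^ (s + 1)) -
        u * (a * z ^ s + ∑ w ∈ insert u T, c w * w ^ s) := by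
      have : ∑ w ∈ T, c w * (w - u) * w ^ s
          = ∑ w ∈ T, c w * w ^ (s + 1) - u * ∑ w ∈ T, c w * w ^ s := by
        rw [mul_sum, ← sum_sub_distrib]
        exact sum_congr rfl fun w _ => by ring
      rw [this, sum_insert hu, sum_insert hu]
      ring
    rw [e]
    refine (norm_sub_le _ _).trans (add_le_add (h _) ?_)
    rw [norm_mul]
    exact mul_le_mul_of_nonneg_left (h _) (norm_nonneg _)

theorem powsum' (ω : Multiset ℂ) (B : ℝ) (h : ∀ s, ‖(ω.map (· ^ (s + 1))).sum‖ ≤ B) :
    ∀ z ∈ ω, ‖z‖ ≤ 1 := by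
  classical
  intro z hz
  rcases eq_or_ne z 0 with rfl | h0
  · simp
  refine powsum z (ω.toFinset.erase z) (by simp) (fun w => ω.count w * w) (ω.count z * z) B
    (mul_ne_zero (by simpa using hz) h0) fun s => ?_
  convert h s using 2
  rw [sum_multiset_map_count, ← add_sum_erase _ _ (Multiset.mem_toFinset.2 hz)]
  congr 1
  · simp [pow_succ']; ring
  · exact sum_congr rfl fun w _ => by simp [pow_succ']; ring

open PowerSeries in
theorem newton (s : Multiset ℂ) (h : (0 : ℂ) ∉ s) :
    d⁄dX ℂ (s.map fun a => (PowerSeries.X - PowerSeries.C a : ℂ⟦X⟧)).prod =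
      -(PowerSeries.mk fun r => (s.map (·⁻¹ ^ (r + 1))).sum) *
        (s.map fun a => (PowerSeries.X - PowerSeries.C a : ℂ⟦X⟧)).prod := by
  induction s using Multiset.induction_on with
  | empty => ext n; simp
  | cons a s ih =>
    rw [Multiset.mem_cons, not_or] at h
    have e1 : (PowerSeries.mk fun r => a⁻¹ ^ (r + 1)) * (PowerSeries.X - PowerSeries.C a) = -1 := by
      ext n
      have := Ne.symm h.1
      cases n <;> simp [mul_sub, coeff_succ_mul_X, pow_succ, PowerSeries.coeff_one, this, mul_comm a⁻¹]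
    have e2 : (PowerSeries.mk fun r => ((a ::ₘ s).map (·⁻¹ ^ (r + 1))).sum) =
        (PowerSeries.mk fun r => a⁻¹ ^ (r + 1)) + mk fun r => (s.map (·⁻¹ ^ (r + 1))).sum := by
      ext n; simp
    rw [e2, Multiset.map_cons, Multiset.prod_cons, Derivation.leibniz, ih h.2]
    simp only [map_sub, PowerSeries.derivative_X, PowerSeries.derivative_C, smul_eq_mul]
    linear_combination (s.map fun a => (PowerSeries.X - PowerSeries.C a : ℂ⟦X⟧)).prod * e1

theorem newton' (a S : ℕ → ℂ) (N : ℕ) (h0 : a 0 ≠ 0) (hN : ∀ n, N ≤ n → a n = 0)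
    (h : ∀ n, a (n + 1) * (n + 1) = ∑ x ∈ antidiagonal n, S x.1 * a x.2) :
    ∃ ω : Multiset ℂ, ω.card ≤ N - 1 ∧ ∀ r, S r = -(ω.map (· ^ (r + 1))).sum := by
  set L : ℂ[X] := PowerSeries.trunc N (PowerSeries.mk a)
  have hL : ∀ n, L.coeff n = a n := fun n => by
    rw [PowerSeries.coeff_trunc]
    split_ifs with c
    · simp
    · exact (hN n (by omega)).symm
  have e0 : (L : PowerSeries ℂ) = PowerSeries.mk a := by ext n; simp [hL]
  have e1 : (L : PowerSeries ℂ) = PowerSeries.C L.leadingCoeff *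
      (L.roots.map fun a => (PowerSeries.X - PowerSeries.C a : PowerSeries ℂ)).prod := by
    conv_lhs => rw [(IsAlgClosed.splits L).eq_prod_roots]
    rw [← coeToPowerSeries.ringHom_apply, map_mul, map_multiset_prod, Multiset.map_map]
    simp
  have h1 : (0 : ℂ) ∉ L.roots := fun c => h0 (by
    rw [← hL, coeff_zero_eq_eval_zero]
    exact isRoot_of_mem_roots c)
  refine ⟨L.roots.map (·⁻¹), ?_, fun r => ?_⟩
  · rw [Multiset.card_map]
    exact (card_roots' L).trans (natDegree_le_iff_coeff_eq_zero.2 fun n hn => by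
      rw [hL, hN n (by omega)])
  have e2 : PowerSeries.derivative ℂ (L : PowerSeries ℂ) = PowerSeries.mk S * L := by
    ext n
    rw [e0, PowerSeries.coeff_derivative, PowerSeries.coeff_mul]
    simpa using h n
  have e3 : PowerSeries.derivative ℂ (L : PowerSeries ℂ) =
      -(PowerSeries.mk fun r => (L.roots.map (·⁻¹ ^ (r + 1))).sum) * L := by
    rw [e1, Derivation.leibniz, newton _ h1]
    simp only [PowerSeries.derivative_C, smul_eq_mul]
    ring
  have e4 : (L : PowerSeries ℂ) ≠ 0 := fun c => h0 (by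
    simpa [e0] using congrArg (PowerSeries.coeff 0) (e0.symm.trans c))
  simpa [Multiset.map_map] using
    congrArg (PowerSeries.coeff r) (mul_right_cancel₀ e4 (e2.symm.trans e3))

section
variable (K : Type) [Field K] [Fintype K]

theorem mon_fin (n : ℕ) : {g : K[X] | g.Monic ∧ g.natDegree = n}.Finite :=
  Finite.of_equiv _ ((monicEquivDegreeLT n).trans (degreeLTEquiv K n).toEquiv).symm

noncomputable def Mon (n : ℕ) : Finset K[X] := (mon_fin K n).toFinset

variable {K}

theorem mem_Mon {n : ℕ} {g : K[X]} : g ∈ Mon K n ↔ g.Monic ∧ g.natDegree = n := by simp [Mon]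

variable {E : Type} [Field E] [Fintype E] [Algebra K E]

variable (K) in
noncomputable def ch (x : E) : K[X] :=
  minpoly K x ^ (Module.finrank K E / (minpoly K x).natDegree)

theorem mp_int (x : E) : IsIntegral K x := Algebra.IsIntegral.isIntegral x

theorem ch_mem (x : E) : ch K x ∈ Mon K (Module.finrank K E) := by
  have h := minpoly.monic (mp_int (K := K) x)
  rw [mem_Mon, ch, h.natDegree_pow]
  exact ⟨h.pow _, Nat.div_mul_cancel (minpoly.degree_dvd (mp_int x))⟩

theorem ch_map (x : E) : (ch K x).map (algebraMap K E) =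
    ∏ i ∈ range (Module.finrank K E), (X - C (x ^ Fintype.card K ^ i)) := by
  have hi := mp_int (K := K) x
  have hm := minpoly.monic hi
  set d := (minpoly K x).natDegree with hd
  have h1 : x ^ Fintype.card K ^ d = x := by
    have := aeval_eq_zero_of_dvd_aeval_eq_zero
      ((minpoly.irreducible hi).natDegree_dvd_iff_dvd_X_pow_card_pow_sub_X.1 dvd_rfl)
      (minpoly.aeval K x)
    simpa [sub_eq_zero] using this
  set G := ∏ i ∈ range d, (X - C (x ^ Fintype.card K ^ i)) with hG
  have h2 : G.map (FiniteField.frobeniusAlgHom K E).toRingHom = G := by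
    apply mul_right_cancel₀ (X_sub_C_ne_zero x)
    have := prod_range_succ' (fun i => X - C (x ^ Fintype.card K ^ i)) d
    rw [prod_range_succ, h1, pow_zero, pow_one] at this
    rw [this, hG, Polynomial.map_prod]
    simp [← pow_mul, pow_succ, mul_comm]
  have h3 : G ∈ lifts (algebraMap K E) := by
    rw [lifts_iff_coeff_lifts]
    intro n
    have := congrArg (coeff · n) h2
    simp only [coeff_map] at this
    refine (splits_X_pow_nat_card_sub_X (K := K)).mem_range_of_isRoot
      (FiniteField.X_pow_card_sub_X_ne_zero _ Finite.one_lt_card) ?_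
    simpa [sub_eq_zero] using this
  obtain ⟨g, g1, g2, g3⟩ := lifts_and_natDegree_eq_and_monic h3
    (monic_prod_of_monic _ _ fun i _ => monic_X_sub_C _)
  have h4 : g = minpoly K x := eq_of_monic_of_dvd_of_natDegree_le hm g3 (minpoly.dvd K x (by
    rw [← eval_map_algebraMap, g1, hG, eval_prod]
    exact prod_eq_zero (mem_range.2 (minpoly.natDegree_pos hi)) (by simp))) (by
    rw [g2, hG, natDegree_prod_of_monic _ _ fun i _ => monic_X_sub_C _]
    simp [hd, -map_pow])
  have h5 : ∀ k, x ^ Fintype.card K ^ (d * k) = x := fun k => by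
    induction k with
    | zero => simp
    | succ k ih => rw [mul_add_one, pow_add, pow_mul, ih, h1]
  have h6 : ∀ k, ∏ i ∈ range (d * k), (X - C (x ^ Fintype.card K ^ i)) = G ^ k := fun k => by
    induction k with
    | zero => simp
    | succ k ih =>
      rw [mul_add_one, prod_range_add, ih, pow_succ]
      simp only [pow_add, pow_mul x, h5, hG]
  rw [ch, Polynomial.map_pow, ← h4, g1, h4, ← h6, Nat.mul_div_cancel' (minpoly.degree_dvd hi)]

open Classical in
theorem fib {P : K[X]} (h1 : Irreducible P) (h2 : P.Monic) (h3 : P.natDegree ∣ Module.finrank K E) :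
    #{x : E | minpoly K x = P} = P.natDegree := by
  have := h1.natDegree_dvd_iff_dvd_X_pow_card_pow_sub_X.1 h3
  rw [← Module.natCard_eq_pow_finrank, Nat.card_eq_fintype_card] at this
  have hs : (P.map (algebraMap K E)).Splits := (FiniteField.isSplittingField_sub E K).splits.of_dvd
    (map_ne_zero (FiniteField.X_pow_card_sub_X_ne_zero K (Fintype.one_lt_card (α := E))))
    (Polynomial.map_dvd _ this)
  rw [← card_rootSet_eq_natDegree (PerfectField.separable_of_irreducible h1) hs]
  refine (Fintype.card_of_subtype _ fun x => ?_).symm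
  rw [mem_filter, mem_rootSet_of_ne h1.ne_zero, and_iff_right (mem_univ _)]
  exact ⟨fun c => c ▸ minpoly.aeval K x, fun c => (minpoly.eq_of_irreducible_of_monic h1 c h2).symm⟩

open UniqueFactorizationMonoid Classical in
theorem ch_dvd {g : K[X]} (g1 : g.Monic) : #{x : E | ch K x ∣ g} =
    ∑ P ∈ (normalizedFactors g).toFinset, if P.natDegree ∣ Module.finrank K E ∧
      P ^ (Module.finrank K E / P.natDegree) ∣ g then P.natDegree else 0 := by
  rw [card_eq_sum_card_fiberwise (f := minpoly K) (t := (normalizedFactors g).toFinset)]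
  · refine sum_congr rfl fun P hP => ?_
    rw [Multiset.mem_toFinset, Polynomial.mem_normalizedFactors_iff g1.ne_zero] at hP
    split_ifs with c
    · rw [← fib (E := E) hP.1 hP.2.1 c.1]
      congr 1
      ext x
      simp only [mem_filter, mem_univ, true_and, and_iff_right_iff_imp]
      rintro rfl
      exact c.2
    · rw [card_eq_zero, filter_eq_empty_iff]
      rintro x hx rfl
      exact c ⟨minpoly.degree_dvd (mp_int x), (mem_filter.1 hx).2⟩
  · intro x hx
    have hi := mp_int (K := K) x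
    rw [mem_coe, Multiset.mem_toFinset, Polynomial.mem_normalizedFactors_iff g1.ne_zero]
    exact ⟨minpoly.irreducible hi, minpoly.monic hi, (dvd_pow_self _ (Nat.div_pos
      (Nat.le_of_dvd Module.finrank_pos (minpoly.degree_dvd hi))
      (minpoly.natDegree_pos hi)).ne').trans (mem_filter.1 hx).2⟩

variable {F : ℕ → Type} [∀ r, Field (F r)] [∀ r, Fintype (F r)] [∀ r, Algebra K (F r)]

open UniqueFactorizationMonoid Classical in
theorem deg_sum (hF : ∀ r, Module.finrank K (F r) = r + 1) {n : ℕ} {g : K[X]} (hg : g ∈ Mon K n) :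
    ∑ r ∈ range n, #{x : F r | ch K x ∣ g} = n := by
  obtain ⟨g1, g2⟩ := mem_Mon.1 hg
  simp only [ch_dvd g1, hF]
  rw [sum_comm]
  have e2 := natDegree_multiset_prod _ (zero_notMem_normalizedFactors g)
  rw [prod_normalizedFactors_eq g1.ne_zero, g1.normalize_eq_self, g2,
    sum_multiset_map_count] at e2
  conv_rhs => rw [e2]
  refine sum_congr rfl fun P hP => ?_
  rw [Multiset.mem_toFinset, Polynomial.mem_normalizedFactors_iff g1.ne_zero] at hP
  have h0 := hP.1.natDegree_pos
  have h1 : ∀ k, P ^ k ∣ g ↔ k ≤ (normalizedFactors g).count P := fun k => by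
    rw [pow_dvd_iff_le_emultiplicity, emultiplicity_eq_count_normalizedFactors hP.1 g1.ne_zero,
      hP.2.1.normalize_eq_self, Nat.cast_le]
  rw [← sum_filter, sum_const]
  congr 1
  rw [← card_range ((normalizedFactors g).count P)]
  refine card_bij' (fun r _ => (r + 1) / P.natDegree - 1) (fun k _ => (k + 1) * P.natDegree - 1)
    (fun r hr => ?_) (fun k hk => ?_) (fun r hr => ?_) fun k hk => ?_
  · rw [mem_filter, h1] at hr
    have : 0 < (r + 1) / P.natDegree := Nat.div_pos (Nat.le_of_dvd r.succ_pos hr.2.1) h0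
    rw [mem_range]
    omega
  · have h2 : 0 < (k + 1) * P.natDegree := by positivity
    have h3 := (h1 (k + 1)).2 (mem_range.1 hk)
    have h4 := natDegree_le_of_dvd h3 g1.ne_zero
    rw [natDegree_pow] at h4
    rw [mem_filter, mem_range, Nat.sub_add_cancel h2, Nat.mul_div_cancel _ h0]
    exact ⟨by omega, dvd_mul_left _ _, h3⟩
  · rw [mem_filter] at hr
    rw [Nat.sub_add_cancel (Nat.div_pos (Nat.le_of_dvd r.succ_pos hr.2.1) h0),
      Nat.div_mul_cancel hr.2.1, Nat.add_sub_cancel]
  · rw [Nat.sub_add_cancel (Nat.mul_pos k.succ_pos h0), Nat.mul_div_cancel _ h0, Nat.succ_sub_one]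

open Classical in
theorem mon_dvd (l : K[X] →* ℂ) {c : K[X]} {i j : ℕ} (hc : c ∈ Mon K i) :
    ∑ g ∈ Mon K (i + j) with c ∣ g, l g = l c * ∑ h ∈ Mon K j, l h := by
  obtain ⟨c1, c2⟩ := mem_Mon.1 hc
  rw [mul_sum]
  refine (sum_bij (fun h _ => c * h) (fun h hh => ?_) (fun _ _ _ _ e => mul_left_cancel₀
    c1.ne_zero e) (fun g hg => ?_) fun h _ => (map_mul _ _ _).symm).symm
  · rw [mem_Mon] at hh
    rw [mem_filter, mem_Mon, c1.natDegree_mul hh.1, c2, hh.2]
    exact ⟨⟨c1.mul hh.1, rfl⟩, dvd_mul_right _ _⟩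
  · rw [mem_filter, mem_Mon] at hg
    obtain ⟨⟨g1, g2⟩, h, rfl⟩ := hg
    have := c1.of_mul_monic_left g1
    rw [c1.natDegree_mul this] at g2
    exact ⟨h, mem_Mon.2 ⟨this, by omega⟩, rfl⟩

theorem mon_zero (l : K[X] →* ℂ) {f g0 : K[X]} (hf : f.Monic) (per : ∀ g h, l (g + f * h) = l g)
    (h0 : IsCoprime f g0) (h1 : l g0 ≠ 1) {n : ℕ} (hn : f.natDegree ≤ n) :
    ∑ g ∈ Mon K n, l g = 0 := by
  have hm : ∀ g, l (g %ₘ f) = l g := fun g => by
    conv_rhs => rw [← modByMonic_add_div g f, per]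
  have h2 : ∀ g ∈ Mon K n, (g0 * g) %ₘ f + f * (g /ₘ f) ∈ Mon K n := fun g hg => by
    obtain ⟨g1, g2⟩ := mem_Mon.1 hg
    have h3 : ((g0 * g) %ₘ f - g %ₘ f).degree < g.degree := by
      refine (degree_sub_le _ _).trans_lt ((max_lt (degree_modByMonic_lt _ hf)
        (degree_modByMonic_lt _ hf)).trans_le ?_)
      rw [degree_eq_natDegree hf.ne_zero, degree_eq_natDegree g1.ne_zero, g2]
      exact_mod_cast hn
    have : (g0 * g) %ₘ f + f * (g /ₘ f) = g + ((g0 * g) %ₘ f - g %ₘ f) := by
      linear_combination modByMonic_add_div g f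
    rw [this, mem_Mon, natDegree_add_eq_left_of_degree_lt h3]
    exact ⟨g1.add_of_left h3, g2⟩
  have h4 : Set.InjOn (fun g => (g0 * g) %ₘ f + f * (g /ₘ f)) (Mon K n) := by
    intro a _ b _ e
    have e1 : f ∣ g0 * (a - b) := ⟨(g0 * a) /ₘ f - (g0 * b) /ₘ f + b /ₘ f - a /ₘ f, by
      linear_combination e - modByMonic_add_div (g0 * a) f + modByMonic_add_div (g0 * b) f⟩
    have e2 := modByMonic_eq_of_dvd_sub hf (h0.dvd_of_dvd_mul_left e1)
    have e3 := modByMonic_eq_of_dvd_sub hf (mul_sub g0 a b ▸ e1)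
    linear_combination e - e3 + e2 - modByMonic_add_div a f + modByMonic_add_div b f
  have h5 : ∑ g ∈ Mon K n, l g0 * l g = ∑ g ∈ Mon K n, l g :=
    sum_nbij _ h2 h4 (Finset.surjOn_of_injOn_of_card_le _ h2 h4 le_rfl) fun g _ => by
      rw [per, hm, map_mul]
  rw [← mul_sum] at h5
  exact (mul_left_eq_self₀.1 h5).resolve_left h1

open Classical in
theorem recur (hF : ∀ r, Module.finrank K (F r) = r + 1) (l : K[X] →* ℂ) (n : ℕ) :
    (∑ g ∈ Mon K (n + 1), l g) * (n + 1) =
      ∑ x ∈ antidiagonal n, (∑ y : F x.1, l (ch K y)) * ∑ g ∈ Mon K x.2, l g := by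
  rw [Nat.sum_antidiagonal_eq_sum_range_succ (fun i j => (∑ y : F i, l (ch K y)) *
    ∑ g ∈ Mon K j, l g), sum_mul]
  trans ∑ g ∈ Mon K (n + 1), ∑ r ∈ range (n + 1), ∑ y : F r, if ch K y ∣ g then l g else 0
  · refine sum_congr rfl fun g hg => ?_
    conv_lhs => rw [← Nat.cast_add_one, ← deg_sum hF hg, Nat.cast_sum, mul_sum]
    refine sum_congr rfl fun r _ => ?_
    rw [← sum_filter, sum_const, nsmul_eq_mul, mul_comm]
  rw [sum_comm]
  refine sum_congr rfl fun r hr => ?_
  rw [sum_comm, sum_mul]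
  refine sum_congr rfl fun y _ => ?_
  rw [← sum_filter, ← mon_dvd l (ch_mem y), hF]
  rw [mem_range] at hr
  congr 3
  omega

theorem lfun (l : K[X] →* ℂ) {f : K[X]} (hf : f.Monic) (per : ∀ g h, l (g + f * h) = l g)
    (hb : ∀ g, ‖l g‖ ≤ 1) (r : ℕ) (hr : 0 < r) (B : ℝ)
    (H : ∀ (E : Type) [Field E] [Fintype E] [Algebra K E], r ∣ Module.finrank K E →
      ‖∑ x : E, l (ch K x)‖ ≤ B * √(Fintype.card E)) :
    ‖∑ t : K, l (X - C t)‖ ≤ (f.natDegree - 1 : ℕ) * √(Fintype.card K) := by
  classical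
  obtain ⟨p, hp⟩ := CharP.exists K
  haveI : Fact p.Prime := ⟨CharP.char_is_prime K p⟩
  obtain ⟨F, _, _, _, hF⟩ : ∃ (F : ℕ → Type) (_ : ∀ r, Field (F r)) (_ : ∀ r, Fintype (F r))
      (_ : ∀ r, Algebra K (F r)), ∀ r, Module.finrank K (F r) = r + 1 :=
    ⟨fun r => FiniteField.Extension K p (r + 1), inferInstance, fun _ => Fintype.ofFinite _,
      inferInstance, fun r => FiniteField.finrank_extension K p (r + 1)⟩
  set R := √(Fintype.card K : ℝ)
  have R1 : 1 < R := Real.lt_sqrt_of_sq_lt (by simpa using Fintype.one_lt_card)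
  have hs : ∀ s, r * (s + 1) - 1 + 1 = r * (s + 1) := fun s =>
    Nat.sub_add_cancel (Nat.mul_pos hr s.succ_pos)
  have hc : ∀ s, (Fintype.card (F (r * (s + 1) - 1)) : ℝ) = (R ^ (r * (s + 1))) ^ 2 := fun s => by
    rw [Module.card_eq_pow_finrank (K := K), hF, hs, ← pow_mul, mul_comm _ 2, pow_mul R 2,
      Real.sq_sqrt (by positivity), Nat.cast_pow]
  have H1 : ∀ s, ‖∑ x : F (r * (s + 1) - 1), l (ch K x)‖ ≤ B * R ^ (r * (s + 1)) := fun s => by
    have := H (F (r * (s + 1) - 1)) (by rw [hF, hs]; exact dvd_mul_right _ _)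
    rwa [hc, Real.sqrt_sq (by positivity)] at this
  by_cases c : ∀ g, IsCoprime f g → l g = 1
  · exfalso
    obtain ⟨s, h1⟩ := pow_unbounded_of_one_lt (|B| + 2 * f.natDegree + 1) R1
    have h2 : R ^ s ≤ R ^ (r * (s + 1)) := pow_le_pow_right₀ R1.le (by nlinarith)
    have h3 : ‖∑ x : F (r * (s + 1) - 1), (1 - l (ch K x))‖ ≤ 2 * f.natDegree := by
      rw [← sum_subset (subset_univ (f.aroots _).toFinset)]
      · refine (norm_sum_le _ _).trans ((sum_le_card_nsmul _ _ 2 fun x _ =>
          (norm_sub_le _ _).trans (by linarith [hb (ch K x), norm_one (α := ℂ)])).trans ?_)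
        rw [nsmul_eq_mul, mul_comm]
        gcongr
        exact (Multiset.toFinset_card_le _).trans ((card_roots' _).trans natDegree_map_le)
      · intro x _ hx
        rw [c, sub_self]
        refine IsCoprime.pow_right ((minpoly.irreducible (mp_int x)).coprime_iff_not_dvd.2
          fun d => hx ?_).symm
        rw [Multiset.mem_toFinset, mem_aroots]
        exact ⟨hf.ne_zero, aeval_eq_zero_of_dvd_aeval_eq_zero d (minpoly.aeval K x)⟩
    rw [sum_sub_distrib, sum_const, card_univ, nsmul_one] at h3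
    have h4 := norm_sub_norm_le (Fintype.card (F (r * (s + 1) - 1)) : ℂ)
      (∑ x : F (r * (s + 1) - 1), l (ch K x))
    rw [Complex.norm_natCast, hc] at h4
    have := H1 s
    have := le_abs_self B
    have := abs_nonneg B
    have : (0 : ℝ) ≤ f.natDegree := by positivity
    nlinarith
  push Not at c
  obtain ⟨g0, g1, g2⟩ := c
  have a0 : Mon K 0 = {1} := by
    ext g
    simp +contextual [mem_Mon, iff_def, Monic.natDegree_eq_zero]
  obtain ⟨ω, w1, w2⟩ := newton' (fun n => ∑ g ∈ Mon K n, l g) (fun r => ∑ x : F r, l (ch K x))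
    f.natDegree (by simp [a0]) (fun n => mon_zero l hf per g1 g2) (recur hF l)
  have w3 := powsum' (ω.map fun w => (w / R) ^ r) B fun s => by
    have := H1 s
    rw [w2, hs, norm_neg, ← div_le_iff₀ (by positivity)] at this
    simpa [Multiset.map_map, ← pow_mul, div_pow, Multiset.sum_map_div, abs_of_pos,
      zero_lt_one.trans R1] using this
  have a1 : ∑ t : K, l (X - C t) = ∑ g ∈ Mon K 1, l g :=
    sum_bij (fun t _ => X - C t) (fun t _ => mem_Mon.2 ⟨monic_X_sub_C t, natDegree_X_sub_C t⟩)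
      (fun _ _ _ _ e => C_injective (sub_right_injective e)) (fun g hg => by
        obtain ⟨h1, h2⟩ := mem_Mon.1 hg
        exact ⟨-g.coeff 0, mem_univ _, by rw [C_neg, sub_neg_eq_add, ← h1.eq_X_add_C h2]⟩)
      fun _ _ => rfl
  have a2 := recur hF l 0
  simp [a0, w2] at a2
  rw [a1, a2, norm_neg]
  refine (norm_multiset_sum_le _).trans ((Multiset.sum_le_card_nsmul _ R fun y hy => ?_).trans ?_)
  · obtain ⟨w, hw, rfl⟩ := Multiset.mem_map.1 hy
    have := w3 _ (Multiset.mem_map_of_mem _ hw)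
    rwa [norm_pow, pow_le_one_iff_of_nonneg (norm_nonneg _) hr.ne', norm_div, Complex.norm_real,
      Real.norm_of_nonneg (by positivity), div_le_one (by positivity)] at this
  · rw [Multiset.card_map, nsmul_eq_mul]
    gcongr

end

theorem chi_le {F : Type} [Field F] [Fintype F] (χ : F →* ℂ) (y : F) : ‖χ y‖ ≤ 1 := by
  rcases eq_or_ne (χ y) 0 with h | h
  · simp [h]
  have h1 : χ y ^ (Fintype.card F - 1) = 1 := mul_left_cancel₀ h (by
    rw [← pow_succ', Nat.sub_add_cancel Fintype.card_pos, ← map_pow, FiniteField.pow_card, mul_one])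
  exact (Complex.norm_eq_one_of_pow_eq_one h1 (Nat.sub_ne_zero_of_lt Fintype.one_lt_card)).le

open Classical in
theorem split_sum {F E : Type} [Fintype F] [Fintype E] [Nonempty E] (i : F → E) {h g : E → ℂ}
    {B : ℝ} (hb : ∀ x, ‖h x‖ ≤ 1) (e : ∀ x, (∀ b, i b ≠ x) → h x = g x)
    (H : ∀ U : Finset E, (∀ x, x ∈ U ↔ ∀ b, i b ≠ x) → ‖∑ x ∈ U, g x‖ ≤ B * √(Fintype.card E)) :
    ‖∑ x, h x‖ ≤ (B + Fintype.card F) * √(Fintype.card E) := by
  rw [← sum_filter_add_sum_filter_not univ fun x => ∀ b, i b ≠ x, add_mul,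
    sum_congr rfl fun x hx => e x (mem_filter.1 hx).2]
  refine (norm_add_le _ _).trans (add_le_add (H _ (by simp)) ((norm_sum_le _ _).trans
    ((sum_le_card_nsmul _ _ 1 fun x _ => hb x).trans ?_)))
  rw [nsmul_one]
  refine le_trans (Nat.cast_le.2 ((card_le_card (t := univ.image i) fun x => by simp).trans
    card_image_le)) (le_mul_of_one_le_right (by positivity) ?_)
  exact Real.one_le_sqrt.2 (by exact_mod_cast Fintype.card_pos)

theorem prod_range_mul {M : Type} [CommMonoid M] (f : ℕ → M) (t s : ℕ) :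
    ∏ i ∈ range (t * s), f i = ∏ k ∈ range s, ∏ i ∈ range t, f (t * k + i) := by
  induction s with
  | zero => simp
  | succ s ih => rw [mul_add_one, prod_range_add, ih, prod_range_succ]

open Classical in
/-- Weil's bound for multiplicative characters of an extension field along a line. -/
theorem weil_gen {K F J : Type} [Field K] [Fintype K] [Field F] [Fintype F] [Algebra K F]
    [Fintype J] (a : J → F) (n : J → ℕ) (χ : F →* ℂ) {f : K[X]} (hf : f.Monic)
    (f0 : ∀ j, aeval (a j) f = 0) (b : F) {u : F} (hu : u ≠ 0)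
    (h1 : χ u ^ (∑ z ∈ univ ×ˢ range (Module.finrank K F) with b ^ Fintype.card K ^ z.2 = a z.1,
      n z.1 * Fintype.card K ^ z.2) ≠ 1) :
    ‖∑ t : K, ∏ j, χ (a j - algebraMap K F t) ^ n j‖ ≤
      (f.natDegree - 1 : ℕ) * √(Fintype.card K) := by
  obtain ⟨p, hp⟩ := CharP.exists K
  haveI : Fact p.Prime := ⟨CharP.char_is_prime K p⟩
  haveI : CharP F p := charP_of_injective_algebraMap (algebraMap K F).injective p
  obtain ⟨ν, -, hν⟩ := FiniteField.card K p
  set q := Fintype.card K
  set t := Module.finrank K F with ht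
  have t0 : 0 < t := Module.finrank_pos
  set m : F → ℕ := fun b => ∑ z ∈ univ ×ˢ range t with b ^ q ^ z.2 = a z.1, n z.1 * q ^ z.2
  obtain ⟨B, hB⟩ := ext_bound F p m 0 χ 1 (by simp) (Or.inl ⟨b, u, hu, h1⟩)
  set l : K[X] →* ℂ := ∏ j, (powMonoidHom (n j)).comp (χ.comp (aeval (a j) : K[X] →ₐ[K] F))
  have hl : ∀ g, l g = ∏ j, χ (aeval (a j) g) ^ n j := fun g => by simp [l]
  have lb : ∀ g, ‖l g‖ ≤ 1 := fun g => by
    rw [hl, norm_prod]
    exact prod_le_one (by simp) fun j _ => by
      rw [norm_pow]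
      exact pow_le_one₀ (norm_nonneg _) (chi_le χ _)
  have := lfun l hf (fun g h => ?_) lb (t * 2) (by omega) (B + Fintype.card F) ?_
  · simpa only [hl, map_sub, aeval_X, aeval_C] using this
  · simp only [hl, map_add, map_mul, f0, zero_mul, add_zero]
  intro E _ _ _ hE
  obtain ⟨φ⟩ := FiniteField.nonempty_algHom_of_finrank_dvd ((dvd_mul_right _ _).trans hE)
  letI := φ.toRingHom.toAlgebra
  haveI : IsScalarTower K F E := .of_algebraMap_eq fun x => (φ.commutes x).symm
  haveI : CharP E p := charP_of_injective_algebraMap (algebraMap K E).injective p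
  have e1 := Module.finrank_mul_finrank K F E
  refine split_sum (algebraMap F E) (fun x => lb _) (fun x _ => ?_)
    (hB E (Nat.dvd_of_mul_dvd_mul_left t0 (e1 ▸ hE)))
  set i := algebraMap F E
  have fr : ∀ (k : ℕ) (y z : E), (y - z) ^ q ^ k = y ^ q ^ k - z ^ q ^ k := fun k y z => by
    rw [hν, ← pow_mul, sub_pow_char_pow]
  have e2 : ∏ b, (i b - x) ^ m b = ∏ j, (∏ k ∈ range t, (i (a j) - x ^ q ^ k)) ^ n j := by
    simp only [m, ← prod_pow_eq_pow_sum, prod_filter]
    rw [prod_comm, prod_product]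
    refine prod_congr rfl fun j _ => ?_
    rw [← prod_pow]
    refine prod_congr rfl fun k _ => ?_
    obtain ⟨b, hb⟩ := (bijective_iterateFrobenius F p (ν * k)).2 (a j)
    rw [prod_eq_single b (fun c _ hc => if_neg fun e => hc ?_) (by simp)]
    · rw [iterateFrobenius_def, pow_mul, ← hν] at hb
      rw [if_pos hb, mul_comm, pow_mul, fr, ← map_pow, hb]
    · refine (bijective_iterateFrobenius F p (ν * k)).1 ?_
      rw [hb, iterateFrobenius_def, pow_mul, ← hν, e]
  simp only [hl, e2, map_prod, map_pow, AddChar.one_apply, mul_one]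
  refine prod_congr rfl fun j _ => ?_
  rw [← map_prod, ← map_prod]
  congr 2
  apply i.injective
  rw [FiniteField.algebraMap_norm_eq_prod_pow, ← aeval_algebraMap_apply, ← eval_map_algebraMap,
    ch_map, eval_prod, ← e1, prod_range_mul]
  refine prod_congr rfl fun k _ => ?_
  have e3 : Fintype.card F ^ k = q ^ (t * k) := by rw [pow_mul, ← Module.card_eq_pow_finrank]
  rw [← prod_pow, Nat.card_eq_fintype_card]
  refine prod_congr rfl fun r _ => ?_
  rw [e3, fr, ← map_pow, ← e3, FiniteField.pow_card_pow, e3, ← pow_mul, ← pow_add, add_comm r]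
  simp [i, q, t]

theorem weil_tame {K F J : Type} [Field K] [Fintype K] [Field F] [Fintype F] [Algebra K F]
    [Fintype J] (a : J → F) (n : J → ℕ) (χ : F →* ℂ) (j0 : J) {u : F} (hu : u ≠ 0)
    (h1 : χ u ^ n j0 ≠ 1) (h2 : ∀ j, ∀ k < Module.finrank K F,
      a j0 ^ Fintype.card K ^ k = a j → j = j0 ∧ k = 0) :
    ‖∑ t : K, ∏ j, χ (a j - algebraMap K F t) ^ n j‖ ≤
      Fintype.card J * Module.finrank K F * √(Fintype.card K) := by
  classical
  refine (weil_gen a n χ (f := ∏ j, minpoly K (a j)) (monic_prod_of_monic _ _ fun j _ =>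
    minpoly.monic (mp_int _)) (fun j => ?_) (a j0) hu ?_).trans
    (mul_le_mul_of_nonneg_right ?_ (by positivity))
  · rw [map_prod, prod_eq_zero (mem_univ j) (minpoly.aeval K _)]
  · rw [sum_eq_single (j0, 0) (fun z hz c => ?_) fun c => ?_]
    · simpa using h1
    · rw [mem_filter, mem_product, mem_range] at hz
      exact (c (Prod.ext (h2 _ _ hz.1.2 hz.2).1 (h2 _ _ hz.1.2 hz.2).2)).elim
    · simp [(Module.finrank_pos (R := K) (M := F)).ne'] at c
  · exact_mod_cast (Nat.sub_le _ _).trans ((natDegree_prod_le _ _).trans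
      (sum_le_card_nsmul _ _ _ fun j _ => minpoly.natDegree_le _))

/-- Weil's bound for mixed character sums with simple poles. -/
theorem weil_wild {K J : Type} [Field K] [Fintype K] [DecidableEq K] [Fintype J] (p : ℕ)
    [Fact p.Prime] [CharP K p] (a : J → K) (ha : Function.Injective a) (n : J → ℕ) (ρ : J → K)
    (χ : K →* ℂ) (ψ : AddChar K ℂ) (hψ : ∀ y, ψ (y ^ p - y) = 1)
    (nd : (∃ j u, u ≠ 0 ∧ χ u ^ n j ≠ 1) ∨ ∃ j, ρ j ≠ 0 ∧ ψ ≠ 1) :
    ‖∑ t with ∀ j, a j ≠ t, (∏ j, χ (a j - t) ^ n j) * ψ (∑ j, ρ j / (a j - t))‖ ≤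
      Fintype.card J * 2 * √(Fintype.card K) := by
  classical
  obtain ⟨B, hB⟩ := ext_bound K p (fun b => ∑ j with a j = b, n j) (fun b => ∑ j with a j = b, ρ j)
    χ ψ hψ (nd.imp (fun ⟨j, h⟩ => ⟨a j, by simpa [ha.eq_iff, sum_filter] using h⟩)
      fun ⟨j, h⟩ => ⟨a j, by simpa [ha.eq_iff, sum_filter] using h⟩)
  set l : K[X] →* ℂ :=
    { toFun := fun g => if ∀ j, g.eval (a j) ≠ 0 then (∏ j, χ (g.eval (a j)) ^ n j) *
        ψ (∑ j, ρ j * ((derivative g).eval (a j) / g.eval (a j))) else 0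
      map_one' := by simp
      map_mul' := fun g h => by
        simp only [eval_mul, mul_ne_zero_iff, forall_and]
        by_cases c1 : ∀ j, g.eval (a j) ≠ 0
        · by_cases c2 : ∀ j, h.eval (a j) ≠ 0
          · rw [if_pos ⟨c1, c2⟩, if_pos c1, if_pos c2, mul_mul_mul_comm, ← prod_mul_distrib,
              ← AddChar.map_add_eq_mul, ← sum_add_distrib]
            congr 1
            · simp [mul_pow]
            · congr 1
              refine sum_congr rfl fun j _ => ?_
              have := c1 j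
              have := c2 j
              simp only [derivative_mul, eval_add, eval_mul]
              field_simp
          · rw [if_neg c2, if_neg fun c => c2 c.2, mul_zero]
        · rw [if_neg c1, if_neg fun c => c1 c.1, zero_mul] } with hl
  have lb : ∀ g, ‖l g‖ ≤ 1 := fun g => by
    simp only [hl, MonoidHom.coe_mk, OneHom.coe_mk]
    split_ifs
    · rw [norm_mul, AddChar.norm_apply, mul_one, norm_prod]
      exact prod_le_one (by simp) fun j _ => by
        rw [norm_pow]
        exact pow_le_one₀ (norm_nonneg _) (chi_le χ _)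
    · simp
  have := lfun l (f := ∏ j, (X - C (a j)) ^ 2) (monic_prod_of_monic _ _ fun j _ =>
    (monic_X_sub_C _).pow _) (fun g h => ?_) lb 2 two_pos (B + Fintype.card K) ?_
  · rw [sum_filter]
    simp only [hl, MonoidHom.coe_mk, OneHom.coe_mk, eval_sub, eval_X, eval_C, sub_ne_zero,
      derivative_X_sub_C, eval_one, mul_one_div] at this
    refine this.trans (mul_le_mul_of_nonneg_right ?_ (by positivity))
    exact_mod_cast (Nat.sub_le _ _).trans ((natDegree_prod_le _ _).trans
      (sum_le_card_nsmul _ _ _ fun j _ => natDegree_pow_le.trans (by simp)))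
  · have : ∀ j, (g + (∏ j, (X - C (a j)) ^ 2) * h).eval (a j) = g.eval (a j) ∧
        (derivative (g + (∏ j, (X - C (a j)) ^ 2) * h)).eval (a j) = (derivative g).eval (a j) :=
      fun j => by simp [← mul_prod_erase _ _ (mem_univ j), derivative_pow, -map_prod]
    simp only [hl, MonoidHom.coe_mk, OneHom.coe_mk, (this _).1, (this _).2]
  intro E _ _ _ hE
  refine split_sum (algebraMap K E) (fun x => lb _) (fun x hx => ?_) (hB E hE)
  set i := algebraMap K E
  have fr : ∀ (k : ℕ) (b : K), (i b - x) ^ Nat.card K ^ k = i b - x ^ Fintype.card K ^ k :=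
    fun k b => by
      have := map_sub (FiniteField.frobeniusAlgHom K E ^ k) (i b) x
      rw [AlgHom.commutes] at this
      simpa [AlgHom.coe_pow, FiniteField.coe_frobeniusAlgHom] using this
  have e1 : ∀ b, (ch K x).eval b = Algebra.norm K (i b - x) := fun b => i.injective (by
    rw [FiniteField.algebraMap_norm_eq_prod_pow, ← eval₂_at_apply, ← eval_map, ch_map, eval_prod]
    simp [fr, -Nat.card_eq_fintype_card])
  have e0 : ∀ b, (ch K x).eval b ≠ 0 := fun b =>
    e1 b ▸ Algebra.norm_ne_zero_iff.2 (sub_ne_zero.2 (hx b))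
  have e2 : ∀ b, (derivative (ch K x)).eval b / (ch K x).eval b =
      Algebra.trace K E (1 / (i b - x)) := fun b => i.injective (by
    rw [FiniteField.algebraMap_trace_eq_sum_pow, map_div₀, ← eval₂_at_apply, ← eval₂_at_apply,
      ← eval_map, ← eval_map, ← derivative_map, ch_map, derivative_prod_finset, eval_finset_sum,
      sum_div]
    refine sum_congr rfl fun k hk => ?_
    have := (map_ne_zero i).2 (e0 b)
    rw [← eval₂_at_apply, ← eval_map, ch_map, ← prod_erase_mul _ _ hk, eval_mul] at this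
    rw [← prod_erase_mul _ _ hk, eval_mul, eval_mul, mul_div_mul_left _ _ (left_ne_zero_of_mul this)]
    simp [fr, -Nat.card_eq_fintype_card, -map_pow])
  simp only [hl, MonoidHom.coe_mk, OneHom.coe_mk, if_pos fun j => e0 (a j), e2]
  simp only [e1, map_prod, map_pow, ← prod_pow_eq_pow_sum, map_sum, sum_div]
  congr 1
  · rw [← prod_fiberwise univ a]
    exact prod_congr rfl fun b _ => prod_congr rfl fun j hj => by rw [(mem_filter.1 hj).2]
  · congr 1
    rw [← sum_fiberwise univ a]
    exact sum_congr rfl fun b _ => sum_congr rfl fun j hj => by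
      rw [(mem_filter.1 hj).2, ← smul_eq_mul, ← map_smul, Algebra.smul_def, mul_one_div]

end Pool.Agent.MP_1609a8_nt.H76
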