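import Pool.Agent.MP_1609a8_nt.H76.Weil
import Pool.Agent.MP_1609a8_nt.Mg.Main

/-!
Pair equidistribution in the classical Sidon sets and the barrier for windows of small spectral
norm.
-/

set_option autoImplicit false

namespace Pool.Agent.MP_1609a8_nt.H76

section

open Polynomial Finset

def Good (m : ℕ) (D : Set ℕ) (s : ℕ) : Prop :=
  ∃ (ι : Type) (T : Finset ι) (y z : ι → ℕ), √m ≤ #T + 3 ∧
    (∀ t ∈ T, ∀ t' ∈ T, y t ≡ y t' [MOD m] → t = t') ∧
    (∀ t ∈ T, y t ∈ D ∧ z t ∈ D ∧ ∃ x ∈ D, y t + z t ≡ x + s [MOD m]) ∧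
    ∀ ζ : ℂ, IsPrimitiveRoot ζ m → ∀ j k : ℕ, ¬(m ∣ j ∧ m ∣ k) →
      ‖∑ t ∈ T, ζ ^ (j * y t + k * z t)‖ ≤ 20 * √√m

theorem exists_chi {L : Type} [Field L] [Fintype L] {θ : L}
    (hθ : IsPrimitiveRoot θ (Fintype.card L - 1)) {ζ : ℂ} (hζ : ζ ^ (Fintype.card L - 1) = 1) :
    ∃ χ : L →* ℂ, χ θ = ζ := by
  classical
  have n0 := Nat.sub_ne_zero_of_lt (Fintype.one_lt_card (α := L))
  choose! lg hlg using prim_surj hθ
  have h : ∀ i, ζ ^ lg (θ ^ i) = ζ ^ i := fun i => pow_eq_pow_of_modEq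
    ((prim_pow_eq hθ n0 _ _).1 (hlg _ (pow_ne_zero _ (hθ.ne_zero n0)))) hζ
  refine ⟨⟨⟨fun x => if x = 0 then 0 else ζ ^ lg x, by simpa using h 0⟩, fun x y => ?_⟩,
    by simpa [hθ.ne_zero n0] using h 1⟩
  by_cases hx : x = 0
  · simp [hx]
  by_cases hy : y = 0
  · simp [hy]
  simp only [hx, hy, mul_ne_zero hx hy, if_false]
  rw [← pow_add, ← h (lg x + lg y), pow_add, hlg x hx, hlg y hy]

theorem sqrt_le {q m : ℕ} (h : q * q ≤ 4 * m) : √(q : ℝ) ≤ 2 * √√m := by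
  have h1 : (q : ℝ) ≤ 2 * √m := by
    rw [← Real.sqrt_mul_self (zero_le_two (α := ℝ)), ← Real.sqrt_mul (by norm_num)]
    exact Real.le_sqrt_of_sq_le (by rw [sq]; norm_num; exact_mod_cast h)
  rw [← Real.sqrt_mul_self (zero_le_two (α := ℝ)), ← Real.sqrt_mul (by norm_num)]
  exact Real.sqrt_le_sqrt (by linarith [Real.sqrt_nonneg (m : ℝ)])

theorem line {K L : Type} [Field K] [Fintype K] [Field L] [Fintype L] [Algebra K L] {θ e : L}
    {m s : ℕ} (φ : L →ₗ[K] K) (ε A B E : K) {α : L}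
    (hθ : IsPrimitiveRoot θ (Fintype.card L - 1)) (hr : Module.finrank K L ≤ 3)
    (m1 : m ∣ Fintype.card L - 1) (m2 : Fintype.card L - 1 ∣ m * (Fintype.card K - 1))
    (m3 : ∀ i j, θ ^ i = θ ^ j → i ≡ j [MOD m])
    (m4 : Fintype.card K * Fintype.card K ≤ 4 * m) (m5 : √m ≤ Fintype.card K + 1) (e0 : e ≠ 0)
    (p1 : φ (-α * e) = ε) (p2 : φ e = 0) (hA : A = φ (α ^ 2 * (e ^ 2 / θ ^ s)) - ε)
    (hB : B = -φ (α * (e ^ 2 / θ ^ s))) (hE : E = φ (e ^ 2 / θ ^ s))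
    (a1 : α ^ Fintype.card K ≠ α)
    (nd : ∀ u v : K, u * A + v * B = 0 → u * B + v * E = 0 → u = 0 ∧ v = 0)
    (cj : ∀ γ : L, γ ^ Fintype.card K ≠ γ → A • 1 + B • (α + γ) + E • (α * γ) = 0 →
      ∀ k < Module.finrank K L, (α ^ Fintype.card K ^ k ≠ γ ∧ γ ^ Fintype.card K ^ k ≠ α) ∧
        (α ^ Fintype.card K ^ k = α → k = 0) ∧ (γ ^ Fintype.card K ^ k = γ → k = 0)) :
    Good m {i | φ (θ ^ i) = ε} s := by
  classical
  set q := Fintype.card K
  set i := algebraMap K L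
  have n0 := Nat.sub_ne_zero_of_lt (Fintype.one_lt_card (α := L))
  have θ0 := hθ.ne_zero n0
  have fr : ∀ t : K, i t ^ q = i t := fun t => by rw [← map_pow, FiniteField.pow_card]
  have fs : ∀ x y : L, (x - y) ^ q = x ^ q - y ^ q := map_sub (FiniteField.frobeniusAlgHom K L)
  have ind : ∀ {x : L}, x ^ q ≠ x → ∀ u v : K, i u + i v * x = 0 → u = 0 ∧ v = 0 := by
    intro x hx u v h
    have v0 : v = 0 := by_contra fun c => hx (by
      have : x = i (-u / v) := by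
        rw [map_div₀, eq_div_iff ((map_ne_zero i).2 c), map_neg]
        linear_combination h
      rw [this, fr])
    exact ⟨by simpa [v0] using h, v0⟩
  have nk : ∀ {x : L}, x ^ q ≠ x → ∀ t, x - i t ≠ 0 := fun hx t c =>
    hx (by rw [sub_eq_zero.1 c, fr])
  have b0 : i B + i E * α ≠ 0 := fun c => one_ne_zero (nd 0 1 (by simp [(ind a1 _ _ c).1])
    (by simp [(ind a1 _ _ c).2])).2
  set γ := -(i A + i B * α) / (i B + i E * α) with hγ
  have g0 : (i B + i E * α) * γ = -(i A + i B * α) := mul_div_cancel₀ _ b0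
  have g1 : γ ^ q ≠ γ := fun c => by
    obtain ⟨v, hv⟩ := (splits_X_pow_nat_card_sub_X (K := K)).mem_range_of_isRoot (i := i) (x := γ)
      (FiniteField.X_pow_card_sub_X_ne_zero _ Finite.one_lt_card) (by simpa [sub_eq_zero] using c)
    have := ind a1 (1 * A + v * B) (1 * B + v * E) (by
      simp only [map_add, map_mul, map_one, hv]
      linear_combination g0)
    exact one_ne_zero (nd 1 v this.1 this.2).1
  have g2 := cj γ g1 (by
    simp only [Algebra.smul_def]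
    linear_combination g0)
  obtain ⟨β, κ, g, κ0, hg⟩ : ∃ (β κ : K) (g : ℕ), κ ≠ 0 ∧ ∀ t ≠ β,
      (B + E * t) * (κ * (β - t) ^ g) = 1 := by
    by_cases c : E = 0
    · have : B ≠ 0 := fun d => one_ne_zero (nd 0 1 (by simp [d]) (by simp [c])).2
      exact ⟨0, B⁻¹, 0, inv_ne_zero this, fun t _ => by simp [c, this]⟩
    refine ⟨-B / E, -E⁻¹, q - 2, by simpa using c, fun t ht => ?_⟩
    rw [← FiniteField.pow_card_sub_one_eq_one _ (sub_ne_zero.2 ht.symm),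
      show Fintype.card K - 1 = q - 2 + 1 by have := Fintype.one_lt_card (α := K); omega, pow_succ]
    field_simp
    ring
  choose! lg hlg using prim_surj hθ
  set Y : K → L := fun t => -e * (α - i t) with hY
  set Z : K → L := fun t => e * (i B + i E * α) * i κ * (γ - i t) * (i β - i t) ^ g with hZ
  have Y0 : ∀ t, Y t ≠ 0 := fun t => mul_ne_zero (neg_ne_zero.2 e0) (nk a1 t)
  have pY : ∀ t, φ (Y t) = ε := fun t => by
    rw [show Y t = -α * e + t • e by simp only [hY, Algebra.smul_def]; ring, map_add, map_smul, p1,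
      p2, smul_zero, add_zero]
  have ZY : ∀ t ≠ β, Z t = Y (-(A + B * t) * (κ * (β - t) ^ g)) := fun t ht => by
    have := congrArg i (hg t ht)
    simp only [hY, hZ, map_mul, map_neg, map_add, map_pow, map_sub, map_one] at this ⊢
    linear_combination e * i κ * (i β - i t) ^ g * g0 - e * α * this
  refine ⟨K, univ.erase β, fun t => lg (Y t), fun t => lg (Z t), ?_, fun t _ t' _ h => ?_,
    fun t ht => ?_, fun ζ hζ j k hjk => ?_⟩
  · rw [card_erase_of_mem (mem_univ _), card_univ, Nat.cast_sub Fintype.card_pos]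
    push_cast
    linarith
  · have h1 := (prim_pow_eq hθ n0 _ _).2 ((h.mul_right' (q - 1)).of_dvd m2)
    rw [pow_mul, pow_mul, hlg _ (Y0 _), hlg _ (Y0 _), mul_pow, mul_pow,
      mul_right_inj' (pow_ne_zero _ (neg_ne_zero.2 e0))] at h1
    have h2 : ∀ x : L, x ^ q = x ^ (q - 1) * x := fun x => by
      rw [← pow_succ, Nat.sub_add_cancel Fintype.card_pos]
    have h3 := h2 (α - i t)
    have h4 := h2 (α - i t')
    rw [fs, fr] at h3 h4
    refine i.injective (sub_eq_zero.1 ((mul_eq_zero.1 ?_).resolve_left (sub_ne_zero.2 a1)))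
    linear_combination (α - i t') * h3 - (α - i t) * h4 + (α - i t) * (α - i t') * h1
  · have ht := (mem_erase.1 ht).1
    have Z0 : Z t ≠ 0 := ZY t ht ▸ Y0 _
    have x0 := div_ne_zero (mul_ne_zero (Y0 t) Z0) (pow_ne_zero s θ0)
    simp only [Set.mem_setOf_eq, hlg _ (Y0 _), hlg _ Z0]
    refine ⟨pY t, ZY t ht ▸ pY _, lg (Y t * Z t / θ ^ s), ?_, m3 _ _ ?_⟩
    · have := hg t ht
      rw [hlg _ x0, ZY t ht]
      set t' := -(A + B * t) * (κ * (β - t) ^ g) with ht'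
      rw [show Y t * Y t' / θ ^ s = α ^ 2 * (e ^ 2 / θ ^ s) - (t + t') • (α * (e ^ 2 / θ ^ s)) +
        (t * t') • (e ^ 2 / θ ^ s) by simp only [hY, Algebra.smul_def, map_add, map_mul]; ring,
        map_add, map_sub, map_smul, map_smul, ← hE, smul_eq_mul, smul_eq_mul]
      linear_combination -hA - (t + t') * hB + (B + E * t) * ht' - (A + B * t) * this
    · rw [pow_add, pow_add, hlg _ x0, hlg _ (Y0 _), hlg _ Z0, div_mul_cancel₀ _ (pow_ne_zero s θ0)]
  obtain ⟨χ, hχ⟩ := exists_chi hθ ((hζ.pow_eq_one_iff_dvd _).2 m1)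
  have c1 : ∀ x ≠ 0, ζ ^ lg x = χ x := fun x hx => by rw [← hχ, ← map_pow, hlg x hx]
  have cb : ∀ (x : L) (n : ℕ), ‖χ x ^ n‖ ≤ 1 := fun x n => by
    rw [norm_pow]
    exact pow_le_one₀ (norm_nonneg _) (chi_le χ _)
  have cK : ∀ {x : L}, x ^ q ≠ x → ∀ k, x ^ q ^ k ≠ i β := fun {x} hx k c => nk hx β (by
    have := map_sub (FiniteField.frobeniusAlgHom K L ^ k) x (i β)
    rw [AlgHom.commutes] at this
    refine pow_eq_zero_iff (n := q ^ k) (pow_ne_zero _ Fintype.card_ne_zero) |>.1 ?_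
    simpa [AlgHom.coe_pow, FiniteField.coe_frobeniusAlgHom, c, q, i] using this)
  have W : ‖∑ t : K, ∏ l, χ (![α, γ, i β] l - i t) ^ ![j, k, g * k] l‖ ≤ 9 * √q := by
    have h9 : (Fintype.card (Fin 3) * Module.finrank K L : ℝ) * √q ≤ 9 * √q := by
      gcongr
      exact_mod_cast (Nat.mul_le_mul_left _ hr).trans (by simp)
    rcases not_and_or.1 hjk with c | c
    · refine (weil_tame _ _ χ 0 θ0 (by simpa [hχ, hζ.pow_eq_one_iff_dvd] using c)
        fun l r hr h => ?_).trans h9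
      fin_cases l
      exacts [⟨rfl, (g2 r hr).2.1 h⟩, ((g2 r hr).1.1 h).elim, (cK a1 r h).elim]
    · refine (weil_tame _ _ χ 1 θ0 (by simpa [hχ, hζ.pow_eq_one_iff_dvd] using c)
        fun l r hr h => ?_).trans h9
      fin_cases l
      exacts [((g2 r hr).1.2 h).elim, ⟨rfl, (g2 r hr).2.2 h⟩, (cK g1 r h).elim]
  rw [sum_congr rfl (g := fun t => χ (-e) ^ j * χ (e * (i B + i E * α) * i κ) ^ k *
    ∏ l, χ (![α, γ, i β] l - i t) ^ ![j, k, g * k] l) fun t ht => ?_, ← mul_sum, norm_mul,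
    norm_mul, sum_erase_eq_sub (mem_univ _)]
  · have q1 : 1 ≤ √(q : ℝ) := Real.one_le_sqrt.2 (by exact_mod_cast Fintype.card_pos)
    refine (mul_le_of_le_one_left (norm_nonneg _) (mul_le_one₀ (cb _ _) (norm_nonneg _)
      (cb _ _))).trans ((norm_sub_le _ _).trans ?_)
    have : ‖∏ l, χ (![α, γ, i β] l - i β) ^ ![j, k, g * k] l‖ ≤ 1 := by
      rw [norm_prod]
      exact prod_le_one (by simp) fun _ _ => cb _ _
    linarith [sqrt_le m4]
  · rw [pow_add, mul_comm j, mul_comm k, pow_mul, pow_mul, c1 _ (Y0 _),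
      c1 _ (ZY t (mem_erase.1 ht).1 ▸ Y0 _)]
    simp only [hY, hZ, map_mul χ, map_pow, Fin.prod_univ_three, Matrix.cons_val, mul_pow, pow_mul]
    ring

theorem singer_good {m : ℕ} {D : Set ℕ} (h : IsSinger m D) {s s' : ℕ} (hs : s ∉ D) (hs' : s' ∉ D)
    (ne : ¬s ≡ s' [MOD m]) : Good m D s ∨ Good m D s' := by
  obtain ⟨K, L, _, _, _, _, θ, φ, hr, hθ, hφ, hm, rfl⟩ := h
  have : Module.Finite K L := Module.finite_of_finrank_pos (by omega)
  have : Finite L := Module.finite_of_finite K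
  let : Fintype L := Fintype.ofFinite L
  set q := Fintype.card K
  set i := algebraMap K L
  have hc : Fintype.card L = q ^ 3 := by rw [Module.card_eq_pow_finrank (K := K), hr]
  have q1 : 1 < q := Fintype.one_lt_card
  have hn : Fintype.card L - 1 = m * (q - 1) := by
    obtain ⟨e, he⟩ : ∃ e, q = e + 1 := ⟨q - 1, by omega⟩
    rw [hc, hm, he]
    apply Nat.sub_eq_of_eq_add
    simp only [Nat.add_sub_cancel]
    ring
  rw [← hc] at hθ
  have n0 := Nat.sub_ne_zero_of_lt (Fintype.one_lt_card (α := L))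
  have θ0 := fun n => pow_ne_zero n (hθ.ne_zero n0)
  have hK : Module.finrank K (LinearMap.ker φ) = 2 := by
    have := φ.finrank_range_add_finrank_ker
    have := (LinearMap.range φ).finrank_le
    have := ker_lt φ hφ
    simp only [Module.finrank_self] at *
    omega
  obtain ⟨b⟩ : Nonempty (Module.Basis (Fin 2) K (LinearMap.ker φ)) :=
    ⟨Module.finBasisOfFinrankEq _ _ hK⟩
  have e0 : (b 1 : L) ≠ 0 := fun c => b.ne_zero 1 (Subtype.ext c)
  set e := (b 1 : L)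
  set α := -(b 0 : L) / e
  have p1 : -α * e = b 0 := by simp [α, neg_div, e0]
  have sp : ∀ x, φ x = 0 → ∃ u v : K, x = (i u * α + i v) * e := fun x hx => by
    have := congrArg Subtype.val (b.sum_repr ⟨x, hx⟩)
    refine ⟨-b.repr ⟨x, hx⟩ 0, b.repr ⟨x, hx⟩ 1, ?_⟩
    simp only [Fin.sum_univ_two, Submodule.coe_add, Submodule.coe_smul, Algebra.smul_def] at this
    rw [map_neg]
    linear_combination -this - i (b.repr ⟨x, hx⟩ 0) * p1
  have a0 : α ∉ i.range := fun ⟨t, ht⟩ => by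
    have := LinearIndependent.pair_iff.1 (show LinearIndependent K ![b 0, b 1] by
      convert b.linearIndependent
      ext1 j
      fin_cases j <;> rfl) 1 t (Subtype.ext (by
        simp only [Submodule.coe_add, Submodule.coe_smul, Algebra.smul_def, map_one, Submodule.coe_zero]
        linear_combination -p1 + e * ht))
    exact one_ne_zero this.1
  have a1 : α ^ q ≠ α := fun c => a0 ((splits_X_pow_nat_card_sub_X (K := K)).mem_range_of_isRoot
    (FiniteField.X_pow_card_sub_X_ne_zero _ Finite.one_lt_card) (by simpa [sub_eq_zero] using c))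
  have quad : ∀ a b c : K, i a * α ^ 2 + i b * α + i c = 0 → a = 0 ∧ b = 0 ∧ c = 0 := by
    intro a b c h
    have p0 : (C a * X ^ 2 + C b * X + C c : K[X]) = 0 := by_contra fun p0 => by
      have d1 := (natDegree_le_of_dvd (minpoly.dvd K α (by simpa using h)) p0).trans
        natDegree_quadratic_le
      have d2 := minpoly.degree_dvd (mp_int (K := K) α)
      rw [hr, Nat.dvd_prime Nat.prime_three] at d2
      exact a0 (minpoly.natDegree_eq_one_iff.1 (by omega))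
    have c0 := congrArg (coeff · 0) p0
    have c1 := congrArg (coeff · 1) p0
    have c2 := congrArg (coeff · 2) p0
    simp [coeff_X, coeff_C] at c0 c1 c2
    exact ⟨c2, c1, c0⟩
  have H : ∀ l, φ (l * e) = 0 → φ (l * α * e) = 0 → ∃ κ, l = i κ := fun l h1 h2 => by
    obtain ⟨u, v, h1⟩ := sp _ h1
    obtain ⟨u', v', h2⟩ := sp _ h2
    have h1 := mul_right_cancel₀ e0 h1
    have := quad u (v - u') (-v') (by
      rw [map_sub, map_neg]
      linear_combination mul_right_cancel₀ e0 h2 - α * h1)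
    exact ⟨v, by simpa [this.1] using h1⟩
  have nd : ∀ c ≠ 0, φ c ≠ 0 → ∀ u v : K, u * (φ (α ^ 2 * (e ^ 2 / c)) - 0) +
      v * -φ (α * (e ^ 2 / c)) = 0 → u * -φ (α * (e ^ 2 / c)) + v * φ (e ^ 2 / c) = 0 →
      u = 0 ∧ v = 0 := fun c c0 c1 u v h1 h2 => by
    obtain ⟨κ, hκ⟩ := H ((v • 1 - u • α) * e / c) (by
      rw [← h2, show (v • 1 - u • α) * e / c * e = v • (e ^ 2 / c) - u • (α * (e ^ 2 / c)) by
        simp only [Algebra.smul_def]; ring]
      simp only [map_sub, map_smul, smul_eq_mul]; ring) (by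
      rw [← neg_eq_zero.2 h1, show (v • 1 - u • α) * e / c * α * e = v • (α * (e ^ 2 / c)) -
        u • (α ^ 2 * (e ^ 2 / c)) by simp only [Algebra.smul_def]; ring]
      simp only [map_sub, map_smul, smul_eq_mul]; ring)
    rw [div_eq_iff c0] at hκ
    have k0 : κ = 0 := by
      have : κ • c = v • e + u • (b 0 : L) := by
        simp only [Algebra.smul_def, mul_one] at hκ ⊢
        linear_combination -hκ + i u * p1
      have := congrArg φ this
      rw [map_add, map_smul, map_smul, map_smul, (b 0).2, (b 1).2] at this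
      simpa [c1] using this
    have := quad 0 (-u) v (by
      simp only [Algebra.smul_def, k0, map_zero, zero_mul, mul_eq_zero, e0, or_false, map_neg] at hκ ⊢
      linear_combination hκ)
    exact ⟨neg_eq_zero.1 this.2.1, this.2.2⟩
  have F3 : ∀ x : L, ((x ^ q) ^ q) ^ q = x := fun x => by
    rw [← pow_mul, ← pow_mul, ← pow_three, ← hc, FiniteField.pow_card]
  have key : ∀ s, φ (θ ^ s) ≠ 0 → ¬(φ (α ^ 2 * (e ^ 2 / θ ^ s)) = 0 ∧ φ (e ^ 2 / θ ^ s) = 0) →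
      Good m {i | φ (θ ^ i) = 0} s := fun s h1 h2 => by
    refine line φ 0 _ _ _ hθ hr.le (hn ▸ dvd_mul_right _ _) hn.dvd
      (fun a b c => ((prim_pow_eq hθ n0 _ _).1 c).of_dvd (hn ▸ dvd_mul_right _ _)) (by nlinarith)
      (Real.sqrt_le_iff.2 ⟨by positivity, by rw [hm]; push_cast; nlinarith⟩) e0 (p1 ▸ (b 0).2) (b 1).2
      rfl rfl rfl a1 (nd _ (θ0 s) h1) fun γ g1 g2 => ?_
    have n1 := nd _ (θ0 s) h1
    generalize φ (e ^ 2 / θ ^ s) = E at *
    generalize -φ (α * (e ^ 2 / θ ^ s)) = B at *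
    generalize φ (α ^ 2 * (e ^ 2 / θ ^ s)) = A at *
    simp only [Algebra.smul_def, sub_zero, mul_one] at g2 n1
    have f2 : ∀ x : L, x ^ q ≠ x → (x ^ q) ^ q ≠ x := fun x hx c => hx (by
      conv_lhs => rw [← c, F3])
    have f1 : ∀ x y : L, x ^ q ≠ x → y ^ q ≠ y → i A + i B * (x + y) + i E * (x * y) = 0 →
        x ^ q ≠ y := by
      rintro x _ hx hy h rfl
      have h' := congrArg (FiniteField.frobeniusAlgHom K L) h
      simp only [map_add, map_mul, AlgHom.commutes, map_zero, i,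
        FiniteField.coe_frobeniusAlgHom] at h'
      have h3 : i B + i E * x ^ q = 0 := (mul_eq_zero.1 (by linear_combination h' - h)).resolve_right
        (sub_ne_zero.2 (f2 x hx))
      have h4 := congrArg (FiniteField.frobeniusAlgHom K L) h3
      simp only [map_add, map_mul, AlgHom.commutes, map_zero, i,
        FiniteField.coe_frobeniusAlgHom] at h4
      have h5 : E = 0 := (map_eq_zero i).1 ((mul_eq_zero.1 (by linear_combination h4 - h3)).resolve_right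
        (sub_ne_zero.2 hy))
      exact one_ne_zero (n1 0 1 (by simpa [h5] using h3) (by simp [h5])).2
    have f0 : α ≠ γ := by
      rintro rfl
      have := quad E (B + B) A (by rw [map_add]; linear_combination g2)
      exact h2 ⟨this.2.2, this.1⟩
    have f3 := f1 α γ a1 g1 g2
    have f4 := f1 γ α g1 a1 (by linear_combination g2)
    intro k hk
    rw [hr] at hk
    interval_cases k
    · simp [f0, f0.symm]
    · simp [f3, f4, a1, g1, q]
    · simp only [sq, pow_mul]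
      exact ⟨⟨fun c => f4 (by rw [← c, F3]), fun c => f3 (by rw [← c, F3])⟩,
        fun c => (f2 _ a1 c).elim, fun c => (f2 _ g1 c).elim⟩
  by_contra c
  rw [not_or] at c
  obtain ⟨h1, h2⟩ := not_not.1 (mt (key s hs) c.1)
  obtain ⟨h3, h4⟩ := not_not.1 (mt (key s' hs') c.2)
  have b0 : φ (α * (e ^ 2 / θ ^ s)) ≠ 0 := fun d =>
    one_ne_zero (nd _ (θ0 s) hs 1 0 (by simp [h1]) (by simp [d])).1
  set v := φ (α * (e ^ 2 / θ ^ s')) • (e / θ ^ s) - φ (α * (e ^ 2 / θ ^ s)) • (e / θ ^ s') with hv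
  have v1 : ∀ x, φ (v * x * e) = φ (α * (e ^ 2 / θ ^ s')) * φ (x * (e ^ 2 / θ ^ s)) -
      φ (α * (e ^ 2 / θ ^ s)) * φ (x * (e ^ 2 / θ ^ s')) := fun x => by
    rw [← smul_eq_mul (φ _), ← smul_eq_mul (φ _), ← map_smul, ← map_smul, ← map_sub, hv]
    simp only [Algebra.smul_def]
    congr 1
    ring
  obtain ⟨k1, hk1⟩ := H v (by simpa [h2, h4] using v1 1) (by rw [v1]; ring)
  obtain ⟨k2, hk2⟩ := H (v * α) (by rw [v1]; ring) (by rw [mul_assoc v, ← sq, v1, h1, h3]; ring)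
  have k0 := (quad 0 k1 (-k2) (by simp [← hk1, ← hk2])).2.1
  rw [hk1, k0, map_zero, eq_comm, sub_eq_zero] at hv
  have b1 : φ (α * (e ^ 2 / θ ^ s')) ≠ 0 := fun d => by
    rw [d, zero_smul, eq_comm, smul_eq_zero] at hv
    exact hv.elim b0 (div_ne_zero e0 (θ0 _))
  have := congrArg (· ^ (q - 1)) hv
  simp only [_root_.smul_pow, FiniteField.pow_card_sub_one_eq_one _ b0,
    FiniteField.pow_card_sub_one_eq_one _ b1, one_smul, q, div_pow] at this
  rw [div_eq_div_iff (pow_ne_zero _ (θ0 _)) (pow_ne_zero _ (θ0 _)),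
    mul_right_inj' (pow_ne_zero _ e0), ← pow_mul, ← pow_mul, prim_pow_eq hθ n0, hn] at this
  exact ne (this.mul_right_cancel' (by omega)).symm

theorem bose_good {m : ℕ} {D : Set ℕ} (h : IsBose m D) {s s' : ℕ} (hs : s ∉ D) (hs' : s' ∉ D)
    (ne : ¬s ≡ s' [MOD m]) : Good m D s ∨ Good m D s' := by
  obtain ⟨K, L, _, _, _, _, θ, φ, hr, hθ, hφ, hm, rfl⟩ := h
  have : Module.Finite K L := Module.finite_of_finrank_pos (by omega)
  have : Finite L := Module.finite_of_finite K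
  let : Fintype L := Fintype.ofFinite L
  set q := Fintype.card K
  set i := algebraMap K L
  have hc : Fintype.card L = q ^ 2 := by rw [Module.card_eq_pow_finrank (K := K), hr]
  have q1 : 1 < q := Fintype.one_lt_card
  have q2 : m + 1 = q * q := by rw [hm, Nat.sub_add_cancel (Nat.one_le_pow _ _ (by omega)), sq]
  rw [← hc] at hθ hm
  have n0 := Nat.sub_ne_zero_of_lt (Fintype.one_lt_card (α := L))
  have θ0 := fun n => pow_ne_zero n (hθ.ne_zero n0)
  have hK : Module.finrank K (LinearMap.ker φ) ≤ 1 := by have := ker_lt φ hφ; omega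
  obtain ⟨e, p2, e0⟩ := (Submodule.ne_bot_iff _).1
    (LinearMap.ker_ne_bot_of_finrank_lt (f := φ) (by simp [hr]))
  obtain ⟨e1, p0⟩ := φ.surjective_of_ne_zero hφ 1
  set α := -e1 / e
  have p1 : -α * e = e1 := by simp [α, neg_div, e0]
  have H : ∀ l, φ (l * e) = 0 → ∃ κ, l = i κ ∧ φ (l * α * e) = -κ := fun l h1 => by
    obtain ⟨c, hc⟩ := dep2 (LinearMap.ker φ) hK p2 h1 e0
    have := mul_right_cancel₀ e0 (hc.trans (Algebra.smul_def _ _))
    refine ⟨c, this, ?_⟩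
    rw [show l * α * e = -(c • e1) by rw [Algebra.smul_def, ← this, ← p1]; ring, map_neg, map_smul,
      p0, smul_eq_mul, mul_one]
  have a1 : α ^ q ≠ α := fun c => by
    obtain ⟨t, ht⟩ := (splits_X_pow_nat_card_sub_X (K := K)).mem_range_of_isRoot (i := i) (x := α)
      (FiniteField.X_pow_card_sub_X_ne_zero _ Finite.one_lt_card) (by simpa [sub_eq_zero] using c)
    rw [← p1, ← ht, neg_mul, map_neg, ← Algebra.smul_def, map_smul, p2] at p0
    simp at p0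
  have F2 : ∀ x : L, (x ^ q) ^ q = x := fun x => by
    rw [← pow_mul, ← sq, ← hc, FiniteField.pow_card]
  have id : ∀ w, i (φ (α ^ 2 * w)) - i (φ (α * w)) * (α + α ^ q) + i (φ w) * (α * α ^ q) = 0 := by
    intro w
    have t1 := FiniteField.algebraMap_trace_eq_sum_pow K L α
    have t2 := FiniteField.algebraMap_norm_eq_prod_pow K L α
    simp only [hr, sum_range_succ, prod_range_succ, range_zero, sum_empty, prod_empty, pow_zero,
      pow_one, zero_add, one_mul, Nat.card_eq_fintype_card] at t1 t2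
    rw [← t1, ← t2, ← map_mul, ← map_mul, ← map_sub, ← map_add, map_eq_zero,
      show α ^ 2 * w = Algebra.trace K L α • (α * w) - Algebra.norm K α • w by
        rw [Algebra.smul_def, Algebra.smul_def, t1, t2]; ring, map_sub, map_smul, map_smul]
    simp only [smul_eq_mul]
    ring
  have key : ∀ s, φ (θ ^ s) ≠ 1 → i (φ (α ^ 2 * (e ^ 2 / θ ^ s))) - 1 -
      i (φ (α * (e ^ 2 / θ ^ s))) * (α + α) + i (φ (e ^ 2 / θ ^ s)) * (α * α) ≠ 0 →
      Good m {i | φ (θ ^ i) = 1} s := fun s h1 h2 => by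
    refine line φ 1 _ _ _ hθ (by omega) hm.dvd (hm ▸ dvd_mul_right _ _)
      (fun a b c => hm ▸ (prim_pow_eq hθ n0 _ _).1 c) (by nlinarith)
      (Real.sqrt_le_iff.2 ⟨by positivity, by exact_mod_cast (by nlinarith)⟩) e0 (p1 ▸ p0) p2
      rfl rfl rfl a1 (fun u v h3 h4 => ?_) fun γ g1 g2 => ?_
    · obtain ⟨κ, hκ, k1⟩ := H ((v • 1 - u • α) * e / θ ^ s) (by
        rw [← h4, show (v • 1 - u • α) * e / θ ^ s * e = v • (e ^ 2 / θ ^ s) -
          u • (α * (e ^ 2 / θ ^ s)) by simp only [Algebra.smul_def]; ring]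
        simp only [map_sub, map_smul, smul_eq_mul]; ring)
      rw [show (v • 1 - u • α) * e / θ ^ s * α * e = v • (α * (e ^ 2 / θ ^ s)) -
        u • (α ^ 2 * (e ^ 2 / θ ^ s)) by simp only [Algebra.smul_def]; ring, map_sub, map_smul,
        map_smul, smul_eq_mul, smul_eq_mul] at k1
      obtain rfl : κ = u := by linear_combination k1 + h3
      rw [div_eq_iff (θ0 s)] at hκ
      have h5 : κ • θ ^ s = v • e + κ • e1 := by
        simp only [Algebra.smul_def, mul_one] at hκ ⊢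
        linear_combination -hκ + i κ * p1
      have h6 := congrArg φ h5
      rw [map_add, map_smul, map_smul, map_smul, p2, p0, smul_zero, zero_add] at h6
      obtain rfl : κ = 0 := by_contra fun c => h1 (mul_left_cancel₀ c h6)
      simpa [e0] using h5.symm
    simp only [Algebra.smul_def, mul_one, map_sub, map_neg, map_one] at g2
    have f0 : α ≠ γ := by
      rintro rfl
      exact h2 (by linear_combination g2)
    have f1 : α ^ q ≠ γ := by
      rintro rfl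
      exact one_ne_zero (α := L) (by linear_combination id (e ^ 2 / θ ^ s) - g2)
    intro k hk
    rw [hr] at hk
    interval_cases k
    · simp [f0, f0.symm]
    · simp only [pow_one]
      exact ⟨⟨f1, fun c => f1 (by rw [← c, F2])⟩, fun c => (a1 c).elim, fun c => (g1 c).elim⟩
  by_contra c
  rw [not_or] at c
  have h1 := not_not.1 (mt (key s hs) c.1)
  have h2 := not_not.1 (mt (key s' hs') c.2)
  set v := e / θ ^ s - e / θ ^ s' with hv
  have v1 : ∀ x, φ (v * x * e) = φ (x * (e ^ 2 / θ ^ s)) - φ (x * (e ^ 2 / θ ^ s')) := fun x => by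
    rw [← map_sub, hv]
    congr 1
    ring
  have h3 : i (φ (v * 1 * e)) * α = i (φ (v * α * e)) := by
    refine mul_left_cancel₀ (mul_ne_zero (sub_ne_zero.2 a1) (sub_ne_zero.2 a1)) ?_
    simp only [v1, map_sub, one_mul]
    linear_combination (α ^ q - α) * (id (e ^ 2 / θ ^ s) - id (e ^ 2 / θ ^ s') - h1 + h2)
  have h4 : φ (v * 1 * e) = 0 := by_contra fun c => a1 (by
    rw [(eq_div_iff ((map_ne_zero i).2 c)).2 ((mul_comm _ _).trans h3), ← map_div₀, ← map_pow,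
      FiniteField.pow_card])
  obtain ⟨κ, k1, k2⟩ := H v (by simpa using h4)
  rw [h4, k2, map_zero, zero_mul, eq_comm, map_eq_zero, neg_eq_zero] at h3
  rw [k1, h3, map_zero, eq_comm, sub_eq_zero, div_eq_div_iff (θ0 _) (θ0 _), mul_right_inj' e0,
    prim_pow_eq hθ n0, ← hm] at hv
  exact ne hv.symm

theorem ruzsa_good {m : ℕ} {D : Set ℕ} (h : IsRuzsa m D) (m3 : 3 ≤ m) {s : ℕ} (hs : s ∉ D) :
    Good m D s := by
  classical
  obtain ⟨p, g, α, β, hp, hg, α0, hm, rfl⟩ := h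
  haveI := Fact.mk hp
  have p3 : 3 ≤ p := by
    by_contra c
    have := hp.two_le
    obtain rfl : p = 2 := by omega
    omega
  obtain ⟨e, rfl⟩ : ∃ e, p = e + 2 := ⟨p - 2, by omega⟩
  change IsPrimitiveRoot g (e + 1) at hg
  change m = (e + 2) * (e + 1) at hm
  have co : (e + 2).Coprime (e + 1) := by simp [show e + 2 = 1 + (e + 1) by ring]
  have hg' : IsPrimitiveRoot g (Fintype.card (ZMod (e + 2)) - 1) := by rwa [ZMod.card]
  have ex : ∀ u : ZMod (e + 2), u ≠ 0 → ∃ i : ℕ, g ^ i = u ∧ (i : ZMod (e + 2)) = α * u - β := by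
    intro u hu
    obtain ⟨i, rfl⟩ := prim_surj hg' u hu
    obtain ⟨n, h1, h2⟩ := Nat.chineseRemainder co (α * g ^ i - β).val i
    exact ⟨n, (prim_pow_eq hg (by omega) _ _).2 h2, by
      rw [(ZMod.natCast_eq_natCast_iff _ _ _).2 h1, ZMod.natCast_zmod_val]⟩
  choose! lg l1 l2 using ex
  have lD : ∀ u ≠ 0, α * g ^ lg u = lg u + β := fun u hu => by rw [l1 u hu, l2 u hu]; ring
  set c := g ^ s
  have c0 : c ≠ 0 := pow_ne_zero _ (hg.ne_zero (by omega))
  set κ := c * (α * c - β - s) / α with hκ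
  have κ0 : κ ≠ 0 := div_ne_zero (mul_ne_zero c0 fun d => hs (show α * c = s + β by
    linear_combination d)) α0
  obtain ⟨b, μ, n, b0, b1, μ0, hb⟩ : ∃ (b μ : ZMod (e + 2)) (n : ℕ), b ≠ 0 ∧ b ≠ c⁻¹ ∧ μ ≠ 0 ∧
      ∀ t, c + (κ - c ^ 2) * t = μ * (b - t) ^ n := by
    by_cases d : c ^ 2 - κ = 0
    · have : (2 : ZMod (e + 2)) ≠ 0 := fun d => by
        have := Nat.le_of_dvd two_pos ((ZMod.natCast_eq_zero_iff 2 _).1 d)
        omega
      refine ⟨2 * c⁻¹, c, 0, by simp [this, c0], fun d => inv_ne_zero c0 (by linear_combination d),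
        c0, fun t => by linear_combination -t * d⟩
    · refine ⟨c / (c ^ 2 - κ), c ^ 2 - κ, 1, div_ne_zero c0 d, fun d' => κ0 ?_, d, fun t => ?_⟩
      · field_simp at d'
        linear_combination d'
      · field_simp
        ring
  set a : Fin 3 → ZMod (e + 2) := ![0, c⁻¹, b]
  have ha : Function.Injective a := by
    have := inv_ne_zero c0
    intro i j
    fin_cases i <;> fin_cases j <;> simp [a, b0, b1, b0.symm, b1.symm, this.symm, c0]
  set Z : ZMod (e + 2) → ZMod (e + 2) := fun t => μ * (b - t) ^ n / (c * (c⁻¹ - t)) with hZ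
  have T0 : ∀ t, (∀ j, a j ≠ t) → t ≠ 0 ∧ c⁻¹ - t ≠ 0 ∧ b - t ≠ 0 ∧ Z t ≠ 0 := fun t ht => by
    have h1 : c⁻¹ - t ≠ 0 := sub_ne_zero.2 (ht 1)
    have h2 : b - t ≠ 0 := sub_ne_zero.2 (ht 2)
    exact ⟨(ht 0).symm, h1, h2, div_ne_zero (mul_ne_zero μ0 (pow_ne_zero _ h2)) (mul_ne_zero c0 h1)⟩
  have Z1 : ∀ t, c⁻¹ - t ≠ 0 → Z t = c - κ / c + κ / c ^ 2 / (c⁻¹ - t) := fun t ht => by
    have : 1 - c * t ≠ 0 := fun d => ht (by field_simp; linear_combination d)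
    simp only [hZ, ← hb]
    field_simp
    ring
  refine ⟨_, univ.filter fun t => ∀ j, a j ≠ t, fun t => lg t⁻¹, fun t => lg (Z t), ?_, fun t ht t' ht' h => ?_,
    fun t ht => ?_, fun ζ hζ j k hjk => ?_⟩
  · have h1 : univ ⊆ (univ.filter fun t => ∀ j, a j ≠ t) ∪ univ.image a := fun t _ => by
      by_contra d
      simp only [mem_union, mem_filter, mem_univ, true_and, mem_image, not_or, not_forall,
        not_not] at d
      exact d.2 d.1
    have h2 := (card_le_card h1).trans ((card_union_le _ _).trans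
      (Nat.add_le_add_left card_image_le _))
    rw [card_univ, ZMod.card, card_univ, Fintype.card_fin] at h2
    refine le_trans (Real.sqrt_le_iff.2 ⟨by positivity, ?_⟩) (Nat.cast_le.2 h2 |>.trans_eq (by simp))
    exact_mod_cast (by nlinarith)
  · have := (prim_pow_eq hg (by omega) _ _).2 (h.of_dvd (hm ▸ dvd_mul_left _ _))
    rwa [l1 _ (inv_ne_zero (T0 t (mem_filter.1 ht).2).1),
      l1 _ (inv_ne_zero (T0 t' (mem_filter.1 ht').2).1), inv_inj] at this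
  · obtain ⟨t0, t1, -, t3⟩ := T0 t (mem_filter.1 ht).2
    have t4 := inv_ne_zero t0
    have x0 := div_ne_zero (mul_ne_zero t4 t3) c0
    refine ⟨lD _ t4, lD _ t3, _, lD _ x0, ?_⟩
    rw [hm, ← Nat.modEq_and_modEq_iff_modEq_mul co, ← ZMod.natCast_eq_natCast_iff,
      ← prim_pow_eq hg (by omega), pow_add, pow_add, l1 _ t4, l1 _ t3, l1 _ x0]
    refine ⟨?_, (div_mul_cancel₀ _ c0).symm⟩
    have : c * (c⁻¹ - t) = 1 - c * t := by field_simp
    rw [Nat.cast_add, Nat.cast_add, l2 _ t4, l2 _ t3, l2 _ x0, Z1 t t1, hκ]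
    generalize c⁻¹ - t = d at *
    field_simp
    linear_combination (α * c - β - s) * this
  have z0 := hζ.ne_zero (by omega)
  have z1 : ζ ^ ((e + 2) * (e + 1)) = 1 := hm ▸ hζ.pow_eq_one
  obtain ⟨χ, hχ⟩ := exists_chi hg' (ζ := ζ⁻¹ ^ (e + 2)) (by
    rw [ZMod.card, ← pow_mul, inv_pow]
    exact inv_eq_one.2 z1)
  set ψ := AddChar.zmodChar (e + 2) (ζ := ζ⁻¹ ^ (e + 1)) (by
    rw [← pow_mul, inv_pow, mul_comm, z1, inv_one])
  have χ1 : ∀ u ≠ 0, χ u⁻¹ * χ u = 1 := fun u hu => by rw [← map_mul, inv_mul_cancel₀ hu, map_one]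
  have c1 : ∀ u ≠ 0, ζ ^ lg u = χ u⁻¹ * ψ (α * u - β) := fun u hu => by
    have := χ1 u hu
    rw [← l2 u hu, AddChar.zmodChar_apply', eq_inv_of_mul_eq_one_left this, ← l1 u hu, map_pow, hχ,
      l1 u hu, ← inv_pow, ← mul_pow, pow_succ ζ⁻¹ (e + 1)]
    congr 1
    field_simp
  have ψ1 : ψ ≠ 1 := fun d => by
    have := DFunLike.congr_fun d ((1 : ℕ) : ZMod (e + 2))
    rw [AddChar.zmodChar_apply', pow_one, AddChar.one_apply, hζ.inv.pow_eq_one_iff_dvd] at this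
    have := Nat.le_of_dvd (by omega) this
    nlinarith
  have nd : ∀ j : ℕ, ¬m ∣ j → χ g ^ j ≠ 1 ∨ (j : ZMod (e + 2)) ≠ 0 := fun j hj => by
    by_contra d
    rw [not_or, not_not, not_not, hχ, ← pow_mul, hζ.inv.pow_eq_one_iff_dvd, hm,
      ZMod.natCast_eq_zero_iff] at d
    exact hj (hm ▸ co.mul_dvd_of_dvd_of_dvd d.2 (Nat.dvd_of_mul_dvd_mul_left (by omega) d.1))
  have W := weil_wild (e + 2) a ha ![j, k, n * e * k] ![-(j * α), k * α * κ / c ^ 2, 0] χ ψ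
    (by simp) (by
      have g0 := hg.ne_zero (by omega)
      rcases not_and_or.1 hjk with d | d <;> rcases nd _ d with d | d
      · exact Or.inl ⟨0, g, g0, d⟩
      · exact Or.inr ⟨0, by simp [d, α0], ψ1⟩
      · exact Or.inl ⟨1, g, g0, d⟩
      · exact Or.inr ⟨1, by simp [d, α0, κ0, c0], ψ1⟩)
  rw [sum_congr rfl (g := fun t => (χ (-1) ^ j * χ (c * μ⁻¹) ^ k *
    ψ (k * (α * (c - κ / c) - β) - j * β)) * ((∏ l, χ (a l - t) ^ ![j, k, n * e * k] l) *
      ψ (∑ l, ![-(j * α), k * α * κ / c ^ 2, 0] l / (a l - t)))) fun t ht => ?_, ← mul_sum, norm_mul]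
  · have cb : ∀ x (n : ℕ), ‖χ x ^ n‖ ≤ 1 := fun x n => by
      rw [norm_pow]
      exact pow_le_one₀ (norm_nonneg _) (chi_le χ _)
    refine (mul_le_of_le_one_left (norm_nonneg _) ?_).trans (le_trans (le_of_eq_of_le (by congr!) W) ?_)
    · rw [norm_mul, AddChar.norm_apply, mul_one, norm_mul]
      exact mul_le_one₀ (cb _ _) (norm_nonneg _) (cb _ _)
    · have := sqrt_le (q := e + 2) (m := m) (by nlinarith)
      rw [ZMod.card, Fintype.card_fin]
      push_cast at this ⊢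
      linarith [Real.sqrt_nonneg √(m : ℝ)]
  obtain ⟨t0, t1, t2, t3⟩ := T0 t (mem_filter.1 ht).2
  have e1 : (Z t)⁻¹ = c * μ⁻¹ * (c⁻¹ - t) * (b - t) ^ (n * e) := by
    have : (b - t) ^ (e + 1) = 1 := ZMod.pow_card_sub_one_eq_one t2
    refine inv_eq_of_mul_eq_one_right ?_
    rw [← one_pow n, ← this, ← pow_mul]
    simp only [hZ]
    generalize c⁻¹ - t = d at *
    field_simp
    ring
  have e2 : ψ (α * t⁻¹ - β) ^ j * ψ (α * Z t - β) ^ k = ψ (k * (α * (c - κ / c) - β) - j * β) *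
      ψ (-(j * α) / (0 - t) + k * α * κ / c ^ 2 / (c⁻¹ - t) + 0 / (b - t)) := by
    rw [← AddChar.map_nsmul_eq_pow, ← AddChar.map_nsmul_eq_pow, ← AddChar.map_add_eq_mul,
      ← AddChar.map_add_eq_mul, Z1 t t1, nsmul_eq_mul, nsmul_eq_mul, zero_sub, neg_div_neg_eq]
    congr 1
    ring
  have e3 : χ t = χ (-1) * χ (0 - t) := by rw [← map_mul]; simp
  rw [pow_add, mul_comm j, mul_comm k, pow_mul, pow_mul, c1 _ (inv_ne_zero t0), c1 _ t3, e1,
    inv_inv, e3]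
  simp only [a, Fin.prod_univ_three, Fin.sum_univ_three, Matrix.cons_val, mul_pow, map_mul χ,
    map_pow, ← pow_mul]
  linear_combination χ (-1) ^ j * χ (0 - t) ^ j * χ c ^ k * χ μ⁻¹ ^ k * χ (c⁻¹ - t) ^ k *
    χ (b - t) ^ (n * e * k) * e2

theorem good {m : ℕ} {D : Set ℕ} (h : IsClassical m D) (m3 : 3 ≤ m) {s s' : ℕ} (hs : s ∉ D)
    (hs' : s' ∉ D) (ne : ¬s ≡ s' [MOD m]) : Good m D s ∨ Good m D s' :=
  h.elim (singer_good · hs hs' ne) (·.elim (bose_good · hs hs' ne)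
    fun h => Or.inl (ruzsa_good h m3 hs))

end

open Finset Complex Real

theorem geo_le (N : ℕ) {w : ℂ} (hw : ‖w‖ = 1) : ‖∑ y ∈ Icc 1 N, w ^ y‖ ≤ N :=
  (norm_sum_le _ _).trans (by simp [hw])

theorem geo (N : ℕ) {β : ℝ} (h0 : 0 < β) (h1 : β < 1) :
    ‖∑ y ∈ Icc 1 N, cexp (I * (2 * π * β : ℝ)) ^ y‖ ≤ (β⁻¹ + (1 - β)⁻¹) / 2 := by
  set w := cexp (I * (2 * π * β : ℝ))
  have hw : ‖w‖ = 1 := norm_exp_I_mul_ofReal _
  have e1 : (w - 1) * ∑ y ∈ Icc 1 N, w ^ y = w ^ (N + 1) - w := by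
    induction N with
    | zero => simp
    | succ n ih => rw [sum_Icc_succ_top (by omega), mul_add, ih]; ring
  have e2 : ‖w - 1‖ * ‖∑ y ∈ Icc 1 N, w ^ y‖ ≤ 2 := by
    rw [← norm_mul, e1]
    exact (norm_sub_le _ _).trans (by simp [hw]; norm_num)
  have s1 : ∀ x : ℝ, 0 < x → x ≤ 1 / 2 → 2 * x ≤ Real.sin (π * x) := fun x a b => by
    have := mul_le_sin (x := π * x) (by positivity) (by nlinarith [pi_pos])
    rwa [← mul_assoc, div_mul_cancel₀ _ pi_ne_zero] at this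
  have e3 : 2 * (β * (1 - β)) ≤ Real.sin (π * β) := by
    rcases le_total β (1 / 2) with c | c
    · nlinarith [s1 β h0 c]
    · have := s1 (1 - β) (by linarith) (by linarith)
      rw [mul_sub π, mul_one, Real.sin_pi_sub] at this
      nlinarith
  rw [norm_exp_I_mul_ofReal_sub_one, show 2 * π * β / 2 = π * β by ring] at e2
  have p : 0 < β * (1 - β) := mul_pos h0 (by linarith)
  rw [Real.norm_of_nonneg (by linarith)] at e2
  rw [show (β⁻¹ + (1 - β)⁻¹) / 2 = 1 / (2 * (β * (1 - β))) by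
    field_simp [(sub_pos.2 h1).ne']; ring, le_div_iff₀ (by positivity)]
  nlinarith [norm_nonneg (∑ y ∈ Icc 1 N, w ^ y)]

noncomputable def rt (m : ℕ) : ℂ := cexp (2 * π * I / m)

theorem rt_norm (m : ℕ) : ‖rt m‖ = 1 := by
  rw [rt, show 2 * π * I / m = I * (2 * π / m : ℝ) by push_cast; ring, norm_exp_I_mul_ofReal]

theorem l_one (N : ℕ) {m : ℕ} (hm : 0 < m) {u : ℂ} (hu : ‖u‖ = 1) :
    ∑ j ∈ range m, ‖∑ y ∈ Icc 1 N, (u * rt m ^ j) ^ y‖ ≤ 2 * N + m * (1 + Real.log m) := by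
  obtain ⟨θ, rfl⟩ := (norm_eq_one_iff u).1 hu
  have m0 : (0 : ℝ) < m := by exact_mod_cast hm
  set x := Int.fract (θ / (2 * π)) * m with hx
  have x0 : 0 ≤ x := mul_nonneg (Int.fract_nonneg _) m0.le
  set r := x - ⌊x⌋₊ with hr
  have r0 : 0 ≤ r := sub_nonneg.2 (Nat.floor_le x0)
  have r1 : r < 1 := by linarith [Nat.lt_floor_add_one x]
  set G : ℕ → ℝ := fun i => ‖∑ y ∈ Icc 1 N, cexp (I * (2 * π * ((i + r) / m) : ℝ)) ^ y‖ with hG
  have e1 : ∀ j, ‖∑ y ∈ Icc 1 N, (cexp (θ * I) * rt m ^ j) ^ y‖ = G (⌊x⌋₊ + j) := fun j => by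
    rw [rt, ← Complex.exp_nat_mul, ← Complex.exp_add]
    refine congrArg (fun w => ‖∑ y ∈ Icc 1 N, w ^ y‖)
      (Complex.exp_eq_exp_iff_exists_int.2 ⟨⌊θ / (2 * π)⌋, ?_⟩)
    have : ((⌊x⌋₊ + j : ℕ) + r) / m = θ / (2 * π) - ⌊θ / (2 * π)⌋ + j / m := by
      rw [hr, Int.self_sub_floor]
      push_cast
      field_simp
      linarith
    rw [this]
    push_cast
    field_simp
    ring
  have e2 : ∀ a, ∑ j ∈ range m, G (a + j) = ∑ j ∈ range m, G j := fun a => by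
    induction a with
    | zero => simp
    | succ a ih =>
      have h1 := sum_range_succ (fun j => G (a + j)) m
      have h2 : G (a + m) = G (a + 0) := by
        refine congrArg (fun w => ‖∑ y ∈ Icc 1 N, w ^ y‖)
          (Complex.exp_eq_exp_iff_exists_int.2 ⟨1, ?_⟩)
        have : (m : ℂ) ≠ 0 := by exact_mod_cast hm.ne'
        push_cast
        field_simp
        ring
      rw [sum_range_succ', h2, add_left_inj] at h1
      simp only [← ih, ← h1, add_assoc, add_comm 1]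
  have e3 : ∑ i ∈ range m, (i : ℝ)⁻¹ ≤ 1 + Real.log m := by
    refine le_trans ?_ (harmonic_le_one_add_log m)
    have := sum_range_succ' (fun i : ℕ => (i : ℝ)⁻¹) m
    rw [sum_range_succ] at this
    simp only [harmonic, Rat.cast_sum, Rat.cast_inv, Rat.cast_natCast]
    simp only [Nat.cast_zero, inv_zero] at this
    linarith [inv_pos.2 m0]
  simp only [e1, e2]
  refine (sum_le_sum (g := fun i => (if i = 0 then (N : ℝ) else 0) + (if i = m - 1 then (N : ℝ) else 0)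
    + m / 2 * ((i : ℝ)⁻¹ + ((m - 1 - i : ℕ) : ℝ)⁻¹)) fun i hi => ?_).trans ?_
  · have h0 := geo_le N (norm_exp_I_mul_ofReal (2 * π * ((i + r) / m)))
    have h1 : 0 ≤ (m : ℝ) / 2 * ((i : ℝ)⁻¹ + ((m - 1 - i : ℕ) : ℝ)⁻¹) := by positivity
    have h2 : (0 : ℝ) ≤ N := by positivity
    split_ifs with c1 c2 c2
    iterate 3 linarith
    rw [mem_range] at hi
    have i1 : (1 : ℝ) ≤ i := by exact_mod_cast (by omega)
    have i2 : (1 : ℝ) ≤ (m - 1 - i : ℕ) := by exact_mod_cast (by omega)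
    have i3 : (m : ℝ) = (m - 1 - i : ℕ) + i + 1 := by exact_mod_cast (by omega)
    refine (geo N (by positivity) ((div_lt_one m0).2 (by linarith))).trans ?_
    rw [one_sub_div m0.ne', inv_div, inv_div, add_zero, zero_add, div_mul_eq_mul_div, mul_add]
    gcongr <;> rw [← div_eq_mul_inv] <;> gcongr <;> linarith
  · simp only [sum_add_distrib, sum_ite_eq', ← mul_sum, sum_range_reflect (fun i : ℕ => (i : ℝ)⁻¹),
      mem_range, hm, Nat.sub_lt hm one_pos, if_true]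
    nlinarith

def Sp (N : ℕ) (B : ℝ) (f : ℕ → ℂ) : Prop :=
  ∃ (n : ℕ) (c u : Fin n → ℂ), (∀ i, ‖u i‖ = 1) ∧ ∑ i, ‖c i‖ ≤ B ∧
    ∀ x ∈ Icc 1 N, ∑ i, c i * u i ^ x = f x

theorem Sp.l_one {N : ℕ} {B : ℝ} {f : ℕ → ℂ} (h : Sp N B f) {m : ℕ} (hm : 0 < m) {v : ℂ}
    (hv : ‖v‖ = 1) : ∑ j ∈ range m, ‖∑ y ∈ Icc 1 N, f y * (v * rt m ^ j) ^ y‖ ≤
      B * (2 * N + m * (1 + Real.log m)) := by
  obtain ⟨n, c, u, h1, h2, h3⟩ := h
  trans ∑ j ∈ range m, ∑ i, ‖c i‖ * ‖∑ y ∈ Icc 1 N, (u i * v * rt m ^ j) ^ y‖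
  · refine sum_le_sum fun j _ => ?_
    rw [sum_congr rfl fun y hy => by rw [← h3 y hy, sum_mul], sum_comm]
    refine (norm_sum_le _ _).trans (le_of_eq (sum_congr rfl fun i _ => ?_))
    rw [← norm_mul, mul_sum]
    simp only [mul_pow, mul_assoc]
  rw [sum_comm]
  simp only [← mul_sum]
  refine (sum_le_sum fun i _ => mul_le_mul_of_nonneg_left (H76.l_one N hm (by simp [h1, hv]))
    (norm_nonneg _)).trans ?_
  rw [← sum_mul]
  exact mul_le_mul_of_nonneg_right h2 (by have := Real.log_natCast_nonneg m; positivity)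

theorem orth {m : ℕ} (hm : 0 < m) (a b : ℕ) :
    ∑ j ∈ range m, (rt m ^ j) ^ a * (rt m)⁻¹ ^ (j * b) = if a ≡ b [MOD m] then (m : ℂ) else 0 := by
  have h : IsPrimitiveRoot (rt m) m := isPrimitiveRoot_exp m hm.ne'
  have h0 : rt m ^ b ≠ 0 := pow_ne_zero _ (h.ne_zero hm.ne')
  have e : ∀ j, (rt m ^ j) ^ a * (rt m)⁻¹ ^ (j * b) = (rt m ^ a / rt m ^ b) ^ j := fun j => by
    rw [div_pow, inv_pow, ← pow_mul, ← pow_mul, ← pow_mul, mul_comm j, mul_comm j, div_eq_mul_inv]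
  simp only [e, ← prim_pow_eq h hm.ne' a b]
  split_ifs with c
  · simp [show rt m ^ a = rt m ^ b from c, div_self h0]
  · refine mul_right_cancel₀ (sub_ne_zero.2 fun d => c ((div_eq_one_iff_eq h0).1 d)) ?_
    rw [geom_sum_mul, div_pow, ← pow_mul, ← pow_mul, mul_comm a, mul_comm b, pow_mul, pow_mul,
      show rt m ^ m = 1 from h.pow_eq_one]
    simp

theorem equi {ι : Type} {m : ℕ} (hm : 0 < m) (T : Finset ι) (y z : ι → ℕ) {R : ℝ} (R0 : 0 ≤ R)
    (h : ∀ j k : ℕ, ¬(m ∣ j ∧ m ∣ k) → ‖∑ t ∈ T, (rt m)⁻¹ ^ (j * y t + k * z t)‖ ≤ R)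
    (P : Finset (ℕ × ℕ)) (F : ℕ × ℕ → ℂ) :
    ‖∑ t ∈ T, ∑ p ∈ P with p.1 ≡ y t [MOD m] ∧ p.2 ≡ z t [MOD m], F p - #T / m ^ 2 * ∑ p ∈ P, F p‖
      ≤ R / m ^ 2 * ∑ j ∈ range m, ∑ k ∈ range m,
        ‖∑ p ∈ P, F p * (rt m ^ j) ^ p.1 * (rt m ^ k) ^ p.2‖ := by
  have m0 : (m : ℂ) ≠ 0 := by exact_mod_cast hm.ne'
  have e1 : ∑ t ∈ T, ∑ p ∈ P with p.1 ≡ y t [MOD m] ∧ p.2 ≡ z t [MOD m], F p =
      ∑ q ∈ range m ×ˢ range m, (∑ t ∈ T, (rt m)⁻¹ ^ (q.1 * y t + q.2 * z t)) / m ^ 2 *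
        ∑ p ∈ P, F p * (rt m ^ q.1) ^ p.1 * (rt m ^ q.2) ^ p.2 := by
    simp only [sum_div, sum_mul]
    rw [sum_comm (s := range m ×ˢ range m)]
    refine sum_congr rfl fun t _ => ?_
    simp only [mul_sum]
    rw [sum_comm, sum_filter]
    refine sum_congr rfl fun p _ => ?_
    trans F p / m ^ 2 * ((∑ j ∈ range m, (rt m ^ j) ^ p.1 * (rt m)⁻¹ ^ (j * y t)) *
      ∑ k ∈ range m, (rt m ^ k) ^ p.2 * (rt m)⁻¹ ^ (k * z t))
    · rw [orth hm, orth hm]
      by_cases c1 : p.1 ≡ y t [MOD m] <;> by_cases c2 : p.2 ≡ z t [MOD m] <;> simp [c1, c2]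
      field_simp
    · rw [sum_mul_sum, ← sum_product', mul_sum]
      exact sum_congr rfl fun q _ => by ring
  have h0 : (0, 0) ∈ range m ×ˢ range m := by simpa using hm
  rw [e1, ← add_sum_erase _ _ h0, ← sum_product', mul_sum (range m ×ˢ range m)]
  simp only [zero_mul, add_zero, pow_zero, sum_const, nsmul_one, one_pow, mul_one,
    add_sub_cancel_left]
  refine (norm_sum_le _ _).trans ((sum_le_sum fun q hq => ?_).trans
    (sum_le_sum_of_subset_of_nonneg (erase_subset _ _) fun _ _ _ => by positivity))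
  simp only [mem_erase, mem_product, mem_range] at hq
  rw [norm_mul, norm_div, norm_pow, Complex.norm_natCast]
  gcongr
  exact h _ _ fun c => hq.1 (Prod.ext (Nat.eq_zero_of_dvd_of_lt c.1 hq.2.1)
    (Nat.eq_zero_of_dvd_of_lt c.2 hq.2.2))

abbrev Sid (A : Set ℕ) : Prop := ∀ a ∈ A, ∀ b ∈ A, ∀ c ∈ A, ∀ d ∈ A, a + b = c + d → a = c ∨ a = d

open Classical in
theorem lac_small {A : Set ℕ} (hA : Sid A) {x : ℕ} (h : Lac (A \ {x})) :
    ∃ C : ℝ, ∀ N : ℕ, #{a ∈ Icc 1 N | a ∈ A} ≤ √(N / 2) + C := by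
  obtain ⟨C, hC⟩ := h
  refine ⟨4 * C + 5, fun N => ?_⟩
  set T := N / 4 + 1
  set P := {a ∈ range T | a ∈ A}
  set H := {a ∈ Icc T N | a ∈ A \ {x}}
  have h1 : #{a ∈ Icc 1 N | a ∈ A} ≤ #P + #H + 1 := (card_le_card (t := insert x (P ∪ H))
    fun a ha => by
      simp only [P, H, mem_insert, mem_union, mem_filter, mem_range, mem_Icc, Set.mem_diff,
        Set.mem_singleton_iff] at ha ⊢
      by_cases c : a < T
      · tauto
      · have : T ≤ a := by omega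
        tauto).trans ((card_insert_le _ _).trans (Nat.add_le_add_right (card_union_le _ _) _))
  have h2 := card_short P T (fun a ha b hb c hc d hd => hA a (mem_filter.1 ha).2 b
    (mem_filter.1 hb).2 c (mem_filter.1 hc).2 d (mem_filter.1 hd).2)
    (fun a ha b _ => by have := mem_range.1 (mem_filter.1 ha).1; omega)
  have h3 : #H ≤ 4 * C + 1 := by
    have key : ∀ a ∈ H, ∀ b ∈ H, a < b → C * a / T < C * b / T := by
      intro a ha b hb hab
      have i1 := hC a (mem_filter.1 ha).2 b (mem_filter.1 hb).2 hab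
      have i2 := (mem_Icc.1 (mem_filter.1 ha).1).1
      obtain ⟨d, rfl⟩ := Nat.exists_eq_add_of_le hab.le
      rw [Nat.add_sub_cancel_left] at i1
      have i4 := Nat.div_le_div_right (c := T) (show C * a + T ≤ C * (a + d) by rw [mul_add]; omega)
      rw [Nat.add_div_right _ (by omega)] at i4
      omega
    rw [← card_range (4 * C + 1)]
    refine card_le_card_of_injOn (fun a => C * a / T) (fun a ha => ?_) fun a ha b hb hab => ?_
    · have i2 : a ≤ 4 * T := by have := (mem_Icc.1 (mem_filter.1 ha).1).2; omega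
      have : C * a / T ≤ 4 * C := Nat.div_le_of_le_mul (by nlinarith)
      simpa using Nat.lt_succ_of_le this
    · rcases lt_trichotomy a b with c | c | c
      exacts [absurd hab (key a ha b hb c).ne, c, absurd hab (key b hb a ha c).ne']
  have h4 : (4 * T : ℝ) ≤ N + 4 := by exact_mod_cast (by omega : 4 * T ≤ N + 4)
  have h5 := le_sqrt_add_one (n := #P) (r := √(N / 2) + 2) (by positivity) (by
    nlinarith [Real.sq_sqrt (show (0 : ℝ) ≤ N / 2 by positivity), Real.sqrt_nonneg (N / 2 : ℝ)])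
  have h6 : (#{a ∈ Icc 1 N | a ∈ A} : ℝ) ≤ #P + (4 * C + 1) + 1 := by exact_mod_cast (by omega)
  linarith

theorem two_out {A : Set ℕ} (h : ∀ x, ¬Lac (A \ {x})) : ∃ n : ℕ, ∀ m > n, ∀ D, IsClassical m D →
    3 ≤ m → ∃ s ∈ A, s ≤ n ∧ s ∉ D ∧ Good m D s := by
  have : ∀ x, ∃ n : ℕ, ∀ m ≥ n, ∀ D, IsClassical m D → ∃ s ∈ A, s ≠ x ∧ s ≤ n ∧ s ∉ D := fun x => by
    by_contra c
    push Not at c
    exact h x (lac_of_classical _ fun n => (c n).imp fun m ⟨h1, D, h2, h3⟩ =>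
      ⟨h1, D, h2, fun a ha => h3 a ha.1.1 ha.1.2 ha.2⟩)
  choose f hf using this
  refine ⟨f 0 + ∑ x ∈ range (f 0 + 1), f x, fun m hm D hD m3 => ?_⟩
  obtain ⟨s, s1, -, s2, s3⟩ := hf 0 m (by omega) D hD
  have : f s ≤ ∑ x ∈ range (f 0 + 1), f x :=
    single_le_sum (fun _ _ => Nat.zero_le _) (mem_range.2 (Nat.lt_succ_of_le s2))
  obtain ⟨t, t1, t0, t2, t3⟩ := hf s m (by omega) D hD
  exact (good hD m3 s3 t3 fun c => t0 (c.eq_of_lt_of_lt (by omega) (by omega)).symm).elim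
    (fun g => ⟨s, s1, by omega, s3, g⟩) fun g => ⟨t, t1, by omega, t3, g⟩

open Classical in
theorem res_le {m : ℕ} {D : Set ℕ} (hD : Nice m D) : #{a ∈ Icc 1 m | a ∈ D} ≤ √m + 1 :=
  le_sqrt_add_one (Real.sqrt_nonneg _) ((card_mod hD.pos _ (filter_subset _ _)
    fun a ha b hb c hc d hd e => (hD.sidon a (mem_filter.1 ha).2 b (mem_filter.1 hb).2 c
      (mem_filter.1 hc).2 d (mem_filter.1 hd).2 e).imp
      (eq_of_modEq_Icc (mem_filter.1 ha).1 (mem_filter.1 hc).1)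
      (eq_of_modEq_Icc (mem_filter.1 ha).1 (mem_filter.1 hd).1)).trans_eq
      (Real.sq_sqrt (by positivity)).symm)

theorem small_mod {m N : ℕ} {D A : Set ℕ} (hD : Nice m D) (hA : Sid A) (J : Finset ℕ)
    (h1 : J ⊆ Icc 1 N) (h2 : ∀ a ∈ J, a ∈ A ∧ a ∈ D) :
    (#J : ℝ) ^ 2 ≤ (√m + 1) * (#J + 2 * (N / m)) := by
  classical
  choose ρ r1 r2 using exists_rep hD.pos
  have hρ : ∀ a ∈ J, ρ a ∈ {a ∈ Icc 1 m | a ∈ D} := fun a ha =>
    mem_filter.2 ⟨r1 a, hD.per _ _ (r2 a) (h2 a ha).2⟩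
  have e1 := sq_sum_le_card_mul_sum_sq (s := {a ∈ Icc 1 m | a ∈ D})
    (f := fun c => #{a ∈ J | ρ a = c})
  rw [← card_eq_sum_card_fiberwise hρ] at e1
  set Q := {p ∈ J ×ˢ J | p.2 < p.1 ∧ ρ p.1 = ρ p.2}
  have e2 : ∑ c ∈ {a ∈ Icc 1 m | a ∈ D}, #{a ∈ J | ρ a = c} ^ 2 ≤ #J + (#Q + #Q) := by
    simp only [sq, ← card_product]
    rw [← card_biUnion fun c _ d _ cd => disjoint_left.2 fun p h h' => cd (by
      simp only [mem_product, mem_filter] at h h'
      exact h.1.2.symm.trans h'.1.2)]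
    refine (card_le_card (t := J.diag ∪ (Q ∪ Q.image Prod.swap)) fun p hp => ?_).trans
      ((card_union_le _ _).trans (add_le_add (diag_card J).le ((card_union_le _ _).trans
        (Nat.add_le_add_left card_image_le _))))
    simp only [mem_biUnion, mem_product, mem_filter] at hp
    obtain ⟨c, -, ⟨a1, a2⟩, a3, a4⟩ := hp
    simp only [mem_union, mem_diag, Q, mem_image, mem_filter, mem_product]
    rcases lt_trichotomy p.1 p.2 with c | c | c
    · exact Or.inr (Or.inr ⟨p.swap, ⟨⟨a3, a1⟩, c, a4.trans a2.symm⟩, rfl⟩)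
    · exact Or.inl ⟨a1, c⟩
    · exact Or.inr (Or.inl ⟨⟨a1, a3⟩, c, a2.trans a4.symm⟩)
  have e3 : ∀ p ∈ Q, m * ((p.1 - p.2) / m) + p.2 = p.1 := fun p hp => by
    have := (mem_filter.1 hp).2
    rw [Nat.mul_div_cancel' ((Nat.modEq_iff_dvd' this.1.le).1
      ((r2 _).trans (this.2 ▸ (r2 _).symm))), Nat.sub_add_cancel this.1.le]
  have e4 : #Q ≤ N / m := by
    rw [← Nat.add_sub_cancel (N / m) 1, ← Nat.card_Icc]
    refine card_le_card_of_injOn (fun p => (p.1 - p.2) / m) (fun p hp => ?_) fun p hp q hq e => ?_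
    · have a1 := e3 p hp
      have a2 := mem_filter.1 hp
      have a3 := mem_Icc.1 (h1 (mem_product.1 a2.1).1)
      rw [mem_coe, mem_Icc]
      refine ⟨Nat.pos_of_ne_zero fun c => ?_, Nat.div_le_div_right (by omega)⟩
      rw [show (p.1 - p.2) / m = 0 from c] at a1
      omega
    · have a1 := e3 p hp
      have a2 := e3 q hq
      simp only [Q, coe_filter, mem_product, Set.mem_setOf_eq] at hp hq e
      rw [e] at a1
      have := hA _ (h2 _ hp.1.1).1 _ (h2 _ hq.1.2).1 _ (h2 _ hq.1.1).1 _ (h2 _ hp.1.2).1 (by omega)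
      exact Prod.ext (by omega) (by omega)
  have e5 : (#Q : ℝ) ≤ N / m := (Nat.cast_le.2 e4).trans Nat.cast_div_le
  have e6 : (#J : ℝ) ^ 2 ≤ #{a ∈ Icc 1 m | a ∈ D} * (#J + (#Q + #Q)) := by
    exact_mod_cast e1.trans (Nat.mul_le_mul_left _ e2)
  refine e6.trans ?_
  gcongr
  · exact res_le hD
  · linarith

theorem cls_le {m N : ℕ} (h : N < 2 * m) (a : ℕ) (S : Finset ℕ) (h1 : S ⊆ Icc 1 N)
    (h2 : ∀ b ∈ S, b ≡ a [MOD m]) : #S ≤ 2 := by
  rw [← card_range 2]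
  refine card_le_card_of_injOn (· / m) (fun b hb => ?_) fun b hb c hc e => ?_
  · have := (mem_Icc.1 (h1 hb)).2
    exact mem_coe.2 (mem_range.2 (Nat.div_lt_of_lt_mul (by omega)))
  · rw [← Nat.div_add_mod b m, ← Nat.div_add_mod c m, show b / m = c / m from e,
      show b % m = c % m from (h2 b hb).trans (h2 c hc).symm]

theorem schur {N s h : ℕ} (W : Finset ℕ) (hW : W ⊆ Icc 1 N) (h1 : h ≤ #W) :
    h * (2 * #W) ≤ #{p ∈ W ×ˢ W | ∃ x ∈ W, p.1 + p.2 = x + s} + h * (2 * h + N + s + 1) := by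
  classical
  set ρ : ℕ → ℕ := fun x => #{w ∈ W | x < w}
  have r1 : ∀ x ∈ W, ∀ y ∈ W, x < y → ρ y < ρ x := fun x _ y hy c => card_lt_card
    ⟨fun w hw => mem_filter.2 ⟨(mem_filter.1 hw).1, c.trans (mem_filter.1 hw).2⟩,
      fun d => lt_irrefl _ (mem_filter.1 (d (mem_filter.2 ⟨hy, c⟩))).2⟩
  have r2 : #{x ∈ W | ¬ρ x < h} ≤ #W - h := by
    rw [← Nat.card_Ico]
    refine card_le_card_of_injOn ρ (fun x hx => ?_) fun x hx y hy e => ?_
    · obtain ⟨a1, a2⟩ := mem_filter.1 hx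
      exact mem_coe.2 (mem_Ico.2 ⟨by omega, card_lt_card ⟨filter_subset _ _,
        fun d => lt_irrefl _ (mem_filter.1 (d a1)).2⟩⟩)
    · rcases lt_trichotomy x y with c | c | c
      exacts [absurd e (r1 x (mem_filter.1 hx).1 y (mem_filter.1 hy).1 c).ne', c,
        absurd e (r1 y (mem_filter.1 hy).1 x (mem_filter.1 hx).1 c).ne]
  obtain ⟨X, x1, x2⟩ := exists_subset_card_eq (s := {x ∈ W | ρ x < h}) (n := h) (by
    have := card_filter_add_card_filter_not (s := W) fun x => ρ x < h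
    omega)
  have r3 : ∀ x ∈ X, 2 * #W ≤ #{p ∈ W ×ˢ W | p.1 + p.2 = x + s} + (2 * h + N + s + 1) := by
    intro x hx
    obtain ⟨a1, a2⟩ := mem_filter.1 (x1 hx)
    have a3 := (mem_Icc.1 (hW a1)).2
    set V := {w ∈ W | ¬x < w}
    have b1 : ρ x + #V = #W := card_filter_add_card_filter_not _
    have b2 : #(V.image (x + s - ·)) = #V := card_image_of_injOn fun a ha b hb e => by
      have := (mem_filter.1 ha).2
      have := (mem_filter.1 hb).2
      omega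
    have b3 := card_union_add_card_inter V (V.image (x + s - ·))
    have b4 : #(V ∪ V.image (x + s - ·)) ≤ #(range (N + s + 1)) := card_le_card fun a ha => by
      simp only [V, mem_union, mem_image, mem_filter, mem_range] at ha ⊢
      rcases ha with ha | ⟨b, -, rfl⟩ <;> omega
    have b5 : #(V ∩ V.image (x + s - ·)) ≤ #{p ∈ W ×ˢ W | p.1 + p.2 = x + s} := by
      refine card_le_card_of_injOn (fun a => (a, x + s - a)) (fun a ha => ?_)
        fun a _ b _ e => congrArg Prod.fst e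
      simp only [V, coe_inter, Set.mem_inter_iff, mem_coe, mem_image, mem_filter, mem_product] at ha ⊢
      obtain ⟨a4, b, a5, rfl⟩ := ha
      rw [Nat.sub_sub_self (by omega)]
      exact ⟨⟨a4.1, a5.1⟩, by omega⟩
    rw [card_range] at b4
    omega
  have := sum_le_sum r3
  rw [sum_const, sum_add_distrib, sum_const, x2, smul_eq_mul, smul_eq_mul,
    ← card_biUnion fun a _ b _ c => disjoint_filter.2 fun p _ e e' => c (by omega)] at this
  refine this.trans (Nat.add_le_add_right (card_le_card fun p hp => ?_) _)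
  obtain ⟨x, hx, hp⟩ := mem_biUnion.1 hp
  exact mem_filter.2 ⟨(mem_filter.1 hp).1, x, (mem_filter.1 (x1 hx)).1, (mem_filter.1 hp).2⟩

theorem equi' {ι : Type} {m : ℕ} (hm : 0 < m) (T : Finset ι) (y z : ι → ℕ) {R S : ℝ} (R0 : 0 ≤ R)
    (h : ∀ ζ : ℂ, IsPrimitiveRoot ζ m → ∀ j k : ℕ, ¬(m ∣ j ∧ m ∣ k) →
      ‖∑ t ∈ T, ζ ^ (j * y t + k * z t)‖ ≤ R)
    (P : Finset (ℕ × ℕ)) (c : ℕ × ℕ → Prop) [DecidablePred c]
    (hS : ∑ j ∈ range m, ∑ k ∈ range m, ‖∑ p ∈ P, (if c p then 1 else 0) * (rt m ^ j) ^ p.1 *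
      (rt m ^ k) ^ p.2‖ ≤ m ^ 2 * S) :
    |(∑ t ∈ T, #{p ∈ P | (p.1 ≡ y t [MOD m] ∧ p.2 ≡ z t [MOD m]) ∧ c p} : ℕ) -
      (#T : ℝ) / m ^ 2 * #{p ∈ P | c p}| ≤ R * S := by
  have := equi hm T y z R0 (h _ (isPrimitiveRoot_exp m hm.ne').inv) P fun p => if c p then 1 else 0
  simp only [sum_boole, filter_filter] at this
  rw [← Real.norm_eq_abs, ← Complex.norm_real]
  push_cast
  refine this.trans ((mul_le_mul_of_nonneg_left hS (by positivity)).trans_eq ?_)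
  field_simp

open Classical in
theorem one_dim {m N s : ℕ} {D : Set ℕ} (hD : Nice m D) (hG : Good m D s) (hN : N < 2 * m)
    {W : Finset ℕ} (hW : W ⊆ Icc 1 N) {B L : ℝ} (hS : Sp N B fun x => if x ∈ W then 1 else 0)
    (B0 : 0 ≤ B) (hL : 5 + Real.log m ≤ L) :
    #{a ∈ W | a ∈ D} ≤ (√m + 1) / m * #W + 20 * √√m * (B * L ^ 2) + 8 := by
  obtain ⟨ι, T, y, z, g1, g2, g3, g4⟩ := hG
  have hm := hD.pos
  have m0 : (0 : ℝ) < m := by exact_mod_cast hm
  have l0 := Real.log_natCast_nonneg m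
  have n0 : (N : ℝ) ≤ 2 * m := by exact_mod_cast hN.le
  choose ρ r1 r2 using exists_rep hm
  have e1 := equi' hm T y z (S := B * L ^ 2) (by positivity) g4 (Icc 1 N ×ˢ Icc 1 m) (·.1 ∈ W) (by
    rw [sum_congr rfl fun j _ => sum_congr rfl fun k _ => by
      rw [sum_product' (f := fun a b => (if a ∈ W then 1 else 0) * (rt m ^ j) ^ a * (rt m ^ k) ^ b),
        ← sum_mul_sum, norm_mul], ← sum_mul_sum]
    have a1 := hS.l_one hm norm_one
    have a2 := l_one m hm norm_one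
    simp only [one_mul] at a1 a2
    refine (mul_le_mul a1 a2 (by positivity) (by positivity)).trans ?_
    rw [show m ^ 2 * (B * L ^ 2) = B * (m * L) * (m * L) by ring]
    have : 0 ≤ L := by linarith
    gcongr <;> nlinarith)
  have e2 : #{p ∈ Icc 1 N ×ˢ Icc 1 m | p.1 ∈ W} = #W * m := by
    rw [filter_product_left (· ∈ W), card_product, filter_mem_eq_inter, inter_eq_right.2 hW]
    simp
  set D0 := {a ∈ Icc 1 m | a ∈ D}
  have hρ : ∀ a ∈ D, ρ a ∈ D0 := fun a ha => mem_filter.2 ⟨r1 a, hD.per _ _ (r2 a) ha⟩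
  set Y := T.image fun t => ρ (y t)
  have y1 : #Y = #T := card_image_of_injOn fun a ha b hb e =>
    g2 a ha b hb ((r2 _).trans ((show ρ (y a) = ρ (y b) from e) ▸ (r2 _).symm))
  have y2 : Y ⊆ D0 := image_subset_iff.2 fun t ht => hρ _ (g3 t ht).1
  have y3 := card_sdiff_add_card_eq_card y2
  have y4 := res_le hD
  have e3 : #{a ∈ {a ∈ W | a ∈ D} | ¬ρ a ∈ Y} ≤ 2 * #(D0 \ Y) :=
    card_le_mul_card_image_of_maps_to (f := ρ) (fun a ha => mem_sdiff.2
      ⟨hρ a (mem_filter.1 (mem_filter.1 ha).1).2, (mem_filter.1 ha).2⟩) _ fun b _ =>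
      cls_le hN b _ (fun a ha => hW (mem_filter.1 (mem_filter.1 (mem_filter.1 ha).1).1).1)
        fun a ha => (mem_filter.1 ha).2 ▸ r2 a
  have e4 : #{a ∈ {a ∈ W | a ∈ D} | ρ a ∈ Y} ≤ ∑ t ∈ T, #{p ∈ Icc 1 N ×ˢ Icc 1 m |
      (p.1 ≡ y t [MOD m] ∧ p.2 ≡ z t [MOD m]) ∧ p.1 ∈ W} := by
    refine (card_le_card (t := T.biUnion fun t => {p ∈ Icc 1 N ×ˢ Icc 1 m |
      (p.1 ≡ y t [MOD m] ∧ p.2 ≡ z t [MOD m]) ∧ p.1 ∈ W}.image Prod.fst) fun a ha => ?_).trans
      (card_biUnion_le.trans (sum_le_sum fun t _ => card_image_le))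
    simp only [Y, mem_filter, mem_image, mem_biUnion, mem_product] at ha ⊢
    obtain ⟨⟨a1, -⟩, t, a2, a3⟩ := ha
    exact ⟨t, a2, (a, ρ (z t)), ⟨⟨hW a1, r1 _⟩, ⟨(r2 a).trans (a3 ▸ (r2 _).symm), (r2 _).symm⟩,
      a1⟩, rfl⟩
  have e5 := card_filter_add_card_filter_not (s := {a ∈ W | a ∈ D}) (ρ · ∈ Y)
  have e6 : (#(D0 \ Y) : ℝ) + #T = #D0 := by exact_mod_cast y1 ▸ y3
  have e7 : (#T : ℝ) / m ^ 2 * (#W * m : ℕ) ≤ (√m + 1) / m * #W := by
    rw [Nat.cast_mul, show (#T : ℝ) / m ^ 2 * (#W * m) = #T / m * #W by field_simp]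
    gcongr
    linarith [Nat.cast_nonneg (α := ℝ) #(D0 \ Y)]
  have e8 := (Nat.cast_le (α := ℝ)).2 (e5.symm.trans_le (add_le_add e4 e3))
  rw [e2] at e1
  rw [Nat.cast_add, Nat.cast_mul, Nat.cast_ofNat] at e8
  linarith [(abs_le.1 e1).2]

open Classical in
theorem two_dim {m N s : ℕ} {D A : Set ℕ} (hD : Nice m D) (hG : Good m D s) (hN : N < 2 * m)
    (hA : Sid A) (s1 : s ∈ A) (s2 : s ∉ D) (s3 : s ≤ N)
    {W : Finset ℕ} (hW : W ⊆ Icc 1 N) {B L : ℝ} (hS : Sp N B fun x => if x ∈ W then 1 else 0)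
    (B0 : 0 ≤ B) (hL : 5 + Real.log m ≤ L) (hL' : 2 + Real.log (2 * N + 1 : ℕ) ≤ L) :
    (√m - 3) / m ^ 2 * #{p ∈ W ×ˢ W | ∃ x ∈ W, p.1 + p.2 = x + s} ≤
      8 * #{a ∈ W | a ∈ D ∧ a ∉ A} + 20 * √√m * (B * L) ^ 3 := by
  obtain ⟨ι, T, y, z, g1, g2, g3, g4⟩ := hG
  have hm := hD.pos
  have m0 : (0 : ℝ) < m := by exact_mod_cast hm
  have l0 := Real.log_natCast_nonneg m
  have n0 : (N : ℝ) ≤ 2 * m := by exact_mod_cast hN.le
  set M := 2 * N + 1 with hM
  have M0 : (0 : ℝ) < M := by positivity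
  set f : ℕ → ℂ := fun x => if x ∈ W then 1 else 0 with hf
  have e1 := equi' hm T y z (S := (B * L) ^ 3) (by positivity) g4 (Icc 1 N ×ˢ Icc 1 N)
    (fun p => p ∈ W ×ˢ W ∧ ∃ x ∈ W, p.1 + p.2 = x + s) (by
    have a0 : ∀ j k, ∑ p ∈ Icc 1 N ×ˢ Icc 1 N, (if p ∈ W ×ˢ W ∧ ∃ x ∈ W, p.1 + p.2 = x + s then 1
        else 0) * (rt m ^ j) ^ p.1 * (rt m ^ k) ^ p.2 = ∑ l ∈ range M, (rt M ^ l) ^ s / M *
        (∑ x ∈ Icc 1 N, f x * (1 * rt M ^ l) ^ x) *
        ((∑ x ∈ Icc 1 N, f x * ((rt M)⁻¹ ^ l * rt m ^ j) ^ x) *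
        ∑ x ∈ Icc 1 N, f x * ((rt M)⁻¹ ^ l * rt m ^ k) ^ x) := fun j k => by
      simp only [sum_mul_sum, ← sum_product' (Icc 1 N), mul_sum (Icc 1 N ×ˢ Icc 1 N)]
      rw [sum_comm (s := range M)]
      refine sum_congr rfl fun p hp => ?_
      trans f p.1 * f p.2 * (∑ x ∈ Icc 1 N, f x / M * ∑ l ∈ range M, (rt M ^ l) ^ (x + s) *
        (rt M)⁻¹ ^ (l * (p.1 + p.2))) * (rt m ^ j) ^ p.1 * (rt m ^ k) ^ p.2
      · congr 2
        simp only [mem_product, mem_Icc] at hp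
        rw [sum_congr rfl (g := fun x => if p.1 + p.2 = x + s then f x else 0) fun x hx => ?_]
        · by_cases c : ∃ x ∈ W, p.1 + p.2 = x + s
          · obtain ⟨x, x1, x2⟩ := id c
            rw [sum_eq_single x (fun _ _ _ => if_neg (by omega)) fun d => (d (hW x1)).elim]
            simp [hf, x1, x2, ← ite_and, and_comm]
          · rw [sum_eq_zero fun x _ => ?_, if_neg fun d => c d.2, mul_zero]
            split_ifs with d
            exacts [if_neg fun x1 => c ⟨x, x1, d⟩, rfl]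
        · rw [orth (by omega), mem_Icc] at *
          split_ifs with c1 c2 c2
          · exact div_mul_cancel₀ _ (by exact_mod_cast M0.ne')
          · exact (c2 (c1.eq_of_lt_of_lt (by omega) (by omega)).symm).elim
          · exact (c1 (c2 ▸ Nat.ModEq.refl _)).elim
          · exact mul_zero _
      · simp only [mul_sum, sum_mul]
        rw [sum_comm]
        refine sum_congr rfl fun l _ => sum_congr rfl fun x _ => ?_
        simp only [mul_pow, pow_add, mul_add, pow_mul, one_pow]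
        ring
    simp only [a0]
    have L0 : 0 ≤ L := by linarith
    have a1 : B * (2 * N + m * (1 + Real.log m)) ≤ m * (B * L) := by
      rw [mul_left_comm]
      gcongr
      nlinarith
    trans ∑ l ∈ range M, ‖∑ x ∈ Icc 1 N, f x * (1 * rt M ^ l) ^ x‖ / M * (m * (B * L) * (m * (B * L)))
    · refine (sum_le_sum fun j _ => sum_le_sum fun k _ => norm_sum_le _ _).trans ?_
      rw [sum_congr rfl fun j _ => sum_comm, sum_comm]
      refine sum_le_sum fun l _ => ?_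
      have a2 := (hS.l_one hm (v := (rt M)⁻¹ ^ l) (by simp [rt_norm])).trans a1
      simp only [norm_mul, ← mul_sum, ← sum_mul, norm_div, norm_pow, rt_norm, one_pow,
        Complex.norm_natCast]
      rw [one_div_mul_eq_div]
      gcongr
    rw [← sum_mul, ← sum_div, show m ^ 2 * (B * L) ^ 3 = B * L * (m * (B * L) * (m * (B * L))) by
      ring]
    gcongr
    refine (div_le_iff₀ M0).2 ((hS.l_one (by omega) norm_one).trans ?_)
    rw [mul_assoc]
    gcongr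
    have : (M : ℝ) = 2 * N + 1 := by simp [hM]
    nlinarith)
  rw [show {p ∈ Icc 1 N ×ˢ Icc 1 N | p ∈ W ×ˢ W ∧ ∃ x ∈ W, p.1 + p.2 = x + s} =
    {p ∈ W ×ˢ W | ∃ x ∈ W, p.1 + p.2 = x + s} by
      rw [← filter_filter, filter_mem_eq_inter, inter_eq_right.2 (product_subset_product hW hW)]] at e1
  set Ed := {p ∈ W ×ˢ W | p.1 ∈ D ∧ p.2 ∈ D ∧ ∃ x ∈ W, x ∈ D ∧ p.1 + p.2 = x + s}
  have e2 : ∑ t ∈ T, #{p ∈ Icc 1 N ×ˢ Icc 1 N | (p.1 ≡ y t [MOD m] ∧ p.2 ≡ z t [MOD m]) ∧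
      p ∈ W ×ˢ W ∧ ∃ x ∈ W, p.1 + p.2 = x + s} ≤ #Ed := by
    rw [← card_biUnion fun a ha b hb c => disjoint_filter.2 fun p _ h h' =>
      c (g2 a ha b hb (h.1.1.symm.trans h'.1.1))]
    refine card_le_card fun p hp => ?_
    obtain ⟨t, ht, hp⟩ := mem_biUnion.1 hp
    obtain ⟨-, ⟨a1, a2⟩, a3, x, x1, x2⟩ := mem_filter.1 hp
    obtain ⟨b1, b2, x', b3, b4⟩ := g3 t ht
    exact mem_filter.2 ⟨a3, hD.per _ _ a1.symm b1, hD.per _ _ a2.symm b2, x, x1, hD.per _ _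
      (Nat.ModEq.add_right_cancel' s (b4.symm.trans (x2 ▸ (a1.add a2).symm))) b3, x2⟩
  have cl : ∀ a, #{b ∈ Icc 1 N | b ≡ a [MOD m]} ≤ 2 := fun a =>
    cls_le hN a _ (filter_subset _ _) fun b hb => (mem_filter.1 hb).2
  have k1 : ∀ {a b b' x x' : ℕ}, a ∈ D → b ∈ D → b' ∈ D → x ∈ D → x' ∈ D → a + b = x + s →
      a + b' = x' + s → b ≡ b' [MOD m] := fun {a b b' x x'} h1 h2 h3 h4 h5 h6 h7 =>
    (hD.sidon b h2 x' h5 b' h3 x h4 (by rw [show b + x' = b' + x by omega])).resolve_right fun c =>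
      s2 (hD.per _ _ (Nat.ModEq.add_right_cancel c (by rw [h6, add_comm])) h1)
  have e3 : #Ed ≤ #{a ∈ W | a ∈ D ∧ a ∉ A} * 8 := by
    refine (card_le_card (t := {a ∈ W | a ∈ D ∧ a ∉ A}.biUnion fun b => {p ∈ Ed | p.1 = b} ∪
      ({p ∈ Ed | p.2 = b} ∪ {p ∈ Ed | p.1 + p.2 = b + s})) fun p hp => ?_).trans
      (card_biUnion_le_card_mul _ _ _ fun b _ => (card_union_le _ _).trans
        (add_le_add (b := 2) ?_ ((card_union_le _ _).trans (add_le_add (b := 2) (d := 4) ?_ ?_))))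
    · simp only [mem_biUnion, mem_union, mem_filter, hp, true_and]
      obtain ⟨a1, a2, a3, x, x1, x2, x3⟩ := mem_filter.1 hp
      rw [mem_product] at a1
      by_contra c
      push Not at c
      rcases hA _ (by_contra fun d => (c _ ⟨a1.1, a2, d⟩).1 rfl) _
        (by_contra fun d => (c _ ⟨a1.2, a3, d⟩).2.1 rfl) _
        (by_contra fun d => (c _ ⟨x1, x2, d⟩).2.2 x3) _ s1 x3 with d | d
      · exact s2 ((by omega : p.2 = s) ▸ a3)
      · exact s2 (d ▸ a2)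
    all_goals
      refine le_of_not_gt fun c => ?_
      obtain ⟨q, hq⟩ := card_pos.1 ((Nat.zero_le _).trans_lt c)
      refine c.not_ge ?_
      simp only [Ed, mem_filter, mem_product] at hq
      obtain ⟨⟨-, a2, a3, x, -, x2, x3⟩, a4⟩ := hq
    · refine (card_le_card_of_injOn Prod.snd (fun p hp => ?_) fun p hp q hq e => Prod.ext
        ((mem_filter.1 hp).2.trans (mem_filter.1 hq).2.symm) e).trans (cl q.2)
      simp only [Ed, coe_filter, mem_filter, mem_product, Set.mem_setOf_eq] at hp ⊢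
      obtain ⟨⟨b1, b2, b3, x', -, b4, b5⟩, b6⟩ := hp
      exact ⟨hW b1.2, k1 b2 b3 a3 b4 x2 b5 (by omega)⟩
    · refine (card_le_card_of_injOn Prod.fst (fun p hp => ?_) fun p hp q hq e => Prod.ext e
        ((mem_filter.1 hp).2.trans (mem_filter.1 hq).2.symm)).trans (cl q.1)
      simp only [Ed, coe_filter, mem_filter, mem_product, Set.mem_setOf_eq] at hp ⊢
      obtain ⟨⟨b1, b2, b3, x', -, b4, b5⟩, b6⟩ := hp
      exact ⟨hW b1.1, k1 b3 b2 a2 b4 x2 (by omega) (by omega)⟩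
    · refine (card_le_card_of_injOn Prod.fst (fun p hp => ?_) fun p hp q hq e => Prod.ext e (by
        have := (mem_filter.1 hp).2
        have := (mem_filter.1 hq).2
        omega)).trans ((card_union_le _ _).trans (add_le_add (cl q.1) (cl q.2)))
      simp only [Ed, coe_filter, coe_union, mem_filter, mem_product, Set.mem_setOf_eq,
        Set.mem_union] at hp ⊢
      obtain ⟨⟨b1, b2, b3, -⟩, b6⟩ := hp
      exact (hD.sidon _ b2 _ b3 _ a2 _ a3 (by rw [b6, a4])).imp (⟨hW b1.1, ·⟩) (⟨hW b1.1, ·⟩)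
  have e4 := (Nat.cast_le (α := ℝ)).2 (e2.trans e3)
  rw [Nat.cast_mul, Nat.cast_ofNat] at e4
  have e5 : (√m - 3) / m ^ 2 * #{p ∈ W ×ˢ W | ∃ x ∈ W, p.1 + p.2 = x + s} ≤
      (#T : ℝ) / m ^ 2 * #{p ∈ W ×ˢ W | ∃ x ∈ W, p.1 + p.2 = x + s} := by
    gcongr
    linarith
  linarith [(abs_le.1 e1).1]

theorem scale (R : ℝ) : ∃ m₀ : ℕ, ∀ m ≥ m₀, ∀ N : ℕ, m ^ 2 ≤ N ^ 3 → ∃ n : ℝ, 1 ≤ n ∧ R ≤ n ∧
    R ≤ √m ∧ n ^ 40 = N ∧ (N : ℝ) ^ (1 / 20 : ℝ) = n ^ 2 ∧ √N = n ^ 20 ∧ √√m ≤ n ^ 15 ∧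
    5 + Real.log m ≤ n ∧ 2 + Real.log (2 * N + 1 : ℕ) ≤ n := by
  obtain ⟨k, hk⟩ := exists_nat_ge (max R (170 ^ 2))
  rw [max_le_iff] at hk
  refine ⟨k ^ 60, fun m hm N hN => ?_⟩
  set n := (N : ℝ) ^ ((40 : ℕ)⁻¹ : ℝ) with hn
  have n0 : 0 ≤ n := by positivity
  have n1 : n ^ 40 = N := Real.rpow_inv_natCast_pow (by positivity) (by norm_num)
  have hm : (k : ℝ) ^ 60 ≤ m := by exact_mod_cast hm
  have hN : (m : ℝ) ^ 2 ≤ (n ^ 60) ^ 2 := by
    rw [show (n ^ 60) ^ 2 = (n ^ 40) ^ 3 by ring, n1]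
    exact_mod_cast hN
  have n2 := (pow_le_pow_iff_left₀ (by positivity) (by positivity) two_ne_zero).1 hN
  have n3 := (pow_le_pow_iff_left₀ (by positivity) n0 (by norm_num)).1 (hm.trans n2)
  have k1 : (1 : ℝ) ≤ k := by linarith [hk.2]
  have n4 : 1 ≤ n := k1.trans n3
  have l1 : 5 + 80 * Real.log n ≤ n := by
    have a1 := Real.log_le_sub_one_of_pos (Real.sqrt_pos.2 (by linarith : 0 < n))
    rw [Real.log_sqrt n0] at a1
    have a2 : 170 ≤ √n := Real.le_sqrt_of_sq_le (by linarith [hk.2])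
    nlinarith [Real.sq_sqrt n0]
  have l2 : ∀ x : ℝ, 0 < x → x ≤ n ^ 80 → Real.log x ≤ 80 * Real.log n := fun x h1 h2 =>
    (Real.log_le_log h1 h2).trans_eq (by simp)
  have m0 : (0 : ℝ) < m := lt_of_lt_of_le (by positivity) hm
  refine ⟨n, n4, hk.1.trans n3, hk.1.trans (Real.le_sqrt_of_sq_le
    ((pow_le_pow_right₀ k1 (by norm_num)).trans hm)), n1, ?_, ?_, ?_, ?_, ?_⟩
  · rw [hn, ← Real.rpow_natCast, ← Real.rpow_mul (by positivity)]
    norm_num
  · rw [← n1, show n ^ 40 = (n ^ 20) ^ 2 by ring, Real.sqrt_sq (by positivity)]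
  · refine Real.sqrt_le_iff.2 ⟨by positivity, Real.sqrt_le_iff.2 ⟨by positivity, ?_⟩⟩
    rwa [← pow_mul, ← pow_mul]
  · linarith [l2 m m0 (n2.trans (pow_le_pow_right₀ n4 (by norm_num)))]
  · have := l2 (2 * N + 1 : ℕ) (by positivity) (by
      have : n ≤ n ^ 40 := le_self_pow₀ n4 (by norm_num)
      push_cast
      rw [show n ^ 80 = n ^ 40 * n ^ 40 by ring, ← n1]
      nlinarith [hk.2])
    linarith

theorem num1 {w r η J : ℝ} (η0 : 0 < η) (r0 : 0 < r) (w0 : 1 ≤ w) (w1 : 4 ≤ w * η ^ 2)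
    (h : J ^ 2 ≤ (w + 1) * (J + 2 * (r ^ 2 / w ^ 2))) : J ≤ w + 1 + r * η := by
  have a3 : (w + 1) * (2 * (r ^ 2 / w ^ 2)) ≤ (r * η) ^ 2 := by
    rw [← mul_div_assoc, ← mul_div_assoc, div_le_iff₀ (by positivity)]
    have : (w + 1) * 2 ≤ η ^ 2 * w ^ 2 := by nlinarith
    nlinarith
  by_contra d
  nlinarith [mul_pos r0 η0]

theorem num2 {w r η t V : ℝ} (η0 : 0 < η) (r0 : 0 < r) (w0 : 1 ≤ w) (t0 : 0 < t)
    (t1 : t ^ 2 = 1 / 2) (h1 : r ^ 2 < 2 * w ^ 2) (h2 : V ≤ r ^ 2)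
    (h : 2 * r ^ 2 ≤ w ^ 2 ∨ V ≤ (1 / 2 + η) * r ^ 2) :
    (w + 1) / w ^ 2 * V ≤ (t + 2 * η) * r + 2 := by
  have : V ≤ (t + 2 * η) * r * w := by
    rcases h with h | h
    · have a2 : 2 * t * r ≤ w := (abs_le_of_sq_le_sq' (by nlinarith) (by positivity)).2
      have : t * r * (2 * t * r) ≤ t * r * w := by gcongr
      nlinarith [mul_pos (mul_pos η0 r0) (by linarith : 0 < w)]
    · have a2 : t * r ≤ w := (abs_le_of_sq_le_sq' (by nlinarith) (by positivity)).2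
      have : (t + 2 * η) * r * (t * r) ≤ (t + 2 * η) * r * w := by gcongr
      have : 1 / 2 ≤ t := (abs_le_of_sq_le_sq' (by linarith) t0.le).2
      have : (1 / 2 + η) * r ^ 2 ≤ (t ^ 2 + 2 * η * t) * r ^ 2 := by gcongr <;> nlinarith
      linarith
  rw [div_mul_eq_mul_div, div_le_iff₀ (by positivity)]
  nlinarith

theorem num3 {w r η V h T s : ℝ} (η0 : 0 < η) (r0 : 1 ≤ r) (w0 : 6 ≤ w) (s0 : 0 ≤ s)
    (h0 : w ^ 2 < 2 * r ^ 2) (h1 : h ≤ η * r ^ 2 / 2) (h2 : η * r ^ 2 / 2 < h + 1)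
    (h3 : 2 * s + 10 ≤ r * η) (h4 : (1 / 2 + η) * r ^ 2 < V)
    (h5 : h * (2 * V) ≤ T + h * (2 * h + r ^ 2 + s + 1)) :
    η ^ 2 / 54 * r ≤ (w - 3) / (w ^ 2) ^ 2 * T := by
  have h6 : r * η ≤ η * r ^ 2 := by nlinarith [mul_pos η0 (by linarith : 0 < r)]
  have a3 : η * r ^ 2 / 4 * (η * r ^ 2 / 2) ≤ T := by
    have : η * r ^ 2 / 4 * (η * r ^ 2 / 2) ≤ h * (2 * V - (2 * h + r ^ 2 + s + 1)) := by
      gcongr <;> linarith
    linarith
  have a4 : w ≤ 3 / 2 * r := (abs_le_of_sq_le_sq' (by nlinarith) (by positivity)).2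
  refine le_trans ?_ (mul_le_mul (div_le_div_of_nonneg_right (by linarith : w / 2 ≤ w - 3)
    (by positivity)) a3 (by positivity) (div_nonneg (by linarith) (by positivity)))
  have : w ^ 3 ≤ (3 / 2 * r) ^ 3 := by gcongr
  rw [div_mul_eq_mul_div _ ((w ^ 2) ^ 2), le_div_iff₀ (by positivity)]
  have := mul_le_mul_of_nonneg_left this (by positivity : 0 ≤ η ^ 2 / 54 * r * w)
  linarith

open Classical in
theorem window {A : Set ℕ} (hA : Sid A) {ε : ℝ} (hε : 0 < ε) : ∃ δ > 0, ∃ m₀ : ℕ, ∀ m ≥ m₀,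
    ∀ N : ℕ, m ^ 2 ≤ N ^ 3 → ∀ D, IsClassical m D → ∀ W : Finset ℕ, W ⊆ Icc 1 N →
      Sp N (N ^ (1 / 20 : ℝ)) (fun x => if x ∈ W then 1 else 0) →
      #{a ∈ W | a ∈ D ∧ a ∉ A} ≤ δ * √N → #{a ∈ W | a ∈ D} ≤ (1 / √2 + ε) * √N := by
  obtain ⟨η, η0, η1, η2⟩ : ∃ η : ℝ, 0 < η ∧ η ≤ 1 / 10 ∧ 10 * η ≤ ε :=
    ⟨min ε 1 / 10, by positivity, by linarith [min_le_right ε 1], by linarith [min_le_left ε 1]⟩
  set t := 1 / √2
  have t0 : 0 < t := by positivity
  have t1 : t ^ 2 = 1 / 2 := by simp [t]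
  set δ := η ^ 2 / 1000 with hδ
  have δ0 : 0 < δ := by positivity
  have δ1 : δ ≤ η := by nlinarith
  have sp : ∀ (W : Finset ℕ) (D : Set ℕ), (#{a ∈ W | a ∈ D} : ℝ) =
      #{a ∈ W | a ∈ D ∧ a ∈ A} + #{a ∈ W | a ∈ D ∧ a ∉ A} := fun W D => by
    rw [← card_filter_add_card_filter_not (s := {a ∈ W | a ∈ D}) (· ∈ A), filter_filter,
      filter_filter, Nat.cast_add]
  have εr : ∀ r, 0 ≤ r → 10 * (r * η) ≤ ε * r ∧ δ * r ≤ r * η := fun r r0 =>
    ⟨by nlinarith, by nlinarith⟩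
  refine ⟨δ, δ0, ?_⟩
  by_cases c : ∃ x, Lac (A \ {x})
  · obtain ⟨x, c⟩ := c
    obtain ⟨C, hC⟩ := lac_small hA c
    refine (scale (C / η)).imp fun m₀ h m hm N hN D _ W hW _ hB => ?_
    obtain ⟨n, n1, n2, -, -, -, n3, -⟩ := h m hm N hN
    have a1 : (#{a ∈ W | a ∈ D ∧ a ∈ A} : ℝ) ≤ #{a ∈ Icc 1 N | a ∈ A} := Nat.cast_le.2 (card_le_card
      fun a ha => mem_filter.2 ⟨hW (mem_filter.1 ha).1, (mem_filter.1 ha).2.2⟩)
    have a2 := hC N
    rw [Real.sqrt_div' _ zero_le_two, div_eq_mul_one_div] at a2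
    have a3 := (div_le_iff₀ η0).1 (n2.trans (n3 ▸ le_self_pow₀ n1 (by norm_num) : n ≤ √N))
    linarith [sp W D, εr _ (Real.sqrt_nonneg N), mul_nonneg (Real.sqrt_nonneg N) η0.le]
  obtain ⟨k, hk⟩ := two_out (not_exists.1 c)
  refine (scale (40 / δ + (2 * k + 10) / η)).imp fun m₀ h m hm N hN D hD W hW hS hB => ?_
  obtain ⟨n, n1, n2, n3, n4, n5, n6, n7, n8, n9⟩ := h m hm N hN
  have k0 : (0 : ℝ) ≤ k := by positivity
  have p1 : 0 < 40 / δ := by positivity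
  have p2 : 2 * k + 10 ≤ (2 * k + 10) / η := (le_div_iff₀ η0).2
    (mul_le_of_le_one_right (by linarith) (by linarith))
  set r := √(N : ℝ)
  set w := √(m : ℝ)
  have r2 : r ^ 2 = N := Real.sq_sqrt (by positivity)
  have w2 : w ^ 2 = m := Real.sq_sqrt (by positivity)
  have r1 : n ≤ r := n6 ▸ le_self_pow₀ n1 (by norm_num)
  have r0 : 0 < r := by linarith
  have r3 : 2 * k + 10 ≤ r * η := (div_le_iff₀ η0).1 (by linarith)
  have r4 : r ≤ N := r2 ▸ le_self_pow₀ (by linarith) two_ne_zero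
  have w1 : 40 ≤ w * δ := (div_le_iff₀ δ0).1 (by linarith)
  have w3 : 2 * k + 10 ≤ w := by linarith
  have w4 : w ≤ m := w2 ▸ le_self_pow₀ (by linarith) two_ne_zero
  have e1 : 40 * n ^ 19 ≤ δ * r := by
    have : 40 ≤ n * δ := (div_le_iff₀ δ0).1 (by linarith)
    rw [n6, show δ * n ^ 20 = n * δ * n ^ 19 by ring]
    gcongr
  have hn := nice_of_classical hD
  obtain ⟨ε1, ε2⟩ := εr r r0.le
  rcases le_or_gt (2 * m) N with c1 | c1
  · have a1 := small_mod hn hA {a ∈ W | a ∈ D ∧ a ∈ A} ((filter_subset _ _).trans hW)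
      fun a ha => (mem_filter.1 ha).2.symm
    have c1 : (2 * m : ℝ) ≤ N := by exact_mod_cast c1
    have a2 : w ≤ t * r := (abs_le_of_sq_le_sq' (by rw [mul_pow, t1]; linarith) (by positivity)).2
    have := num1 (w := w) η0 r0 (by linarith) (by rw [hδ] at w1; linarith) (a1.trans_eq (by rw [r2, w2]))
    linarith [sp W D]
  obtain ⟨s, s1, s2, s3, hG⟩ := hk m (by exact_mod_cast (by linarith : (k : ℝ) < m)) D hD
    (by exact_mod_cast (by linarith : (3 : ℝ) ≤ m))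
  rw [n5] at hS
  have s2 : (s : ℝ) ≤ k := by exact_mod_cast s2
  have c2 : r ^ 2 < 2 * w ^ 2 := by rw [r2, w2]; exact_mod_cast c1
  have hw : #W ≤ r ^ 2 := by rw [r2]; exact_mod_cast (card_le_card hW).trans_eq (by simp)
  have p3 : 0 ≤ n ^ 19 := by positivity
  by_cases c3 : 2 * r ^ 2 ≤ w ^ 2 ∨ #W ≤ (1 / 2 + η) * r ^ 2
  · have a1 := one_dim hn hG c1 hW hS (by positivity) n8
    have a2 := num2 η0 r0 (by linarith) t0 t1 c2 hw c3
    have a3 : 20 * √w * (n ^ 2 * n ^ 2) ≤ 20 * n ^ 19 := by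
      rw [show 20 * n ^ 19 = 20 * n ^ 15 * (n ^ 2 * n ^ 2) by ring]
      gcongr
    rw [w2] at a2
    linarith
  exfalso
  rw [not_or, not_le, not_le] at c3
  have a1 := two_dim hn hG c1 hA s1 s3 (by exact_mod_cast (by linarith : (s : ℝ) ≤ N)) hW hS
    (by positivity) n8 n9
  have h1 : (⌊η * r ^ 2 / 2⌋₊ : ℝ) ≤ η * r ^ 2 / 2 := Nat.floor_le (by positivity)
  have a2 := (Nat.cast_le (α := ℝ)).2 (schur (s := s) (h := ⌊η * r ^ 2 / 2⌋₊) W hW
    (Nat.cast_le.1 (h1.trans (by linarith [mul_pos η0 (pow_pos r0 2), pow_pos r0 2, c3.2]))))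
  push_cast at a2
  have a6 := num3 η0 (by linarith) (by linarith) s.cast_nonneg c3.1 h1 (Nat.lt_floor_add_one _)
    (by linarith) c3.2 (by rwa [← r2] at a2)
  have a5 : 20 * √w * (n ^ 2 * n) ^ 3 ≤ 40 * n ^ 19 := by
    have : √w ≤ 2 * n ^ 10 := Real.sqrt_le_iff.2 ⟨by positivity, by
      rw [mul_pow, ← pow_mul, ← n6]
      exact (abs_le_of_sq_le_sq' (by linarith [pow_pos r0 2, c3.1]) (by positivity)).2⟩
    rw [show 40 * n ^ 19 = 20 * (2 * n ^ 10) * (n ^ 2 * n) ^ 3 by ring]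
    gcongr
  rw [w2] at a6
  have := mul_pos (pow_pos η0 2) r0
  rw [hδ] at e1 hB
  linarith

end Pool.Agent.MP_1609a8_nt.H76
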